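import Mathlib

/-!
# Piecewise linear homeomorphisms of the line with slopes in `⟨2,3⟩` and breakpoints in `ℤ[1/6]`
-/

open Set Filter Topology

namespace Pool.Agent.Y329.T23

/-- The ring `ℤ[1/6]`. -/
def A6 : Subring ℝ where
  carrier := {x | ∃ (m : ℤ) (n : ℕ), x * 6 ^ n = m}
  mul_mem' := by
    rintro a b ⟨m, n, h⟩ ⟨m', n', h'⟩
    refine ⟨m * m', n + n', ?_⟩
    push_cast
    rw [← h, ← h', pow_add]; ring
  one_mem' := ⟨1, 0, by norm_num⟩
  add_mem' := by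
    rintro a b ⟨m, n, h⟩ ⟨m', n', h'⟩
    refine ⟨m * 6 ^ n' + m' * 6 ^ n, n + n', ?_⟩
    push_cast
    rw [← h, ← h', pow_add]; ring
  zero_mem' := ⟨0, 0, by norm_num⟩
  neg_mem' := by
    rintro a ⟨m, n, h⟩
    exact ⟨-m, n, by push_cast; rw [← h]; ring⟩

/-- The group of slopes `⟨2,3⟩`. -/
def IsLam (l : ℝ) : Prop := ∃ a b : ℤ, l = 2 ^ a * 3 ^ b

lemma mem_A6 {x : ℝ} : x ∈ A6 ↔ ∃ (m : ℤ) (n : ℕ), x * 6 ^ n = m := Iff.rfl

lemma IsLam.pos {l : ℝ} (h : IsLam l) : 0 < l := by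
  obtain ⟨a, b, rfl⟩ := h; positivity

lemma IsLam.mul {l m : ℝ} (hl : IsLam l) (hm : IsLam m) : IsLam (l * m) := by
  obtain ⟨a, b, rfl⟩ := hl
  obtain ⟨c, d, rfl⟩ := hm
  refine ⟨a + c, b + d, ?_⟩
  rw [zpow_add₀ (by norm_num), zpow_add₀ (by norm_num)]; ring

lemma IsLam.inv {l : ℝ} (hl : IsLam l) : IsLam l⁻¹ := by
  obtain ⟨a, b, rfl⟩ := hl
  refine ⟨-a, -b, ?_⟩
  rw [zpow_neg, zpow_neg, mul_inv]

lemma IsLam.one : IsLam 1 := ⟨0, 0, by norm_num⟩
lemma IsLam.two : IsLam 2 := ⟨1, 0, by norm_num⟩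
lemma IsLam.three : IsLam 3 := ⟨0, 1, by norm_num⟩
lemma IsLam.pow {l : ℝ} (h : IsLam l) (n : ℕ) : IsLam (l ^ n) := by
  induction n with
  | zero => simpa using IsLam.one
  | succ n ih => rw [pow_succ]; exact ih.mul h
lemma IsLam.six : IsLam 6 := by
  have := IsLam.two.mul IsLam.three; norm_num at this; exact this

lemma A6.half : (2 : ℝ)⁻¹ ∈ A6 := ⟨3, 1, by norm_num⟩
lemma A6.third : (3 : ℝ)⁻¹ ∈ A6 := ⟨2, 1, by norm_num⟩
lemma A6.sixth : (6 : ℝ)⁻¹ ∈ A6 := ⟨1, 1, by norm_num⟩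
lemma A6.sixth_pow (n : ℕ) : ((6 : ℝ) ^ n)⁻¹ ∈ A6 := ⟨1, n, by
  rw [inv_mul_cancel₀ (by positivity)]; norm_num⟩
lemma A6.int (n : ℤ) : (n : ℝ) ∈ A6 := ⟨n, 0, by simp⟩
lemma A6.nat (n : ℕ) : (n : ℝ) ∈ A6 := ⟨n, 0, by simp⟩

lemma IsLam.mem_A6 {l : ℝ} (h : IsLam l) : l ∈ A6 := by
  have key : ∀ (x : ℝ), x ∈ A6 → x⁻¹ ∈ A6 → ∀ a : ℤ, x ^ a ∈ A6 := by
    intro x hx hx' a
    cases a with
    | ofNat n => simpa using A6.pow_mem hx n
    | negSucc n =>
      rw [zpow_negSucc, ← inv_pow]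
      exact A6.pow_mem hx' _
  obtain ⟨a, b, rfl⟩ := h
  exact A6.mul_mem (key 2 (by exact_mod_cast A6.nat 2) A6.half a)
    (key 3 (by exact_mod_cast A6.nat 3) A6.third b)

lemma A6.mul_lam_iff {l x : ℝ} (h : IsLam l) : l * x ∈ A6 ↔ x ∈ A6 := by
  constructor
  · intro hx
    have := A6.mul_mem h.inv.mem_A6 hx
    rwa [inv_mul_cancel_left₀ h.pos.ne'] at this
  · intro hx
    exact A6.mul_mem h.mem_A6 hx

lemma A6.add_iff {a x : ℝ} (h : a ∈ A6) : x + a ∈ A6 ↔ x ∈ A6 :=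
  ⟨fun hx => by simpa using A6.sub_mem hx h, fun hx => A6.add_mem hx h⟩

lemma A6.exists_between {a b : ℝ} (h : a < b) : ∃ c ∈ A6, a < c ∧ c < b := by
  obtain ⟨n, hn⟩ := pow_unbounded_of_one_lt (2 / (b - a)) (show (1 : ℝ) < 6 by norm_num)
  have h6 : (0 : ℝ) < 6 ^ n := by positivity
  have hba : 0 < b - a := by linarith
  rw [div_lt_iff₀ hba] at hn
  refine ⟨(⌊a * 6 ^ n⌋ + 1) / 6 ^ n, ⟨⌊a * 6 ^ n⌋ + 1, n, ?_⟩, ?_, ?_⟩
  · push_cast; field_simp
  · rw [lt_div_iff₀ h6]; exact Int.lt_floor_add_one _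
  · rw [div_lt_iff₀ h6]
    have := Int.floor_le (a * 6 ^ n)
    nlinarith

/-! ### germs -/

/-- `F` is affine with slope `l` on a right neighbourhood of `x`. -/
def RG (F : ℝ → ℝ) (x l : ℝ) : Prop := ∀ᶠ y in 𝓝[≥] x, F y = F x + l * (y - x)
/-- `F` is affine with slope `l` on a left neighbourhood of `x`. -/
def LG (F : ℝ → ℝ) (x l : ℝ) : Prop := ∀ᶠ y in 𝓝[≤] x, F y = F x + l * (y - x)

lemma tendsto_ge (F : ℝ ≃o ℝ) (x : ℝ) : Tendsto F (𝓝[≥] x) (𝓝[≥] (F x)) :=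
  F.continuous.continuousWithinAt.tendsto_nhdsWithin (fun _ hy => F.monotone hy)
lemma tendsto_le (F : ℝ ≃o ℝ) (x : ℝ) : Tendsto F (𝓝[≤] x) (𝓝[≤] (F x)) :=
  F.continuous.continuousWithinAt.tendsto_nhdsWithin (fun _ hy => F.monotone hy)

lemma RG.comp {F G : ℝ ≃o ℝ} {x l m : ℝ} (hG : RG G (F x) m) (hF : RG F x l) :
    RG (G * F : ℝ ≃o ℝ) x (m * l) := by
  unfold RG at *
  filter_upwards [(tendsto_ge F x).eventually hG, hF] with y h1 h2
  rw [RelIso.mul_apply, RelIso.mul_apply, h1, h2]; ring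
lemma LG.comp {F G : ℝ ≃o ℝ} {x l m : ℝ} (hG : LG G (F x) m) (hF : LG F x l) :
    LG (G * F : ℝ ≃o ℝ) x (m * l) := by
  unfold LG at *
  filter_upwards [(tendsto_le F x).eventually hG, hF] with y h1 h2
  rw [RelIso.mul_apply, RelIso.mul_apply, h1, h2]; ring

lemma RG.inv {F : ℝ ≃o ℝ} {x l : ℝ} (hl : l ≠ 0) (hF : RG F (F⁻¹ x) l) :
    RG (F⁻¹ : ℝ ≃o ℝ) x l⁻¹ := by
  unfold RG at *
  filter_upwards [(tendsto_ge F⁻¹ x).eventually hF] with y h1
  rw [RelIso.apply_inv_self, RelIso.apply_inv_self] at h1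
  field_simp
  linarith
lemma LG.inv {F : ℝ ≃o ℝ} {x l : ℝ} (hl : l ≠ 0) (hF : LG F (F⁻¹ x) l) :
    LG (F⁻¹ : ℝ ≃o ℝ) x l⁻¹ := by
  unfold LG at *
  filter_upwards [(tendsto_le F⁻¹ x).eventually hF] with y h1
  rw [RelIso.apply_inv_self, RelIso.apply_inv_self] at h1
  field_simp
  linarith

lemma RG.congr {F G : ℝ → ℝ} {x l : ℝ} (h : ∀ᶠ y in 𝓝[≥] x, F y = G y) (hF : RG F x l) :
    RG G x l := by
  have hx : F x = G x := h.self_of_nhdsWithin (Set.self_mem_Ici)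
  unfold RG at *
  filter_upwards [h, hF] with y h1 h2
  rw [← h1, ← hx, h2]
lemma LG.congr {F G : ℝ → ℝ} {x l : ℝ} (h : ∀ᶠ y in 𝓝[≤] x, F y = G y) (hF : LG F x l) :
    LG G x l := by
  have hx : F x = G x := h.self_of_nhdsWithin (Set.self_mem_Iic)
  unfold LG at *
  filter_upwards [h, hF] with y h1 h2
  rw [← h1, ← hx, h2]

/-- Group of increasing homeomorphisms of `ℝ`, locally (from each side) affine with slopes in `Lam`,
with breakpoints in `A6`, preserving `A6`. -/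
def PLg : Subgroup (ℝ ≃o ℝ) where
  carrier := {F | (∀ x, F x ∈ A6 ↔ x ∈ A6) ∧
    ∀ x, ∃ l, IsLam l ∧ ∃ m, IsLam m ∧ RG F x l ∧ LG F x m ∧ (x ∉ A6 → l = m)}
  mul_mem' := by
    rintro G F ⟨hG1, hG2⟩ ⟨hF1, hF2⟩
    refine ⟨fun x => ?_, fun x => ?_⟩
    · rw [RelIso.mul_apply, hG1, hF1]
    · obtain ⟨l, hl, m, hm, h1, h2, h3⟩ := hF2 x
      obtain ⟨l', hl', m', hm', h1', h2', h3'⟩ := hG2 (F x)
      refine ⟨l' * l, hl'.mul hl, m' * m, hm'.mul hm, h1'.comp h1, h2'.comp h2, fun hx => ?_⟩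
      rw [h3 hx, h3' (by rwa [hF1])]
  one_mem' := by
    refine ⟨fun x => by simp, fun x => ⟨1, IsLam.one, 1, IsLam.one, ?_, ?_, fun _ => rfl⟩⟩
    · exact Eventually.of_forall fun y => by simp
    · exact Eventually.of_forall fun y => by simp
  inv_mem' := by
    rintro F ⟨hF1, hF2⟩
    refine ⟨fun x => ?_, fun x => ?_⟩
    · rw [← hF1, RelIso.apply_inv_self]
    · obtain ⟨l, hl, m, hm, h1, h2, h3⟩ := hF2 (F⁻¹ x)
      refine ⟨l⁻¹, hl.inv, m⁻¹, hm.inv, h1.inv hl.pos.ne', h2.inv hm.pos.ne', fun hx => ?_⟩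
      rw [h3 ?_]
      rwa [← hF1, RelIso.apply_inv_self]

/-- Translation by `a`. -/
def T (a : ℝ) : ℝ ≃o ℝ := OrderIso.addRight a
@[simp] lemma T_apply (a x : ℝ) : T a x = x + a := rfl

lemma T_add (a b : ℝ) : T (a + b) = T a * T b := by
  ext x; simp [add_assoc, add_comm b a]
lemma T_zero : T 0 = 1 := by ext x; simp
lemma T_neg (a : ℝ) : T (-a) = (T a)⁻¹ := by
  rw [eq_inv_iff_mul_eq_one, ← T_add]; simp [T_zero]
lemma T_inv_apply (a x : ℝ) : (T a)⁻¹ x = x - a := by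
  rw [← T_neg]; simp [sub_eq_add_neg]
lemma T_zpow (a : ℝ) (n : ℤ) : T a ^ n = T (n * a) := by
  induction n with
  | zero => simp [T_zero]
  | succ n ih =>
    rw [zpow_add_one, ih, ← T_add]; push_cast; ring_nf
  | pred n ih =>
    rw [zpow_sub_one, ih, ← T_neg, ← T_add]; push_cast; ring_nf
lemma T_pow (a : ℝ) (n : ℕ) : T a ^ n = T (n * a) := by
  have := T_zpow a n; simpa using this
lemma T_inj {a b : ℝ} (h : T a = T b) : a = b := by
  have : T a 0 = T b 0 := by rw [h]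
  simpa using this

/-- Scaling by `l > 0`. -/
noncomputable def Sc (l : ℝ) (h : 0 < l) : ℝ ≃o ℝ := OrderIso.mulLeft₀ l h
@[simp] lemma Sc_apply (l : ℝ) (h : 0 < l) (x : ℝ) : Sc l h x = l * x := rfl
lemma Sc_inv_apply (l : ℝ) (h : 0 < l) (x : ℝ) : (Sc l h)⁻¹ x = l⁻¹ * x := by
  have : Sc l h ((Sc l h)⁻¹ x) = x := RelIso.apply_inv_self _ _
  rw [Sc_apply] at this
  conv_rhs => rw [← this]
  rw [inv_mul_cancel_left₀ h.ne']

lemma T_mem {a : ℝ} (ha : a ∈ A6) : T a ∈ PLg := by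
  refine ⟨fun x => A6.add_iff ha, fun x => ⟨1, IsLam.one, 1, IsLam.one, ?_, ?_, fun _ => rfl⟩⟩
  · exact Eventually.of_forall fun y => by simp; ring
  · exact Eventually.of_forall fun y => by simp; ring

lemma Sc_mem {l : ℝ} (hl : IsLam l) : Sc l hl.pos ∈ PLg := by
  refine ⟨fun x => A6.mul_lam_iff hl, fun x => ⟨l, hl, l, hl, ?_, ?_, fun _ => rfl⟩⟩
  · exact Eventually.of_forall fun y => by simp; ring
  · exact Eventually.of_forall fun y => by simp; ring

/-! ### glueing -/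

/-- Glue two order isomorphisms at `c`. -/
noncomputable def glue (F G : ℝ ≃o ℝ) (c : ℝ) (h : F c = G c) : ℝ ≃o ℝ :=
  StrictMono.orderIsoOfSurjective (fun x => if x ≤ c then F x else G x)
    (by
      intro x y hxy
      dsimp only
      split_ifs with h1 h2 h2
      · exact F.strictMono hxy
      · have : F x ≤ F c := F.monotone h1
        have : G c < G y := G.strictMono (not_le.mp h2)
        linarith
      · exact absurd (hxy.le.trans h2) h1
      · exact G.strictMono hxy)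
    (by
      intro z
      by_cases hz : z ≤ F c
      · refine ⟨F⁻¹ z, ?_⟩
        have : F⁻¹ z ≤ c := by
          have := (F⁻¹).monotone hz
          rwa [RelIso.inv_apply_self] at this
        simp [this]
      · refine ⟨G⁻¹ z, ?_⟩
        have : ¬ G⁻¹ z ≤ c := by
          intro h'
          apply hz
          have := G.monotone h'
          rw [RelIso.apply_inv_self] at this
          rw [h]; exact this
        simp [this])

lemma glue_apply (F G : ℝ ≃o ℝ) (c : ℝ) (h : F c = G c) (x : ℝ) :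
    glue F G c h x = if x ≤ c then F x else G x := rfl
lemma glue_left {F G : ℝ ≃o ℝ} {c : ℝ} {h : F c = G c} {x : ℝ} (hx : x ≤ c) :
    glue F G c h x = F x := by rw [glue_apply, if_pos hx]
lemma glue_right {F G : ℝ ≃o ℝ} {c : ℝ} {h : F c = G c} {x : ℝ} (hx : c ≤ x) :
    glue F G c h x = G x := by
  rw [glue_apply]
  split_ifs with h1
  · rw [le_antisymm h1 hx, h]
  · rfl

lemma nhdsGE_le_of_lt {c x : ℝ} (h : x < c) : ∀ᶠ y in 𝓝[≥] x, y ≤ c :=
  (eventually_le_nhds h).filter_mono nhdsWithin_le_nhds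
lemma nhdsGE_ge_of_le {c x : ℝ} (h : c ≤ x) : ∀ᶠ y in 𝓝[≥] x, c ≤ y :=
  eventually_mem_nhdsWithin.mono fun _ hy => h.trans hy
lemma nhdsLE_le_of_le {c x : ℝ} (h : x ≤ c) : ∀ᶠ y in 𝓝[≤] x, y ≤ c :=
  eventually_mem_nhdsWithin.mono fun _ hy => le_trans hy h
lemma nhdsLE_ge_of_lt {c x : ℝ} (h : c < x) : ∀ᶠ y in 𝓝[≤] x, c ≤ y :=
  (eventually_ge_nhds h).filter_mono nhdsWithin_le_nhds

lemma glue_mem {F G : ℝ ≃o ℝ} {c : ℝ} {h : F c = G c} (hF : F ∈ PLg) (hG : G ∈ PLg)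
    (hc : c ∈ A6) : glue F G c h ∈ PLg := by
  refine ⟨fun x => ?_, fun x => ?_⟩
  · rw [glue_apply]
    split_ifs
    · exact hF.1 x
    · exact hG.1 x
  · rcases lt_trichotomy x c with hx | hx | hx
    · obtain ⟨l, hl, m, hm, h1, h2, h3⟩ := hF.2 x
      exact ⟨l, hl, m, hm, h1.congr ((nhdsGE_le_of_lt hx).mono fun y hy => (glue_left hy).symm),
        h2.congr ((nhdsLE_le_of_le hx.le).mono fun y hy => (glue_left hy).symm), h3⟩
    · obtain ⟨l, hl, m, hm, h1, h2, h3⟩ := hF.2 x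
      obtain ⟨l', hl', m', hm', h1', h2', h3'⟩ := hG.2 x
      exact ⟨l', hl', m, hm,
        h1'.congr ((nhdsGE_ge_of_le hx.ge).mono fun y hy => (glue_right hy).symm),
        h2.congr ((nhdsLE_le_of_le hx.le).mono fun y hy => (glue_left hy).symm),
        fun h' => absurd (hx ▸ hc) h'⟩
    · obtain ⟨l, hl, m, hm, h1, h2, h3⟩ := hG.2 x
      exact ⟨l, hl, m, hm, h1.congr ((nhdsGE_ge_of_le hx.le).mono fun y hy => (glue_right hy).symm),
        h2.congr ((nhdsLE_ge_of_lt hx).mono fun y hy => (glue_right hy).symm), h3⟩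

/-! ### periodic extension -/

/-- Extend `F|[a,a+n]` to a map with `H (x + n) = H x + N`. -/
noncomputable def perExt (F : ℝ ≃o ℝ) (a n N : ℝ) (hn : 0 < n) (hN : 0 < N)
    (h : F (a + n) = F a + N) : ℝ ≃o ℝ :=
  StrictMono.orderIsoOfSurjective (fun x => F (x - ⌊(x - a) / n⌋ * n) + ⌊(x - a) / n⌋ * N)
    (by
      intro x y hxy
      dsimp only
      have hle : ⌊(x - a) / n⌋ ≤ ⌊(y - a) / n⌋ := Int.floor_mono (by gcongr)
      have e1 := Int.lt_floor_add_one ((x - a) / n)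
      have e2 := Int.floor_le ((y - a) / n)
      rw [div_lt_iff₀ hn] at e1
      rw [le_div_iff₀ hn] at e2
      rcases hle.eq_or_lt with h1 | h1
      · rw [h1]
        have : F (x - ⌊(y - a) / n⌋ * n) < F (y - ⌊(y - a) / n⌋ * n) := F.strictMono (by linarith)
        linarith
      · have h2 : ((⌊(x - a) / n⌋ : ℤ) : ℝ) + 1 ≤ ⌊(y - a) / n⌋ := by exact_mod_cast h1
        have h3 : F (x - ⌊(x - a) / n⌋ * n) < F (a + n) := F.strictMono (by linarith)
        have h4 : F a ≤ F (y - ⌊(y - a) / n⌋ * n) := F.monotone (by linarith)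
        rw [h] at h3
        nlinarith)
    (by
      intro z
      set j : ℤ := ⌊(z - F a) / N⌋ with hj
      have e1 := Int.lt_floor_add_one ((z - F a) / N)
      have e2 := Int.floor_le ((z - F a) / N)
      rw [← hj] at e1 e2
      rw [div_lt_iff₀ hN] at e1
      rw [le_div_iff₀ hN] at e2
      have g1 : a ≤ F⁻¹ (z - j * N) := by
        have := (F⁻¹).monotone (show F a ≤ z - j * N by linarith)
        rwa [RelIso.inv_apply_self] at this
      have g2 : F⁻¹ (z - j * N) < a + n := by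
        have := (F⁻¹).strictMono (show z - j * N < F (a + n) by rw [h]; linarith)
        rwa [RelIso.inv_apply_self] at this
      refine ⟨F⁻¹ (z - j * N) + j * n, ?_⟩
      have hfl : ⌊(F⁻¹ (z - j * N) + j * n - a) / n⌋ = j := by
        rw [Int.floor_eq_iff]
        rw [le_div_iff₀ hn, div_lt_iff₀ hn]
        constructor <;> nlinarith
      dsimp only
      rw [hfl]
      simp)

lemma perExt_apply (F : ℝ ≃o ℝ) (a n N : ℝ) (hn : 0 < n) (hN : 0 < N)
    (h : F (a + n) = F a + N) (x : ℝ) :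
    perExt F a n N hn hN h x = F (x - ⌊(x - a) / n⌋ * n) + ⌊(x - a) / n⌋ * N := rfl

lemma perExt_eq {F : ℝ ≃o ℝ} {a n N : ℝ} {hn : 0 < n} {hN : 0 < N}
    {h : F (a + n) = F a + N} {x : ℝ} (j : ℤ) (h1 : a + j * n ≤ x) (h2 : x ≤ a + j * n + n) :
    perExt F a n N hn hN h x = F (x - j * n) + j * N := by
  rw [perExt_apply]
  rcases h2.eq_or_lt with h2 | h2
  · have : ⌊(x - a) / n⌋ = j + 1 := by
      rw [h2, Int.floor_eq_iff]
      have : (a + j * n + n - a) / n = j + 1 := by field_simp; ring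
      rw [this]; push_cast; constructor <;> linarith
    rw [this, h2]
    push_cast
    have e1 : a + ↑j * n + n - (↑j + 1) * n = a := by ring
    have e2 : a + ↑j * n + n - ↑j * n = a + n := by ring
    rw [e1, e2, h]; ring
  · have : ⌊(x - a) / n⌋ = j := by
      rw [Int.floor_eq_iff, le_div_iff₀ hn, div_lt_iff₀ hn]
      constructor <;> linarith
    rw [this]

lemma perExt_eq' {F : ℝ ≃o ℝ} {a n N : ℝ} {hn : 0 < n} {hN : 0 < N}
    {h : F (a + n) = F a + N} {x : ℝ} (h1 : a ≤ x) (h2 : x ≤ a + n) :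
    perExt F a n N hn hN h x = F x := by
  have := perExt_eq (F := F) (a := a) (n := n) (N := N) (hn := hn) (hN := hN) (h := h) (x := x) 0
    (by simpa using h1) (by simpa using h2)
  simpa using this

lemma perExt_add {F : ℝ ≃o ℝ} {a n N : ℝ} {hn : 0 < n} {hN : 0 < N}
    {h : F (a + n) = F a + N} (x : ℝ) :
    perExt F a n N hn hN h (x + n) = perExt F a n N hn hN h x + N := by
  rw [perExt_apply, perExt_apply]
  have : (x + n - a) / n = (x - a) / n + 1 := by field_simp; ring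
  rw [this, Int.floor_add_one]
  push_cast
  have e1 : x + n - (↑⌊(x - a) / n⌋ + 1) * n = x - ↑⌊(x - a) / n⌋ * n := by ring
  rw [e1]; ring

lemma RG_shift {F : ℝ ≃o ℝ} {x l : ℝ} (c d : ℝ) (hF : RG F (x - c) l) :
    RG (fun y => F (y - c) + d) x l := by
  have h := (RG.comp (F := T (-c)) (G := F) (x := x) (l := 1) (m := l)
    (by simpa [sub_eq_add_neg] using hF) (Eventually.of_forall fun y => by simp; ring))
  have h' := RG.comp (F := F * T (-c)) (G := T d) (x := x) (l := l * 1) (m := 1)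
    (Eventually.of_forall fun y => by simp; ring) h
  rw [one_mul, mul_one] at h'
  exact h'.congr (Eventually.of_forall fun y => by simp [sub_eq_add_neg])
lemma LG_shift {F : ℝ ≃o ℝ} {x l : ℝ} (c d : ℝ) (hF : LG F (x - c) l) :
    LG (fun y => F (y - c) + d) x l := by
  have h := (LG.comp (F := T (-c)) (G := F) (x := x) (l := 1) (m := l)
    (by simpa [sub_eq_add_neg] using hF) (Eventually.of_forall fun y => by simp; ring))
  have h' := LG.comp (F := F * T (-c)) (G := T d) (x := x) (l := l * 1) (m := 1)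
    (Eventually.of_forall fun y => by simp; ring) h
  rw [one_mul, mul_one] at h'
  exact h'.congr (Eventually.of_forall fun y => by simp [sub_eq_add_neg])

lemma perExt_mem {F : ℝ ≃o ℝ} {a n N : ℝ} {hn : 0 < n} {hN : 0 < N}
    {h : F (a + n) = F a + N} (hF : F ∈ PLg) (ha : a ∈ A6) (hn' : n ∈ A6) (hN' : N ∈ A6) :
    perExt F a n N hn hN h ∈ PLg := by
  refine ⟨fun x => ?_, fun x => ?_⟩
  · rw [perExt_apply, A6.add_iff (A6.mul_mem (A6.int _) hN'), hF.1, sub_eq_add_neg, ← neg_mul,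
      A6.add_iff (A6.mul_mem (A6.neg_mem (A6.int _)) hn')]
  · set j : ℤ := ⌊(x - a) / n⌋ with hj
    have e1 := Int.lt_floor_add_one ((x - a) / n)
    have e2 := Int.floor_le ((x - a) / n)
    rw [← hj] at e1 e2
    rw [div_lt_iff₀ hn] at e1
    rw [le_div_iff₀ hn] at e2
    rcases e2.eq_or_lt with e3 | e3
    · obtain ⟨l, hl, m, hm, h1, h2, h3⟩ := hF.2 (x - j * n)
      obtain ⟨l', hl', m', hm', h1', h2', h3'⟩ := hF.2 (x - (j - 1 : ℤ) * n)
      refine ⟨l, hl, m', hm', (RG_shift (j * n) (j * N) h1).congr ?_,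
        (LG_shift ((j - 1 : ℤ) * n) ((j - 1 : ℤ) * N) h2').congr ?_, fun h' => ?_⟩
      · filter_upwards [nhdsGE_ge_of_le (show a + j * n ≤ x by linarith),
          nhdsGE_le_of_lt (show x < a + j * n + n by linarith)] with y hy1 hy2
        rw [perExt_eq j hy1 hy2]
      · filter_upwards [nhdsLE_le_of_le (show x ≤ a + (j - 1 : ℤ) * n + n by push_cast; linarith),
          nhdsLE_ge_of_lt (show a + (j - 1 : ℤ) * n < x by push_cast; linarith)] with y hy1 hy2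
        rw [perExt_eq (j - 1) hy2 hy1]
      · exfalso; apply h'
        have : x = a + j * n := by linarith
        rw [this]
        exact A6.add_mem ha (A6.mul_mem (A6.int _) hn')
    · obtain ⟨l, hl, m, hm, h1, h2, h3⟩ := hF.2 (x - j * n)
      refine ⟨l, hl, m, hm, (RG_shift (j * n) (j * N) h1).congr ?_,
        (LG_shift (j * n) (j * N) h2).congr ?_, fun h' => h3 ?_⟩
      · filter_upwards [nhdsGE_ge_of_le (show a + j * n ≤ x by linarith),
          nhdsGE_le_of_lt (show x < a + j * n + n by linarith)] with y hy1 hy2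
        rw [perExt_eq j hy1 hy2]
      · filter_upwards [nhdsLE_le_of_le (show x ≤ a + j * n + n by linarith),
          nhdsLE_ge_of_lt (show a + j * n < x by linarith)] with y hy1 hy2
        rw [perExt_eq j hy2 hy1]
      · rw [sub_eq_add_neg, ← neg_mul, A6.add_iff (A6.mul_mem (A6.neg_mem (A6.int _)) hn')]
        exact h'

end Pool.Agent.Y329.T23
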