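import Pool.Agent.Y329.T23.Lifts

namespace Pool.Agent.Y329.ThompsonStein

/-- The Thompson-Stein group `T(2,3)`: the group of the homeomorphisms of the circle `ℝ/ℤ` which
have a lift to the line as in `IsLiftT`. -/
def T23 : Subgroup (UnitAddCircle ≃ₜ UnitAddCircle) where
  carrier := {f | ∃ F : ℝ ≃o ℝ, IsLiftT F ∧
    ∀ x : ℝ, f (x : UnitAddCircle) = ((F x : ℝ) : UnitAddCircle)}
  mul_mem' := Pool.Agent.Y329.T23.T23_mul
  one_mem' := Pool.Agent.Y329.T23.T23_one
  inv_mem' := Pool.Agent.Y329.T23.T23_inv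

end Pool.Agent.Y329.ThompsonStein
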