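import Pool.Agent.Y329.T23.Final
import Pool.Agent.Y329.T23.Group

/-!
# Reduction from the circle to lifts
-/

open Set Filter Topology

namespace Pool.Agent.Y329.T23

open Pool.Agent.Y329.ThompsonStein (IsLiftT IsC1Diffeo)

/-! ### circle maps -/

lemma coe_eq_iff {x y : ℝ} : (x : UnitAddCircle) = (y : UnitAddCircle) ↔ ∃ m : ℤ, x = y + m := by
  rw [← sub_eq_zero, ← AddCircle.coe_sub, AddCircle.coe_eq_zero_iff]
  constructor
  · rintro ⟨m, hm⟩
    refine ⟨m, ?_⟩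
    simp only [zsmul_eq_mul, mul_one] at hm
    linarith
  · rintro ⟨m, hm⟩
    refine ⟨m, ?_⟩
    simp only [zsmul_eq_mul, mul_one]
    linarith

lemma coe_surj (z : UnitAddCircle) : ∃ x : ℝ, (x : UnitAddCircle) = z :=
  QuotientAddGroup.mk_surjective z

lemma coe_add_int (x : ℝ) (m : ℤ) : ((x + m : ℝ) : UnitAddCircle) = (x : UnitAddCircle) :=
  coe_eq_iff.mpr ⟨m, rfl⟩

lemma homeo_ext {f g : UnitAddCircle ≃ₜ UnitAddCircle} (h : ∀ x : ℝ, f x = g x) : f = g := by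
  ext z
  obtain ⟨x, rfl⟩ := coe_surj z
  exact h x

/-- degree one order isomorphisms -/
def DegG : Subgroup (ℝ ≃o ℝ) where
  carrier := {F | Deg F}
  mul_mem' := fun h h' => Deg.mul h h'
  one_mem' := fun _ => rfl
  inv_mem' := fun h => Deg.inv h

lemma per_coe {F : ℝ ≃o ℝ} (h : Deg F) :
    Function.Periodic (fun x : ℝ => ((F x : ℝ) : UnitAddCircle)) 1 := by
  intro x
  change ((F (x + 1) : ℝ) : UnitAddCircle) = ((F x : ℝ) : UnitAddCircle)
  rw [h, coe_eq_iff]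
  exact ⟨1, by norm_num⟩

/-- the circle map defined by a lift -/
noncomputable def cmap (F : ℝ ≃o ℝ) (h : Deg F) : UnitAddCircle → UnitAddCircle :=
  (per_coe h).lift

lemma cmap_cont (F : ℝ ≃o ℝ) (h : Deg F) : Continuous (cmap F h) := by
  have hq : IsQuotientMap (fun x : ℝ => (x : UnitAddCircle)) := isQuotientMap_quotient_mk'
  rw [hq.continuous_iff]
  exact (AddCircle.continuous_mk' 1).comp F.continuous

/-- from lifts to circle homeomorphisms -/
noncomputable def Phi : DegG →* (UnitAddCircle ≃ₜ UnitAddCircle) where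
  toFun u :=
    { toFun := cmap u.1 u.2
      invFun := cmap (u⁻¹ : DegG).1 (u⁻¹ : DegG).2
      left_inv := by
        intro z
        obtain ⟨x, rfl⟩ := coe_surj z
        change (((u.1)⁻¹ (u.1 x) : ℝ) : UnitAddCircle) = (x : UnitAddCircle)
        rw [RelIso.inv_apply_self]
      right_inv := by
        intro z
        obtain ⟨x, rfl⟩ := coe_surj z
        change ((u.1 ((u.1)⁻¹ x) : ℝ) : UnitAddCircle) = (x : UnitAddCircle)
        rw [RelIso.apply_inv_self]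
      continuous_toFun := cmap_cont _ _
      continuous_invFun := cmap_cont _ _ }
  map_one' := by
    ext z
    obtain ⟨x, rfl⟩ := coe_surj z
    rfl
  map_mul' := by
    intro u v
    ext z
    obtain ⟨x, rfl⟩ := coe_surj z
    rfl

lemma Phi_coe (u : DegG) (x : ℝ) : Phi u (x : UnitAddCircle) = ((u.1 x : ℝ) : UnitAddCircle) :=
  rfl

/-- A continuous integer valued function is constant. -/
lemma const_of_int {h : ℝ → ℝ} (hc : Continuous h) (hi : ∀ x, ∃ m : ℤ, h x = m) :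
    ∃ m : ℤ, ∀ x, h x = m := by
  obtain ⟨m, hm⟩ := hi 0
  refine ⟨m, fun x => ?_⟩
  obtain ⟨n, hn⟩ := hi x
  by_contra hne
  have hmn : n ≠ m := fun h' => hne (by rw [hn, h'])
  -- a non integer value in between
  have hval : ∃ c : ℝ, (∀ k : ℤ, c ≠ k) ∧ c ∈ uIcc (h 0) (h x) := by
    rcases lt_or_gt_of_ne hmn with h1 | h1
    · have h2 : (n : ℝ) + 1 ≤ m := by exact_mod_cast h1
      refine ⟨n + 1 / 2, fun k hk => ?_, ?_⟩
      · have h3 : (n : ℝ) < k := by linarith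
        have h4 : (k : ℝ) < n + 1 := by linarith
        have h5 : n < k := by exact_mod_cast h3
        have h6 : k < n + 1 := by exact_mod_cast h4
        omega
      · rw [uIcc_comm, uIcc_of_le (by rw [hm, hn]; linarith), hm, hn]
        constructor <;> linarith
    · have h2 : (m : ℝ) + 1 ≤ n := by exact_mod_cast h1
      refine ⟨m + 1 / 2, fun k hk => ?_, ?_⟩
      · have h3 : (m : ℝ) < k := by linarith
        have h4 : (k : ℝ) < m + 1 := by linarith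
        have h5 : m < k := by exact_mod_cast h3
        have h6 : k < m + 1 := by exact_mod_cast h4
        omega
      · rw [uIcc_of_le (by rw [hm, hn]; linarith), hm, hn]
        constructor <;> linarith
  obtain ⟨c, hc1, hc2⟩ := hval
  obtain ⟨y, -, hy⟩ := intermediate_value_uIcc hc.continuousOn hc2
  obtain ⟨k, hk⟩ := hi y
  exact hc1 k (by rw [← hy, hk])

lemma lift_unique {F G : ℝ → ℝ} (hF : Continuous F) (hG : Continuous G)
    (h : ∀ x, ((F x : ℝ) : UnitAddCircle) = ((G x : ℝ) : UnitAddCircle)) :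
    ∃ m : ℤ, ∀ x, F x = G x + m := by
  obtain ⟨m, hm⟩ := const_of_int (h := fun x => F x - G x) (hF.sub hG) (fun x => by
    obtain ⟨m, hm⟩ := coe_eq_iff.mp (h x)
    exact ⟨m, by rw [hm]; ring⟩)
  exact ⟨m, fun x => by linarith [hm x]⟩

/-- positive `C¹` lifts -/
def Pos (f : UnitAddCircle ≃ₜ UnitAddCircle) : Prop :=
  ∃ F : ℝ ≃o ℝ, Deg F ∧ ContDiff ℝ 1 F ∧ (∀ x, 0 < deriv F x) ∧
    ∀ x : ℝ, f (x : UnitAddCircle) = ((F x : ℝ) : UnitAddCircle)

/-- negative `C¹` lifts -/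
def Neg (f : UnitAddCircle ≃ₜ UnitAddCircle) : Prop :=
  ∃ F : ℝ ≃o ℝ, Deg F ∧ ContDiff ℝ 1 F ∧ (∀ x, 0 < deriv F x) ∧
    ∀ x : ℝ, f (x : UnitAddCircle) = ((-F x : ℝ) : UnitAddCircle)

lemma exists_iso {F : ℝ → ℝ} (hF : ContDiff ℝ 1 F) (hpos : ∀ x, 0 < deriv F x)
    (hint : ∀ x, ∃ m : ℤ, F (x + 1) = F x + m)
    (hinj : ∀ x y, (∃ m : ℤ, F x = F y + m) → ∃ m : ℤ, x = y + m) :
    ∃ G : ℝ ≃o ℝ, Deg G ∧ (⇑G : ℝ → ℝ) = F := by
  have hmono : StrictMono F := strictMono_of_deriv_pos hpos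
  have hcont : Continuous F := hF.continuous
  obtain ⟨d, hd⟩ := const_of_int (h := fun x => F (x + 1) - F x) (by fun_prop) (fun x => by
    obtain ⟨m, hm⟩ := hint x
    exact ⟨m, by rw [hm]; ring⟩)
  have hd0 : 0 < d := by
    have h1 := hd 0
    have h2 := hmono (show (0 : ℝ) < 0 + 1 by norm_num)
    have h3 : (0 : ℝ) < d := by linarith
    exact_mod_cast h3
  have hd1 : d = 1 := by
    by_contra hne
    have h1 : (2 : ℝ) ≤ d := by exact_mod_cast (show 2 ≤ d by omega)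
    have h2 := hd 0
    have h3 : F 0 + 1 ∈ Icc (F 0) (F (0 + 1)) := ⟨by linarith, by linarith⟩
    obtain ⟨y, hy, hy'⟩ := intermediate_value_Icc (by norm_num) hcont.continuousOn h3
    obtain ⟨m, hm⟩ := hinj y 0 ⟨1, by rw [hy']; norm_num⟩
    rw [zero_add] at hm
    have h4 : y ≠ 0 := by
      rintro rfl; linarith
    have h5 : y ≠ 1 := by
      rintro rfl
      rw [zero_add] at h2
      linarith
    have h6 : 0 < y := lt_of_le_of_ne hy.1 (Ne.symm h4)
    have h7 : y < 1 := lt_of_le_of_ne (by simpa using hy.2) h5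
    rw [hm] at h6 h7
    have h8 : 0 < m := by exact_mod_cast h6
    have h9 : m < 1 := by exact_mod_cast h7
    omega
  have hper : ∀ x, F (x + 1) = F x + 1 := fun x => by
    have := hd x
    rw [hd1] at this
    push_cast at this
    linarith
  have hsurj : Function.Surjective F := by
    intro z
    have h1 : ∀ n : ℕ, F n = F 0 + n := by
      intro n
      induction n with
      | zero => simp
      | succ n ih => push_cast; rw [hper, ih]; ring
    have h2 : ∀ n : ℕ, F (-n) = F 0 - n := by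
      intro n
      induction n with
      | zero => simp
      | succ n ih =>
        have := hper (-((n + 1 : ℕ) : ℝ))
        rw [show -((n + 1 : ℕ) : ℝ) + 1 = -(n : ℝ) by push_cast; ring, ih] at this
        push_cast at this ⊢
        linarith
    obtain ⟨n, hn⟩ := exists_nat_gt |z - F 0|
    rw [abs_lt] at hn
    have h3 := h1 n
    have h4 := h2 n
    exact mem_range_of_exists_le_of_exists_ge hcont ⟨-n, by linarith⟩ ⟨n, by linarith⟩
  refine ⟨hmono.orderIsoOfSurjective F hsurj, hper, rfl⟩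

lemma pos_or_neg {f : UnitAddCircle ≃ₜ UnitAddCircle} (h : IsC1Diffeo f) : Pos f ∨ Neg f := by
  obtain ⟨F, hF, hne, hlift⟩ := h
  have hcd : Continuous (deriv F) := hF.continuous_deriv (by norm_num)
  have hsign : (∀ x, 0 < deriv F x) ∨ (∀ x, deriv F x < 0) := by
    by_contra hcon
    push Not at hcon
    obtain ⟨⟨a, ha⟩, ⟨b, hb⟩⟩ := hcon
    obtain ⟨c, hc⟩ := mem_range_of_exists_le_of_exists_ge hcd ⟨a, ha⟩ ⟨b, hb⟩
    exact hne c hc
  have hint : ∀ x, ∃ m : ℤ, F (x + 1) = F x + m := by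
    intro x
    rw [← coe_eq_iff, ← hlift, ← hlift]
    congr 1
    rw [coe_eq_iff]
    exact ⟨1, by norm_num⟩
  have hinj : ∀ x y, (∃ m : ℤ, F x = F y + m) → ∃ m : ℤ, x = y + m := by
    intro x y hxy
    rw [← coe_eq_iff, ← hlift, ← hlift] at hxy
    rw [← coe_eq_iff]
    exact f.injective hxy
  rcases hsign with hpos | hneg
  · left
    obtain ⟨G, hG, hGF⟩ := exists_iso hF hpos hint hinj
    refine ⟨G, hG, ?_, ?_, ?_⟩
    · rw [hGF]; exact hF
    · rw [hGF]; exact hpos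
    · rw [hGF]; exact hlift
  · right
    obtain ⟨G, hG, hGF⟩ := exists_iso (F := fun x => -F x) hF.neg (fun x => by
      rw [deriv.fun_neg]; linarith [hneg x]) (fun x => by
        obtain ⟨m, hm⟩ := hint x
        exact ⟨-m, by rw [hm]; push_cast; ring⟩) (fun x y ⟨m, hm⟩ =>
          hinj x y ⟨-m, by push_cast; linarith⟩)
    refine ⟨G, hG, ?_, ?_, fun x => ?_⟩
    · rw [hGF]; exact hF.neg
    · rw [hGF]
      intro x
      rw [deriv.fun_neg]; linarith [hneg x]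
    · rw [hGF]
      simp only [neg_neg]
      exact hlift x

lemma not_pos_neg {f : UnitAddCircle ≃ₜ UnitAddCircle} (h : Pos f) (h' : Neg f) : False := by
  obtain ⟨F, _, _, _, hF⟩ := h
  obtain ⟨G, _, _, _, hG⟩ := h'
  obtain ⟨m, hm⟩ := lift_unique (F := F) (G := fun x => -G x) F.continuous G.continuous.neg
    (fun x => by rw [← hF, ← hG])
  have h1 := hm 0
  have h2 := hm 1
  have h3 := F.strictMono (show (0 : ℝ) < 1 by norm_num)
  have h4 := G.strictMono (show (0 : ℝ) < 1 by norm_num)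
  linarith

lemma deriv_mul_pos {F G : ℝ ≃o ℝ} (hF : ContDiff ℝ 1 F) (hG : ContDiff ℝ 1 G)
    (hF' : ∀ x, 0 < deriv F x) (hG' : ∀ x, 0 < deriv G x) :
    ContDiff ℝ 1 (F * G : ℝ ≃o ℝ) ∧ ∀ x, 0 < deriv (F * G : ℝ ≃o ℝ) x := by
  have h1 : (⇑(F * G : ℝ ≃o ℝ) : ℝ → ℝ) = F ∘ G := rfl
  rw [h1]
  refine ⟨hF.comp hG, fun x => ?_⟩
  rw [deriv_comp _ ((hF.differentiable (by norm_num)) _) ((hG.differentiable (by norm_num)) _)]
  exact mul_pos (hF' _) (hG' _)

lemma negC_smooth {F : ℝ ≃o ℝ} (hF : ContDiff ℝ 1 F) (hF' : ∀ x, 0 < deriv F x) :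
    ContDiff ℝ 1 (negC F) ∧ ∀ x, 0 < deriv (negC F) x := by
  have h1 : (⇑(negC F) : ℝ → ℝ) = fun x => -F (-x) := rfl
  rw [h1]
  refine ⟨(hF.comp contDiff_neg).neg, fun x => ?_⟩
  rw [deriv.fun_neg, deriv_comp_neg]
  simpa using hF' (-x)

lemma negC_deg {F : ℝ ≃o ℝ} (hF : Deg F) : Deg (negC F) := by
  intro x
  rw [negC_apply, negC_apply]
  have := hF (-(x + 1))
  rw [show -(x + 1) + 1 = -x by ring] at this
  linarith

lemma Pos.mul_pos {f g : UnitAddCircle ≃ₜ UnitAddCircle} (hf : Pos f) (hg : Pos g) :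
    Pos (f * g) := by
  obtain ⟨F, F1, F2, F3, F4⟩ := hf
  obtain ⟨G, G1, G2, G3, G4⟩ := hg
  have h := deriv_mul_pos F2 G2 F3 G3
  refine ⟨F * G, F1.mul G1, h.1, h.2, fun x => ?_⟩
  rw [Homeomorph.mul_apply, G4, F4]; rfl

lemma Pos.mul_neg {f g : UnitAddCircle ≃ₜ UnitAddCircle} (hf : Pos f) (hg : Neg g) :
    Neg (f * g) := by
  obtain ⟨F, F1, F2, F3, F4⟩ := hf
  obtain ⟨G, G1, G2, G3, G4⟩ := hg
  have hn := negC_smooth F2 F3
  have h := deriv_mul_pos hn.1 G2 hn.2 G3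
  refine ⟨negC F * G, (negC_deg F1).mul G1, h.1, h.2, fun x => ?_⟩
  rw [Homeomorph.mul_apply, G4, F4, RelIso.mul_apply, negC_apply, neg_neg]

lemma Neg.mul_pos {f g : UnitAddCircle ≃ₜ UnitAddCircle} (hf : Neg f) (hg : Pos g) :
    Neg (f * g) := by
  obtain ⟨F, F1, F2, F3, F4⟩ := hf
  obtain ⟨G, G1, G2, G3, G4⟩ := hg
  have h := deriv_mul_pos F2 G2 F3 G3
  refine ⟨F * G, F1.mul G1, h.1, h.2, fun x => ?_⟩
  rw [Homeomorph.mul_apply, G4, F4]; rfl

lemma Neg.mul_neg {f g : UnitAddCircle ≃ₜ UnitAddCircle} (hf : Neg f) (hg : Neg g) :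
    Pos (f * g) := by
  obtain ⟨F, F1, F2, F3, F4⟩ := hf
  obtain ⟨G, G1, G2, G3, G4⟩ := hg
  have hn := negC_smooth F2 F3
  have h := deriv_mul_pos hn.1 G2 hn.2 G3
  refine ⟨negC F * G, (negC_deg F1).mul G1, h.1, h.2, fun x => ?_⟩
  rw [Homeomorph.mul_apply, G4, F4, RelIso.mul_apply, negC_apply]

/-- from lifts to the group -/
noncomputable def piT : Gt →* ThompsonStein.T23 where
  toFun g := ⟨Phi ⟨g.1, g.2.2⟩, g.1, isLiftT_of_Per g.2, fun _ => rfl⟩
  map_one' := by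
    apply Subtype.ext
    exact map_one Phi
  map_mul' := by
    intro g h
    apply Subtype.ext
    exact map_mul Phi ⟨g.1, g.2.2⟩ ⟨h.1, h.2.2⟩

lemma piT_coe (g : Gt) (x : ℝ) :
    (piT g).1 (x : UnitAddCircle) = ((g.1 x : ℝ) : UnitAddCircle) := rfl

lemma piT_surj (t : ThompsonStein.T23) : ∃ g : Gt, piT g = t := by
  obtain ⟨f, F, hF, hF'⟩ := t
  refine ⟨⟨F, Per_of_isLiftT hF⟩, ?_⟩
  apply Subtype.ext
  apply homeo_ext
  intro x
  rw [piT_coe, hF']

section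
variable (ρ : ThompsonStein.T23 →* (UnitAddCircle ≃ₜ UnitAddCircle)) (hρ : ∀ g, IsC1Diffeo (ρ g))

/-- the lifted action -/
noncomputable def rh : Gt →* (UnitAddCircle ≃ₜ UnitAddCircle) := ρ.comp piT

lemma piT_T1 : piT ⟨T 1, Per_T A6.one_mem 1⟩ = 1 := by
  apply Subtype.ext
  apply homeo_ext
  intro x
  rw [piT_coe]
  change ((x + 1 : ℝ) : UnitAddCircle) = (x : UnitAddCircle)
  rw [coe_eq_iff]; exact ⟨1, by norm_num⟩

include hρ in
lemma all_pos (g : Gt) : Pos (rh ρ g) := by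
  classical
  let q : (ℝ ≃o ℝ) → ZMod 2 := fun g =>
    if h : Per 1 1 g then (if Pos (rh ρ (⟨g, h⟩ : Gt)) then 0 else 1) else 0
  have hpn : ∀ g : Gt, ¬ Pos (rh ρ g) → Neg (rh ρ g) := fun g h =>
    (pos_or_neg (hρ (piT g))).resolve_left h
  have Q : QHom q := by
    constructor
    · intro g h hg hh
      simp only [q, dif_pos hg, dif_pos hh, dif_pos (hg.mul hh)]
      have e : rh ρ (⟨g * h, hg.mul hh⟩ : Gt) = rh ρ ⟨g, hg⟩ * rh ρ ⟨h, hh⟩ := by
        rw [← map_mul]; rfl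
      rw [e]
      by_cases h1 : Pos (rh ρ ⟨g, hg⟩) <;> by_cases h2 : Pos (rh ρ ⟨h, hh⟩)
      · rw [if_pos h1, if_pos h2, if_pos (h1.mul_pos h2)]; rfl
      · have h3 := h1.mul_neg (hpn _ h2)
        rw [if_pos h1, if_neg h2, if_neg (fun h4 => not_pos_neg h4 h3)]; rfl
      · have h3 := (hpn _ h1).mul_pos h2
        rw [if_neg h1, if_pos h2, if_neg (fun h4 => not_pos_neg h4 h3)]; rfl
      · have h3 := (hpn _ h1).mul_neg (hpn _ h2)
        rw [if_neg h1, if_neg h2, if_pos h3]; rfl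
    · have h1 : Per 1 1 (T 1) := Per_T A6.one_mem 1
      simp only [q, dif_pos h1]
      rw [if_pos]
      have e : rh ρ (⟨T 1, h1⟩ : Gt) = 1 := by
        change ρ (piT ⟨T 1, h1⟩) = 1
        rw [piT_T1, map_one]
      rw [e]
      refine ⟨1, fun _ => rfl, contDiff_id, fun x => ?_, fun _ => rfl⟩
      have h2 : (⇑(1 : ℝ ≃o ℝ) : ℝ → ℝ) = id := rfl
      rw [h2, deriv_id]; exact one_pos
  have hg : Per 1 1 (g : ℝ ≃o ℝ) := g.2
  have := Q.trivial hg
  simp only [q, dif_pos hg] at this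
  by_contra hcon
  rw [if_neg hcon] at this
  exact absurd this (by decide)

/-- the group of pairs -/
def Gam : Subgroup G2 where
  carrier := {p | Deg p.2 ∧ ∃ h : Per 1 1 p.1, ∀ x : ℝ,
    rh ρ (⟨p.1, h⟩ : Gt) (x : UnitAddCircle) = ((p.2 x : ℝ) : UnitAddCircle)}
  mul_mem' := by
    rintro p q ⟨hp, hp', hp2⟩ ⟨hq, hq', hq2⟩
    refine ⟨hp.mul hq, hp'.mul hq', fun x => ?_⟩
    have e : rh ρ (⟨(p * q).1, hp'.mul hq'⟩ : Gt) = rh ρ ⟨p.1, hp'⟩ * rh ρ ⟨q.1, hq'⟩ := by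
      rw [← map_mul]; rfl
    rw [e, Homeomorph.mul_apply, hq2, hp2]; rfl
  one_mem' := by
    refine ⟨fun _ => rfl, Per_one 1, fun x => ?_⟩
    have e : rh ρ (⟨(1 : G2).1, Per_one 1⟩ : Gt) = 1 := map_one (rh ρ)
    rw [e]; rfl
  inv_mem' := by
    rintro p ⟨hp, hp', hp2⟩
    refine ⟨hp.inv, hp'.inv, fun x => ?_⟩
    have e : rh ρ (⟨(p⁻¹).1, hp'.inv⟩ : Gt) = (rh ρ ⟨p.1, hp'⟩)⁻¹ := by
      rw [← map_inv]; rfl
    rw [e]
    apply (rh ρ ⟨p.1, hp'⟩).injective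
    rw [hp2]
    change (rh ρ ⟨p.1, hp'⟩) ((rh ρ ⟨p.1, hp'⟩).symm _) = ((p.2 (p.2⁻¹ x) : ℝ) : UnitAddCircle)
    rw [RelIso.apply_inv_self, Homeomorph.apply_symm_apply]

include hρ in
lemma Gam_core : Core (Gam ρ) where
  sub := fun p hp => hp.2.1
  surj := fun g hg => by
    obtain ⟨F, h1, _, _, h4⟩ := all_pos ρ hρ ⟨g, hg⟩
    exact ⟨F, h1, hg, h4⟩
  ker := fun F hF => by
    obtain ⟨_, h2, h3⟩ := hF
    have e : rh ρ (⟨(1 : ℝ ≃o ℝ), h2⟩ : Gt) = 1 := map_one (rh ρ)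
    obtain ⟨m, hm⟩ := lift_unique (F := F) (G := fun x => x) F.continuous continuous_id
      (fun x => by
        have := h3 x
        change rh ρ (⟨(1 : ℝ ≃o ℝ), h2⟩ : Gt) (x : UnitAddCircle) = _ at this
        rw [e] at this
        exact this.symm)
    exact ⟨m, by ext x; exact hm x⟩
  T1 := by
    refine ⟨fun x => by simp only [T_apply], Per_one 1, fun x => ?_⟩
    have e : rh ρ (⟨(1 : ℝ ≃o ℝ), Per_one 1⟩ : Gt) = 1 := map_one (rh ρ)
    change rh ρ (⟨(1 : ℝ ≃o ℝ), Per_one 1⟩ : Gt) (x : UnitAddCircle) = ((x + 1 : ℝ) : UnitAddCircle)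
    rw [e]
    change (x : UnitAddCircle) = _
    rw [coe_eq_iff]; exact ⟨-1, by push_cast; ring⟩
  T1' := by
    refine ⟨fun _ => rfl, Per_T A6.one_mem 1, fun x => ?_⟩
    have e : rh ρ (⟨T 1, Per_T A6.one_mem 1⟩ : Gt) = 1 := by
      change ρ (piT ⟨T 1, _⟩) = 1
      rw [piT_T1, map_one]
    change rh ρ (⟨T 1, Per_T A6.one_mem 1⟩ : Gt) (x : UnitAddCircle) = _
    rw [e]; rfl
  deg := fun p hp => hp.1

include hρ in
lemma Gam_CC : CC (Gam ρ) := by
  rintro p ⟨h1, h2, h3⟩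
  obtain ⟨F, _, F2, F3, F4⟩ := all_pos ρ hρ ⟨p.1, h2⟩
  obtain ⟨m, hm⟩ := lift_unique (F := p.2) (G := F) p.2.continuous F.continuous
    (fun x => by rw [← h3, ← F4])
  have e : (⇑p.2 : ℝ → ℝ) = fun x => F x + m := funext hm
  rw [e]
  refine ⟨F2.add contDiff_const, fun x => ?_⟩
  rw [deriv_add_const]; exact F3 x

/-- Every action of `T(2,3)` on the circle by `C¹` diffeomorphisms is trivial. -/
theorem main_theorem (ρ : ThompsonStein.T23 →* (UnitAddCircle ≃ₜ UnitAddCircle))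
    (hρ : ∀ g, IsC1Diffeo (ρ g)) : ∀ g, ρ g = 1 := by
  intro t
  obtain ⟨g, rfl⟩ := piT_surj t
  obtain ⟨F, h1, _, _, h4⟩ := all_pos ρ hρ g
  obtain ⟨m, hm⟩ := core_trivial (Gam_core ρ hρ) (Gam_CC ρ hρ) (g.1, F) ⟨h1, g.2, h4⟩
  apply homeo_ext
  intro x
  have h5 : ρ (piT g) (x : UnitAddCircle) = ((F x : ℝ) : UnitAddCircle) := h4 x
  have h6 : F = T m := hm
  rw [h5, h6, T_apply, coe_add_int]; rfl

end
end Pool.Agent.Y329.T23
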