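import Mathlib

/-!
# Analytic and combinatorial tools
-/

open Set Filter Topology

namespace Pool.Agent.Y329.T23

lemma per_mod {ψ : ℕ → ℝ} {N : ℕ} (h : ∀ k, ψ (k + N) = ψ k) (k : ℕ) : ψ (k % N) = ψ k := by
  have key : ∀ q r, ψ (r + N * q) = ψ r := by
    intro q
    induction q with
    | zero => intro r; simp
    | succ q ih => intro r; rw [Nat.mul_succ, ← add_assoc, h, ih]
  conv_rhs => rw [← Nat.mod_add_div k N]
  rw [key]

/-- Doubling permutes the residues modulo an odd number. -/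
lemma perm_sum {ψ : ℕ → ℝ} {N : ℕ} (hN : Nat.Coprime N 2) (hN0 : 0 < N)
    (h : ∀ k, ψ (k + N) = ψ k) (c : ℕ) :
    ∑ k ∈ Finset.range N, ψ (2 * k + c) = ∑ k ∈ Finset.range N, ψ k := by
  have hmaps : Set.MapsTo (fun k => (2 * k + c) % N) (Finset.range N : Set ℕ)
      (Finset.range N : Set ℕ) := by
    intro k _
    simp only [Finset.coe_range, Set.mem_Iio]
    exact Nat.mod_lt _ hN0
  have hinj : Set.InjOn (fun k => (2 * k + c) % N) (Finset.range N : Set ℕ) := by
    intro a ha b hb hab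
    simp only [Finset.coe_range, Set.mem_Iio] at ha hb
    have h1 : 2 * a + c ≡ 2 * b + c [MOD N] := hab
    have h2 : 2 * a ≡ 2 * b [MOD N] := Nat.ModEq.add_right_cancel' c h1
    have h3 : a ≡ b [MOD N] := Nat.ModEq.cancel_left_of_coprime hN h2
    have h4 : a % N = b % N := h3
    rwa [Nat.mod_eq_of_lt ha, Nat.mod_eq_of_lt hb] at h4
  refine Finset.sum_nbij (fun k => (2 * k + c) % N) (fun a ha => ?_) hinj
    (Finset.surjOn_of_injOn_of_card_le _ hmaps hinj le_rfl) (fun a _ => (per_mod h _).symm)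
  exact Finset.mem_coe.mp (hmaps (Finset.mem_coe.mpr ha))

lemma log_add_ge {a b : ℝ} (ha : 0 < a) (hb : 0 < b) :
    Real.log 2 + (Real.log a + Real.log b) / 2 ≤ Real.log (a + b) := by
  have h1 : 4 * (a * b) ≤ (a + b) ^ 2 := by nlinarith [sq_nonneg (a - b)]
  have h2 := Real.log_le_log (by positivity) h1
  rw [Real.log_mul (by norm_num) (by positivity), Real.log_mul ha.ne' hb.ne', Real.log_pow,
    show (4 : ℝ) = 2 ^ 2 by norm_num, Real.log_pow] at h2
  push_cast at h2
  linarith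

/-- Uniform estimate for periodic continuous functions. -/
lemma key_loc {u : ℝ → ℝ} (hu : Continuous u) (hper : ∀ x, u (x + 1) = u x) {ε : ℝ} (hε : 0 < ε) :
    ∃ K : ℝ, 0 ≤ K ∧ ∀ v w, |u v - u w| ≤ ε + K * |v - w| := by
  have hP : Function.Periodic u 1 := hper
  obtain ⟨C, hC⟩ := (isBounded_iff_forall_norm_le.mp (hP.isBounded_of_continuous one_ne_zero hu))
  have hC' : ∀ v, |u v| ≤ C := fun v => hC _ ⟨v, rfl⟩
  have hC0 : 0 ≤ C := (abs_nonneg _).trans (hC' 0)
  have huc : UniformContinuousOn u (Icc (-1) 2) :=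
    isCompact_Icc.uniformContinuousOn_of_continuous hu.continuousOn
  obtain ⟨δ, hδ, hδ'⟩ := Metric.uniformContinuousOn_iff.mp huc ε hε
  set δ' := min δ 1 with hδ'0
  have hδ'1 : 0 < δ' := lt_min hδ one_pos
  refine ⟨2 * C / δ', by positivity, fun v w => ?_⟩
  rcases lt_or_ge |v - w| δ' with h | h
  · have f1 := Int.floor_le v
    have f2 := Int.lt_floor_add_one v
    have g1 : u (v - ⌊v⌋) = u v := by
      have := hP.sub_int_mul_eq (x := v) ⌊v⌋
      simpa using this
    have g2 : u (w - ⌊v⌋) = u w := by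
      have := hP.sub_int_mul_eq (x := w) ⌊v⌋
      simpa using this
    have h1 : |v - w| < 1 := h.trans_le (min_le_right _ _)
    have h2 : |v - w| < δ := h.trans_le (min_le_left _ _)
    rw [abs_lt] at h1
    have := hδ' (v - ⌊v⌋) ⟨by linarith, by linarith⟩ (w - ⌊v⌋) ⟨by linarith, by linarith⟩ (by
      rw [Real.dist_eq]
      have : v - ⌊v⌋ - (w - ⌊v⌋) = v - w := by ring
      rw [this]; exact h2)
    rw [Real.dist_eq, g1, g2] at this
    have h3 : 0 ≤ 2 * C / δ' * |v - w| := by positivity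
    linarith
  · have h1 : |u v - u w| ≤ 2 * C := by
      have a1 := abs_le.mp (hC' v)
      have a2 := abs_le.mp (hC' w)
      rw [abs_le]; constructor <;> linarith
    have h2 : 2 * C ≤ 2 * C / δ' * |v - w| := by
      rw [div_mul_eq_mul_div, le_div_iff₀ hδ'1]
      exact mul_le_mul_of_nonneg_left h (by linarith)
    linarith

lemma deriv_one_of_freq {F : ℝ → ℝ} {v : ℝ} (hF : DifferentiableAt ℝ F v) (hv : F v = v)
    (h : ∃ᶠ w in 𝓝[≠] v, F w = w) : deriv F v = 1 := by
  have h1 := hF.hasDerivAt.tendsto_slope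
  refine tendsto_nhds_unique_of_frequently_eq h1 tendsto_const_nhds (b := 1) ?_
  have h2 : ∀ᶠ w in 𝓝[≠] v, w ≠ v := eventually_mem_nhdsWithin
  refine (h.and_eventually h2).mono ?_
  rintro w ⟨hw, hne⟩
  rw [slope_def_field, hw, hv]
  exact div_self (sub_ne_zero.mpr hne)

lemma freq_of_right {F : ℝ → ℝ} {v : ℝ} (h : ∀ δ > 0, ∃ w, v < w ∧ w < v + δ ∧ F w = w) :
    ∃ᶠ w in 𝓝[≠] v, F w = w := by
  intro hcon
  rw [eventually_nhdsWithin_iff] at hcon
  obtain ⟨δ, hδ, hball⟩ := Metric.eventually_nhds_iff.mp hcon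
  obtain ⟨w, w1, w2, w3⟩ := h δ hδ
  exact hball (show dist w v < δ by rw [Real.dist_eq, abs_lt]; constructor <;> linarith)
    (by simp only [mem_compl_iff, mem_singleton_iff]; exact w1.ne') w3

lemma freq_of_left {F : ℝ → ℝ} {v : ℝ} (h : ∀ δ > 0, ∃ w, w < v ∧ v - δ < w ∧ F w = w) :
    ∃ᶠ w in 𝓝[≠] v, F w = w := by
  intro hcon
  rw [eventually_nhdsWithin_iff] at hcon
  obtain ⟨δ, hδ, hball⟩ := Metric.eventually_nhds_iff.mp hcon
  obtain ⟨w, w1, w2, w3⟩ := h δ hδ
  exact hball (show dist w v < δ by rw [Real.dist_eq, abs_lt]; constructor <;> linarith)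
    (by simp only [mem_compl_iff, mem_singleton_iff]; exact w1.ne) w3

end Pool.Agent.Y329.T23
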