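import Pool.Agent.Y329.T23.Semi
import Pool.Agent.Y329.T23.Tools

/-!
# The differentiable contradiction
-/

open Set Filter Topology

namespace Pool.Agent.Y329.T23

section
variable {Γ : Subgroup G2} {p : ℝ → ℝ}

/-- normalised lifts -/
def Gp (Γ : Subgroup G2) (p : ℝ → ℝ) : Subgroup G2 where
  carrier := {q | q ∈ Γ ∧ (∀ x, q.1 x ∈ A6 ↔ x ∈ A6) ∧ ∀ x ∈ A6, q.2 (p x) = p (q.1 x)}
  mul_mem' := by
    rintro q r ⟨hq, hq1, hq2⟩ ⟨hr, hr1, hr2⟩
    refine ⟨mul_mem hq hr, fun x => ?_, fun x hx => ?_⟩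
    · rw [Prod.fst_mul, RelIso.mul_apply, hq1, hr1]
    · rw [Prod.fst_mul, Prod.snd_mul, RelIso.mul_apply, RelIso.mul_apply, hr2 x hx,
        hq2 _ ((hr1 x).mpr hx)]
  one_mem' := ⟨one_mem _, fun _ => Iff.rfl, fun _ _ => rfl⟩
  inv_mem' := by
    rintro q ⟨hq, hq1, hq2⟩
    refine ⟨inv_mem hq, fun x => ?_, fun x hx => ?_⟩
    · rw [Prod.fst_inv, ← hq1, RelIso.apply_inv_self]
    · rw [Prod.fst_inv, Prod.snd_inv]
      apply inv_eq_of
      rw [hq2 _ (by rw [← hq1, RelIso.apply_inv_self]; exact hx), RelIso.apply_inv_self]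

/-- log derivative at `p x` -/
noncomputable def dd (p : ℝ → ℝ) (q : G2) (x : ℝ) : ℝ := Real.log (deriv q.2 (p x))

/-- right germ `y ↦ l y` -/
def germ (q : G2) (x l : ℝ) : Prop := ∀ᶠ y in 𝓝[≥] x, q.1 y = l * y

/-- C¹ condition -/
def CC (Γ : Subgroup G2) : Prop := ∀ q ∈ Γ, ContDiff ℝ 1 q.2 ∧ ∀ x, 0 < deriv q.2 x

lemma CC.diff (hc : CC Γ) {q : G2} (hq : q ∈ Γ) : Differentiable ℝ q.2 :=
  (hc q hq).1.differentiable (by norm_num)

lemma Gp_lift (_ : Core Γ) (hs : Semi Γ p) {g : ℝ ≃o ℝ} (hg : Per 1 1 g) :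
    ∃ q ∈ Gp Γ p, q.1 = g := by
  obtain ⟨F, hF, h⟩ := hs.lift g hg
  exact ⟨(g, F), ⟨hF, hg.1.1, h⟩, rfl⟩

lemma dd_mul (hc : CC Γ) {q r : G2} (hq : q ∈ Gp Γ p) (hr : r ∈ Gp Γ p) {x : ℝ} (hx : x ∈ A6) :
    dd p (q * r) x = dd p q (r.1 x) + dd p r x := by
  unfold dd
  have h1 : (⇑(q * r).2 : ℝ → ℝ) = q.2 ∘ r.2 := rfl
  rw [h1, deriv_comp _ (hc.diff hq.1 _) (hc.diff hr.1 _), hr.2.2 x hx, Real.log_mul]
  · exact ((hc q hq.1).2 _).ne'
  · exact ((hc r hr.1).2 _).ne'

lemma dd_id (hc : CC Γ) (hs : Semi Γ p) {q : G2} (hq : q ∈ Gp Γ p) {x : ℝ} (hx : x ∈ A6)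
    (h : ∀ᶠ y in 𝓝[≥] x, q.1 y = y) : dd p q x = 0 := by
  have hxx : q.1 x = x := h.self_of_nhdsWithin Set.self_mem_Ici
  have hpx : q.2 (p x) = p x := by rw [hq.2.2 x hx, hxx]
  rw [eventually_nhdsWithin_iff] at h
  obtain ⟨ε, hε, hball⟩ := Metric.eventually_nhds_iff.mp h
  have h1 : deriv q.2 (p x) = 1 := by
    refine deriv_one_of_freq (hc.diff hq.1 _) hpx (freq_of_right fun δ hδ => ?_)
    obtain ⟨y, hy, hxy, hpy⟩ := hs.rc x hx δ hδ
    obtain ⟨z, hz, z1, z2⟩ := A6.exists_between (show x < min y (x + ε) from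
      lt_min hxy (by linarith))
    have z3 := lt_min_iff.mp z2
    refine ⟨p z, hs.mono x hx z hz z1, (hs.mono z hz y hy z3.1).trans hpy, ?_⟩
    rw [hq.2.2 z hz, hball (show dist z x < ε by
      rw [Real.dist_eq, abs_lt]; constructor <;> linarith) z1.le]
  unfold dd
  rw [h1, Real.log_one]

lemma dd_congr (hc : CC Γ) (hs : Semi Γ p) {q r : G2} (hq : q ∈ Gp Γ p) (hr : r ∈ Gp Γ p) {x : ℝ}
    (hx : x ∈ A6) (h : ∀ᶠ y in 𝓝[≥] x, q.1 y = r.1 y) : dd p q x = dd p r x := by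
  have hsm : r⁻¹ * q ∈ Gp Γ p := mul_mem (inv_mem hr) hq
  have h1 : ∀ᶠ y in 𝓝[≥] x, (r⁻¹ * q).1 y = y := by
    filter_upwards [h] with y hy
    rw [Prod.fst_mul, Prod.fst_inv, RelIso.mul_apply, hy, RelIso.inv_apply_self]
  have h2 := dd_id hc hs hsm hx h1
  have h3 : (r⁻¹ * q).1 x = x := h1.self_of_nhdsWithin Set.self_mem_Ici
  have h4 := dd_mul hc hr hsm hx
  rw [h3, h2, add_zero, mul_inv_cancel_left] at h4
  exact h4

lemma ex_germ (hΓ : Core Γ) (hs : Semi Γ p) {l x : ℝ} (hl : IsLam l) (hx : x ∈ A6) :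
    ∃ q, q ∈ Gp Γ p ∧ germ q x l := by
  obtain ⟨e, he, e1, e2⟩ := A6.exists_between (show 0 < min 1 l⁻¹ from
    lt_min one_pos (inv_pos.mpr hl.pos))
  have e3 := lt_min_iff.mp e2
  have h1 : l * e < 1 := by
    have := mul_lt_mul_of_pos_left e3.2 hl.pos
    rwa [mul_inv_cancel₀ hl.pos.ne'] at this
  obtain ⟨g, hg, hg'⟩ := perExtEx (Sc_mem hl) hx (A6.add_mem hx he) (by linarith) (by linarith)
    (by simp only [Sc_apply]; nlinarith)
  obtain ⟨q, hq, rfl⟩ := Gp_lift hΓ hs hg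
  refine ⟨q, hq, ?_⟩
  unfold germ
  filter_upwards [nhdsGE_ge_of_le le_rfl, nhdsGE_le_of_lt (show x < x + e by linarith)]
    with y hy1 hy2
  exact hg' y hy1 hy2

open Classical in
/-- the germ cocycle -/
noncomputable def ff (Γ : Subgroup G2) (p : ℝ → ℝ) (l x : ℝ) : ℝ :=
  if h : ∃ q, q ∈ Gp Γ p ∧ germ q x l then dd p h.choose x else 0

lemma ff_eq (hc : CC Γ) (hs : Semi Γ p) {q : G2} (hq : q ∈ Gp Γ p) {x l : ℝ} (hx : x ∈ A6)
    (h : germ q x l) : ff Γ p l x = dd p q x := by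
  have hex : ∃ q, q ∈ Gp Γ p ∧ germ q x l := ⟨q, hq, h⟩
  unfold ff
  rw [dif_pos hex]
  refine dd_congr hc hs hex.choose_spec.1 hq hx ?_
  have h2 := hex.choose_spec.2
  unfold germ at h h2
  filter_upwards [h, h2] with y h3 h4
  exact h4.trans h3.symm

lemma ff_mul (hΓ : Core Γ) (hc : CC Γ) (hs : Semi Γ p) {l m x : ℝ} (hl : IsLam l) (hm : IsLam m)
    (hx : x ∈ A6) : ff Γ p (m * l) x = ff Γ p m (l * x) + ff Γ p l x := by
  obtain ⟨r, hr, hr'⟩ := ex_germ hΓ hs hl hx
  obtain ⟨q, hq, hq'⟩ := ex_germ hΓ hs hm ((A6.mul_lam_iff hl).mpr hx)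
  have hrx : r.1 x = l * x := by
    unfold germ at hr'
    exact hr'.self_of_nhdsWithin Set.self_mem_Ici
  have h1 : germ (q * r) x (m * l) := by
    unfold germ at *
    rw [← hrx] at hq'
    filter_upwards [(tendsto_ge r.1 x).eventually hq', hr'] with y h1 h2
    rw [Prod.fst_mul, RelIso.mul_apply, h1, h2]; ring
  rw [ff_eq hc hs (mul_mem hq hr) hx h1, dd_mul hc hq hr hx, hrx,
    ff_eq hc hs hq ((A6.mul_lam_iff hl).mpr hx) hq', ff_eq hc hs hr hx hr']

lemma p_int (hs : Semi Γ p) (m : ℤ) : ∀ x ∈ A6, p (x + m) = p x + m := by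
  induction m with
  | zero => intro x _; simp
  | succ m ih =>
    intro x hx
    have := hs.per _ (A6.add_mem hx (A6.int m))
    push_cast at this ⊢
    rw [← add_assoc, this]
    have g := ih x hx
    push_cast at g
    rw [g]; ring
  | pred m ih =>
    intro x hx
    have g1 := hs.per _ (A6.add_mem hx (A6.int (-(m : ℤ) - 1)))
    have e1 : x + ((-(m : ℤ) - 1 : ℤ) : ℝ) + 1 = x + (-(m : ℤ) : ℤ) := by push_cast; ring
    rw [e1, ih x hx] at g1
    push_cast at g1 ⊢
    linarith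

lemma TT_mem (hΓ : Core Γ) (hs : Semi Γ p) (m : ℤ) : ((T m, T m) : G2) ∈ Gp Γ p := by
  refine ⟨?_, fun x => A6.add_iff (A6.int m), fun x hx => (p_int hs m x hx).symm⟩
  have := mul_mem (kerT hΓ m) (kerT' hΓ m)
  rwa [Prod.mk_mul_mk, one_mul, mul_one] at this

lemma deriv_per {F : ℝ ≃o ℝ} (h : Deg F) (x : ℝ) : deriv F (x + 1) = deriv F x := by
  have h1 : (fun y => F (y + 1)) = fun y => F y + 1 := funext h
  have h2 := deriv_comp_add_const F 1 x
  rw [← h2, h1, deriv_add_const]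

lemma ff_per (hΓ : Core Γ) (hc : CC Γ) (hs : Semi Γ p) {n : ℕ} (hn : IsLam n) {x : ℝ}
    (hx : x ∈ A6) : ff Γ p n (x + 1) = ff Γ p n x := by
  obtain ⟨q, hq, hq'⟩ := ex_germ hΓ hs hn hx
  have hx1 : x + 1 ∈ A6 := A6.add_mem hx A6.one_mem
  have hr : ((T ((n : ℤ) - 1 : ℤ), T ((n : ℤ) - 1 : ℤ)) : G2) * q ∈ Gp Γ p :=
    mul_mem (TT_mem hΓ hs _) hq
  have hd := (hΓ.sub q hq.1).2
  have h1 : germ (((T ((n : ℤ) - 1 : ℤ), T ((n : ℤ) - 1 : ℤ)) : G2) * q) (x + 1) n := by
    unfold germ at *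
    have ht : Tendsto (fun y : ℝ => y - 1) (𝓝[≥] (x + 1)) (𝓝[≥] x) := by
      have := tendsto_ge (T (-1)) (x + 1)
      have e1 : T (-1) (x + 1) = x := by rw [T_apply]; ring
      rw [e1] at this
      refine this.congr fun y => ?_
      rw [T_apply]; ring
    filter_upwards [ht.eventually hq'] with y hy
    have h2 := hd (y - 1)
    rw [sub_add_cancel, hy] at h2
    rw [Prod.fst_mul, RelIso.mul_apply, h2, T_apply]; push_cast; ring
  rw [ff_eq hc hs hr hx1 h1, ff_eq hc hs hq hx hq']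
  unfold dd
  congr 1
  have h3 : (⇑(((T ((n : ℤ) - 1 : ℤ), T ((n : ℤ) - 1 : ℤ)) : G2) * q).2 : ℝ → ℝ) =
      fun y => q.2 y + ((n : ℤ) - 1 : ℤ) := rfl
  rw [h3, deriv_add_const, hs.per x hx, deriv_per (hΓ.deg q hq.1)]

lemma ff_nat (hΓ : Core Γ) (hc : CC Γ) (hs : Semi Γ p) {n : ℕ} (hn : IsLam n) {x : ℝ}
    (hx : x ∈ A6) (k : ℕ) : ff Γ p n (x + k) = ff Γ p n x := by
  induction k with
  | zero => simp
  | succ k ih =>
    rw [← ih, ← ff_per hΓ hc hs hn (A6.add_mem hx (A6.nat k))]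
    push_cast; rw [add_assoc]

lemma lamN (b : ℕ) : IsLam ((3 ^ b : ℕ) : ℝ) := by
  push_cast; exact IsLam.three.pow b

lemma divN_mem (k b : ℕ) : (k : ℝ) / ((3 ^ b : ℕ) : ℝ) ∈ A6 := by
  rw [div_eq_mul_inv]; exact A6.mul_mem (A6.nat k) (lamN b).inv.mem_A6

lemma sum_ff (hΓ : Core Γ) (hc : CC Γ) (hs : Semi Γ p) (b : ℕ) :
    ∑ k ∈ Finset.range (3 ^ b), ff Γ p 2 ((k : ℝ) / ((3 ^ b : ℕ) : ℝ)) =
      ((3 ^ b : ℕ) : ℝ) * ff Γ p 2 0 := by
  set N : ℕ := 3 ^ b with hN
  have hN0 : 0 < N := by positivity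
  have hNR : (0 : ℝ) < N := by exact_mod_cast hN0
  have hl2 : IsLam ((2 : ℕ) : ℝ) := by
    have := IsLam.two; exact_mod_cast this
  set ψ : ℕ → ℝ := fun k => ff Γ p N ((k : ℝ) / N) with hψ
  have hψper : ∀ k, ψ (k + N) = ψ k := by
    intro k
    simp only [hψ]
    have e1 : (((k + N : ℕ)) : ℝ) / N = (k : ℝ) / N + 1 := by push_cast; field_simp
    rw [e1]
    exact ff_per hΓ hc hs (lamN b) (divN_mem k b)
  have hcop : Nat.Coprime N 2 := by
    rw [hN]; exact Nat.Coprime.pow_left b (by norm_num)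
  have h1 := perm_sum hcop hN0 hψper 0
  have h2 : ∀ k : ℕ, ff Γ p 2 ((k : ℝ) / N) = ff Γ p 2 0 + ψ k - ψ (2 * k + 0) := by
    intro k
    have hk : (k : ℝ) / N ∈ A6 := divN_mem k b
    have a1 := ff_mul hΓ hc hs (l := N) (m := 2) (lamN b) IsLam.two hk
    have a2 := ff_mul hΓ hc hs (l := 2) (m := N) IsLam.two (lamN b) hk
    have e1 : (N : ℝ) * ((k : ℝ) / N) = 0 + k := by field_simp; ring
    have e2 : (2 : ℝ) * ((k : ℝ) / N) = ((2 * k + 0 : ℕ) : ℝ) / N := by push_cast; ring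
    have a3 := ff_nat hΓ hc hs hl2 A6.zero_mem k
    push_cast at a3
    rw [e1, a3] at a1
    rw [mul_comm (N : ℝ) 2, e2] at a2
    simp only [hψ]
    linarith
  rw [Finset.sum_congr rfl (fun k _ => h2 k), Finset.sum_sub_distrib, Finset.sum_add_distrib, h1]
  simp

lemma ex_E (hΓ : Core Γ) (hs : Semi Γ p) (s : ℤ) : ∃ q ∈ Gp Γ p, ∀ y : ℝ, (s : ℝ) / 8 ≤ y →
    y ≤ ((s : ℝ) + 2) / 8 → q.1 y = 2 * y := by
  have h8 : (8 : ℝ)⁻¹ ∈ A6 := by
    have := A6.mul_mem A6.half (A6.mul_mem A6.half A6.half)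
    norm_num at this ⊢
    exact this
  have h1 : (s : ℝ) / 8 ∈ A6 := by rw [div_eq_mul_inv]; exact A6.mul_mem (A6.int s) h8
  have h2 : ((s : ℝ) + 2) / 8 ∈ A6 := by
    rw [div_eq_mul_inv]
    refine A6.mul_mem ?_ h8
    have := A6.int (s + 2)
    push_cast at this; exact this
  obtain ⟨g, hg, hg'⟩ := perExtEx (Sc_mem IsLam.two) h1 h2 (by linarith) (by linarith)
    (by simp only [Sc_apply]; linarith)
  obtain ⟨q, hq, rfl⟩ := Gp_lift hΓ hs hg
  exact ⟨q, hq, hg'⟩

lemma keyK (hΓ : Core Γ) (hc : CC Γ) {a : ℤ → G2} (ha : ∀ s, a s ∈ Γ) (S : Finset ℤ)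
    {ε : ℝ} (hε : 0 < ε) : ∃ K : ℝ, 0 ≤ K ∧ ∀ s ∈ S, ∀ v w : ℝ,
      |Real.log (deriv (a s).2 v) - Real.log (deriv (a s).2 w)| ≤ ε + K * |v - w| := by
  have h1 : ∀ s, ∃ K : ℝ, 0 ≤ K ∧ ∀ v w : ℝ,
      |Real.log (deriv (a s).2 v) - Real.log (deriv (a s).2 w)| ≤ ε + K * |v - w| := by
    intro s
    refine key_loc (u := fun v => Real.log (deriv (a s).2 v)) ?_ ?_ hε
    · exact Continuous.log ((hc _ (ha s)).1.continuous_deriv (by norm_num))
        (fun x => ((hc _ (ha s)).2 x).ne')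
    · intro x
      rw [deriv_per (hΓ.deg _ (ha s))]
  choose K hK0 hK using h1
  refine ⟨∑ s ∈ S, K s, Finset.sum_nonneg fun s _ => hK0 s, fun s hs v w => ?_⟩
  have h2 : K s ≤ ∑ s ∈ S, K s := Finset.single_le_sum (fun s _ => hK0 s) hs
  have h3 := hK s v w
  have h4 : K s * |v - w| ≤ (∑ s ∈ S, K s) * |v - w| :=
    mul_le_mul_of_nonneg_right h2 (abs_nonneg _)
  linarith

/-- Lower bound for the exponent. -/
lemma exp_ge (hΓ : Core Γ) (hc : CC Γ) (hs : Semi Γ p) : Real.log 2 ≤ ff Γ p 2 0 := by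
  choose a haG ha using ex_E hΓ hs
  refine le_of_forall_pos_le_add fun ε hε => ?_
  obtain ⟨K, hK0, hK⟩ := keyK hΓ hc (fun s => (haG s).1) (Finset.Icc (-1) 8) (half_pos hε)
  -- main estimate for each `b ≥ 2`
  have main : ∀ b : ℕ, 2 ≤ b → ((3 ^ b : ℕ) : ℝ) * (Real.log 2 - ε / 2) - K ≤
      ((3 ^ b : ℕ) : ℝ) * ff Γ p 2 0 := by
    intro b hb
    rw [← sum_ff hΓ hc hs b]
    set N : ℕ := 3 ^ b with hN
    have hN0 : 0 < N := by positivity
    have hNR : (0 : ℝ) < N := by exact_mod_cast hN0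
    have hN8 : 8 ≤ N := by
      have : 3 ^ 2 ≤ 3 ^ b := Nat.pow_le_pow_right (by norm_num) hb
      omega
    have hN8R : (8 : ℝ) ≤ N := by exact_mod_cast hN8
    set P : ℕ → ℝ := fun k => p ((k : ℝ) / N) with hPdef
    set D : ℕ → ℝ := fun k => P (k + 1) - P k with hDdef
    have hmem : ∀ k : ℕ, (k : ℝ) / N ∈ A6 := fun k => divN_mem k b
    have hPper : ∀ k, P (k + N) = P k + 1 := by
      intro k
      simp only [hPdef]
      have e1 : (((k + N : ℕ)) : ℝ) / N = (k : ℝ) / N + 1 := by push_cast; field_simp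
      rw [e1]; exact hs.per _ (hmem k)
    have hDpos : ∀ k, 0 < D k := by
      intro k
      have : P k < P (k + 1) := by
        refine hs.mono _ (hmem k) _ (hmem (k + 1)) ?_
        push_cast; gcongr; linarith
      simp only [hDdef]; linarith
    have hDper : ∀ k, D (k + N) = D k := by
      intro k
      simp only [hDdef]
      rw [show k + N + 1 = k + 1 + N by ring, hPper, hPper]; ring
    have hterm : ∀ k ∈ Finset.range N, Real.log (D (2 * k) + D (2 * k + 1)) - Real.log (D k) -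
        ε / 2 - K * D k ≤ ff Γ p 2 ((k : ℝ) / N) := by
      intro k hk
      have hk' : k < N := Finset.mem_range.mp hk
      have hkR : (k : ℝ) + 1 ≤ N := by exact_mod_cast hk'
      have hk0 : (0 : ℝ) ≤ k := Nat.cast_nonneg k
      set x : ℝ := (k : ℝ) / N with hx
      set y : ℝ := ((k + 1 : ℕ) : ℝ) / N with hy
      have hxy : x < y := by rw [hx, hy]; push_cast; gcongr; linarith
      have hx0 : 0 ≤ x := by rw [hx]; positivity
      have hx1 : x < 1 := by rw [hx, div_lt_one hNR]; linarith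
      have hyx : y ≤ x + 1 / 8 := by
        have : y = x + 1 / N := by rw [hx, hy]; push_cast; ring
        rw [this]
        have : (1 : ℝ) / N ≤ 1 / 8 := one_div_le_one_div_of_le (by norm_num) hN8R
        linarith
      set s : ℤ := ⌊8 * x⌋ with hs'
      have s1 := Int.floor_le (8 * x)
      have s2 := Int.lt_floor_add_one (8 * x)
      rw [← hs'] at s1 s2
      have s3 : (0 : ℤ) ≤ s := Int.floor_nonneg.mpr (by linarith)
      have s4 : s ≤ 8 := by
        have : (s : ℝ) < 8 := by linarith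
        have : s < 8 := by exact_mod_cast this
        omega
      have ax : (a s).1 x = 2 * x := ha s x (by linarith) (by linarith)
      have ay : (a s).1 y = 2 * y := ha s y (by linarith) (by linarith)
      have hgerm : germ (a s) x 2 := by
        unfold germ
        filter_upwards [nhdsGE_ge_of_le le_rfl, nhdsGE_le_of_lt hxy] with z hz1 hz2
        exact ha s z (by linarith) (by linarith)
      rw [ff_eq hc hs (haG s) (hmem k) hgerm]
      have hxA : x ∈ A6 := hmem k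
      have hyA : y ∈ A6 := hmem (k + 1)
      have hpxy : p x < p y := hs.mono x hxA y hyA hxy
      have Fx : (a s).2 (p x) = p (2 * x) := by rw [(haG s).2.2 x hxA, ax]
      have Fy : (a s).2 (p y) = p (2 * y) := by rw [(haG s).2.2 y hyA, ay]
      obtain ⟨ξ, hξ, hξ'⟩ := exists_deriv_eq_slope (f := (a s).2) hpxy
        (a s).2.continuous.continuousOn (hc.diff (haG s).1).differentiableOn
      rw [Fx, Fy] at hξ'
      have e2x : 2 * x = ((2 * k : ℕ) : ℝ) / N := by rw [hx]; push_cast; ring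
      have e2y : 2 * y = ((2 * k + 1 + 1 : ℕ) : ℝ) / N := by rw [hy]; push_cast; ring
      have hnum : p (2 * y) - p (2 * x) = D (2 * k) + D (2 * k + 1) := by
        rw [e2x, e2y]; simp only [hDdef, hPdef]; ring
      have hden : p y - p x = D k := rfl
      rw [hnum, hden] at hξ'
      have hlog : Real.log (deriv (a s).2 ξ) =
          Real.log (D (2 * k) + D (2 * k + 1)) - Real.log (D k) := by
        rw [hξ', Real.log_div (by have := hDpos (2 * k); have := hDpos (2 * k + 1); positivity)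
          (hDpos k).ne']
      have hKK := hK s (Finset.mem_Icc.mpr ⟨by omega, s4⟩) (p x) ξ
      have habs : |p x - ξ| ≤ D k := by
        rw [abs_sub_comm, abs_of_pos (by linarith [hξ.1])]
        have := hξ.2
        rw [← hden]; linarith
      have h5 : K * |p x - ξ| ≤ K * D k := mul_le_mul_of_nonneg_left habs hK0
      rw [hlog] at hKK
      have h6 := (abs_le.mp hKK).1
      unfold dd
      linarith
    have hsum := Finset.sum_le_sum hterm
    refine le_trans ?_ hsum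
    rw [Finset.sum_sub_distrib, Finset.sum_sub_distrib, Finset.sum_sub_distrib]
    have hDsum : ∑ k ∈ Finset.range N, D k = 1 := by
      simp only [hDdef]
      rw [Finset.sum_range_sub]
      have := hPper 0
      rw [zero_add] at this
      rw [this]; ring
    have hcop : Nat.Coprime N 2 := by
      rw [hN]; exact Nat.Coprime.pow_left b (by norm_num)
    have hlper : ∀ k, Real.log (D (k + N)) = Real.log (D k) := fun k => by rw [hDper]
    have p0 := perm_sum (ψ := fun k => Real.log (D k)) hcop hN0 hlper 0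
    have p1 := perm_sum (ψ := fun k => Real.log (D k)) hcop hN0 hlper 1
    have hge : ∑ k ∈ Finset.range N, (Real.log 2 + (Real.log (D (2 * k + 0)) +
        Real.log (D (2 * k + 1))) / 2) ≤
        ∑ k ∈ Finset.range N, Real.log (D (2 * k) + D (2 * k + 1)) :=
      Finset.sum_le_sum fun k _ => log_add_ge (hDpos _) (hDpos _)
    rw [Finset.sum_add_distrib, ← Finset.sum_div, Finset.sum_add_distrib, p0, p1] at hge
    rw [← Finset.mul_sum, hDsum]
    simp only [Finset.sum_const, Finset.card_range, nsmul_eq_mul] at hge ⊢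
    linarith
  by_contra hcon
  push Not at hcon
  set c := Real.log 2 - ε / 2 - ff Γ p 2 0 with hcdef
  have hcpos : 0 < c := by rw [hcdef]; linarith
  obtain ⟨n, hn⟩ := pow_unbounded_of_one_lt (K / c) (show (1 : ℝ) < 3 by norm_num)
  have h1 := main (n + 2) (by omega)
  rw [div_lt_iff₀ hcpos] at hn
  have h2 : ((3 ^ (n + 2) : ℕ) : ℝ) = 3 ^ n * 9 := by push_cast; rw [pow_add]; norm_num
  rw [h2] at h1
  have h3 : (3 : ℝ) ^ n * 9 * c ≤ K := by
    rw [hcdef]; linarith
  have h4 : 0 < (3 : ℝ) ^ n * c := by positivity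
  linarith

/-- left limits -/
noncomputable def pm (p : ℝ → ℝ) (x : ℝ) : ℝ := sSup {w | ∃ y ∈ A6, y < x ∧ w = p y}

lemma pm_le (hs : Semi Γ p) {x : ℝ} (hx : x ∈ A6) : pm p x ≤ p x := by
  refine csSup_le ⟨p (x - 1), x - 1, A6.sub_mem hx A6.one_mem, by linarith, rfl⟩ ?_
  rintro w ⟨y, hy, hyx, rfl⟩
  exact (hs.mono y hy x hx hyx).le

lemma pm_bdd (hs : Semi Γ p) {x : ℝ} (hx : x ∈ A6) :
    BddAbove {w | ∃ y ∈ A6, y < x ∧ w = p y} := by
  refine ⟨p x, ?_⟩
  rintro w ⟨y, hy, hyx, rfl⟩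
  exact (hs.mono y hy x hx hyx).le

lemma le_pm (hs : Semi Γ p) {x y : ℝ} (hx : x ∈ A6) (hy : y ∈ A6) (h : y < x) : p y ≤ pm p x :=
  le_csSup (pm_bdd hs hx) ⟨y, hy, h, rfl⟩

lemma pm_equiv (hs : Semi Γ p) {q : G2} (hq : q ∈ Gp Γ p) {x : ℝ} (hx : x ∈ A6) :
    q.2 (pm p x) = pm p (q.1 x) := by
  have hne : {w | ∃ y ∈ A6, y < x ∧ w = p y}.Nonempty :=
    ⟨p (x - 1), x - 1, A6.sub_mem hx A6.one_mem, by linarith, rfl⟩
  unfold pm
  rw [OrderIso.map_csSup' q.2 hne (pm_bdd hs hx)]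
  congr 1
  ext w
  constructor
  · rintro ⟨_, ⟨y, hy, hyx, rfl⟩, rfl⟩
    exact ⟨q.1 y, (hq.2.1 y).mpr hy, q.1.strictMono hyx, hq.2.2 y hy⟩
  · rintro ⟨y, hy, hyx, rfl⟩
    have hy' : q.1⁻¹ y ∈ A6 := by rw [← hq.2.1, RelIso.apply_inv_self]; exact hy
    refine ⟨p (q.1⁻¹ y), ⟨q.1⁻¹ y, hy', ?_, rfl⟩, ?_⟩
    · have := (q.1⁻¹).strictMono hyx
      rwa [RelIso.inv_apply_self] at this
    · rw [hq.2.2 _ hy', RelIso.apply_inv_self]

/-- Upper bound for the exponent. -/
lemma exp_le (hΓ : Core Γ) (hc : CC Γ) (hs : Semi Γ p) : ff Γ p 2 0 ≤ 0 := by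
  rcases (pm_le hs A6.zero_mem).eq_or_lt with h0 | h0
  · -- no gap at zero
    have h6 : (1 / 6 : ℝ) ∈ A6 := by rw [one_div]; exact A6.sixth
    obtain ⟨g, hg, hg'⟩ := perExtEx (Dm_mem lam2) (A6.neg_mem h6) h6 (by norm_num) (by norm_num)
      (by rw [Dm_mid (by norm_num) (by norm_num), Dm_neg (by norm_num)]; norm_num)
    obtain ⟨q, hq, rfl⟩ := Gp_lift hΓ hs hg
    have hgerm : germ q 0 2 := by
      unfold germ
      filter_upwards [nhdsGE_ge_of_le (le_refl (0 : ℝ)),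
        nhdsGE_le_of_lt (show (0 : ℝ) < 1 / 6 by norm_num)] with y hy1 hy2
      rw [hg' y (by linarith) hy2, Dm_mid hy1 (by linarith)]; norm_num
    have hleft : ∀ y : ℝ, -(1 / 6) ≤ y → y ≤ 0 → q.1 y = y := fun y h1 h2 => by
      rw [hg' y h1 (by linarith), Dm_neg h2]
    have hq0 : q.2 (p 0) = p 0 := by
      rw [hq.2.2 0 A6.zero_mem, hleft 0 (by norm_num) le_rfl]
    have hd : deriv q.2 (p 0) = 1 := by
      refine deriv_one_of_freq (hc.diff hq.1 _) hq0 (freq_of_left fun δ hδ => ?_)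
      obtain ⟨w, ⟨y, hy, hy0, rfl⟩, hw⟩ := exists_lt_of_lt_csSup
        (s := {w | ∃ y ∈ A6, y < (0 : ℝ) ∧ w = p y})
        ⟨p (-1), -1, A6.neg_mem A6.one_mem, by norm_num, rfl⟩
        (show p 0 - δ < pm p 0 by rw [h0]; linarith)
      obtain ⟨z, hz, z1, z2⟩ := A6.exists_between (show max y (-(1 / 6)) < (0 : ℝ) from
        max_lt hy0 (by norm_num))
      have z3 := max_lt_iff.mp z1
      refine ⟨p z, hs.mono z hz 0 A6.zero_mem z2, hw.trans (hs.mono y hy z hz z3.1), ?_⟩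
      rw [hq.2.2 z hz, hleft z z3.2.le z2.le]
    rw [ff_eq hc hs hq A6.zero_mem hgerm]
    unfold dd
    rw [hd, Real.log_one]
  · -- gaps everywhere
    set d : ℝ → ℝ := fun x => p x - pm p x with hd
    have hdpos : ∀ x ∈ A6, 0 < d x := by
      intro x hx
      obtain ⟨q, hq, hq1⟩ := Gp_lift hΓ hs (Per_T hx 1)
      have h1 := hq.2.2 0 A6.zero_mem
      have h2 := pm_equiv hs hq A6.zero_mem
      rw [hq1, T_apply, zero_add] at h1 h2
      have h3 := q.2.strictMono h0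
      rw [h1, h2] at h3
      simp only [hd]; linarith
    have hdper : ∀ x ∈ A6, d (x + 1) = d x := by
      intro x hx
      have h1 := pm_equiv hs (TT_mem hΓ hs 1) hx
      have h2 : T ((1 : ℤ) : ℝ) x = x + 1 := by rw [T_apply]; push_cast; rfl
      have h3 : T ((1 : ℤ) : ℝ) (pm p x) = pm p x + 1 := by rw [T_apply]; push_cast; rfl
      change T ((1 : ℤ) : ℝ) (pm p x) = pm p (T ((1 : ℤ) : ℝ) x) at h1
      rw [h2, h3] at h1
      simp only [hd]
      rw [← h1, hs.per x hx]; ring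
    choose a haG ha using ex_E hΓ hs
    refine le_of_forall_pos_le_add fun ε hε => ?_
    rw [zero_add]
    obtain ⟨K, hK0, hK⟩ := keyK hΓ hc (fun s => (haG s).1) (Finset.Icc (-1) 8) (half_pos hε)
    have main : ∀ b : ℕ, ((3 ^ b : ℕ) : ℝ) * ff Γ p 2 0 ≤ ((3 ^ b : ℕ) : ℝ) * (ε / 2) + K := by
      intro b
      rw [← sum_ff hΓ hc hs b]
      set N : ℕ := 3 ^ b with hN
      have hN0 : 0 < N := by positivity
      have hNR : (0 : ℝ) < N := by exact_mod_cast hN0
      have hmem : ∀ k : ℕ, (k : ℝ) / N ∈ A6 := fun k => divN_mem k b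
      set D : ℕ → ℝ := fun k => d ((k : ℝ) / N) with hDdef
      have hDpos : ∀ k, 0 < D k := fun k => hdpos _ (hmem k)
      have hDper : ∀ k, D (k + N) = D k := by
        intro k
        simp only [hDdef]
        have e1 : (((k + N : ℕ)) : ℝ) / N = (k : ℝ) / N + 1 := by push_cast; field_simp
        rw [e1]; exact hdper _ (hmem k)
      have hterm : ∀ k ∈ Finset.range N, ff Γ p 2 ((k : ℝ) / N) ≤
          Real.log (D (2 * k + 0)) - Real.log (D k) + ε / 2 + K * D k := by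
        intro k hk
        have hk' : k < N := Finset.mem_range.mp hk
        have hkR : (k : ℝ) + 1 ≤ N := by exact_mod_cast hk'
        have hk0 : (0 : ℝ) ≤ k := Nat.cast_nonneg k
        set x : ℝ := (k : ℝ) / N with hx
        have hx0 : 0 ≤ x := by rw [hx]; positivity
        have hx1 : x < 1 := by rw [hx, div_lt_one hNR]; linarith
        set s : ℤ := ⌈8 * x⌉ - 1 with hs'
        have s1 := Int.le_ceil (8 * x)
        have s2 := Int.ceil_lt_add_one (8 * x)
        have s0 : (s : ℝ) = ⌈8 * x⌉ - 1 := by rw [hs']; push_cast; ring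
        have s3 : (-1 : ℤ) ≤ s := by
          have : (0 : ℤ) ≤ ⌈8 * x⌉ := Int.ceil_nonneg (by linarith)
          omega
        have s4 : s ≤ 8 := by
          have : (s : ℝ) < 8 := by linarith
          have : s < 8 := by exact_mod_cast this
          omega
        have hxA : x ∈ A6 := hmem k
        have ax : (a s).1 x = 2 * x := ha s x (by linarith) (by linarith)
        have hgerm : germ (a s) x 2 := by
          unfold germ
          filter_upwards [nhdsGE_ge_of_le le_rfl,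
            nhdsGE_le_of_lt (show x < ((s : ℝ) + 2) / 8 by linarith)] with z hz1 hz2
          exact ha s z (by linarith) hz2
        rw [ff_eq hc hs (haG s) (hmem k) hgerm]
        have hpxy : pm p x < p x := by have := hdpos x hxA; simp only [hd] at this; linarith
        have Fx : (a s).2 (p x) = p (2 * x) := by rw [(haG s).2.2 x hxA, ax]
        have Fy : (a s).2 (pm p x) = pm p (2 * x) := by rw [pm_equiv hs (haG s) hxA, ax]
        obtain ⟨ξ, hξ, hξ'⟩ := exists_deriv_eq_slope (f := (a s).2) hpxy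
          (a s).2.continuous.continuousOn (hc.diff (haG s).1).differentiableOn
        rw [Fx, Fy] at hξ'
        have e2x : 2 * x = ((2 * k + 0 : ℕ) : ℝ) / N := by rw [hx]; push_cast; ring
        have hnum : p (2 * x) - pm p (2 * x) = D (2 * k + 0) := by
          rw [e2x]
        have hden : p x - pm p x = D k := rfl
        rw [hnum, hden] at hξ'
        have hlog : Real.log (deriv (a s).2 ξ) =
            Real.log (D (2 * k + 0)) - Real.log (D k) := by
          rw [hξ', Real.log_div (hDpos _).ne' (hDpos k).ne']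
        have hKK := hK s (Finset.mem_Icc.mpr ⟨s3, s4⟩) (p x) ξ
        have habs : |p x - ξ| ≤ D k := by
          rw [abs_of_pos (by linarith [hξ.2])]
          have := hξ.1
          rw [← hden]; linarith
        have h5 : K * |p x - ξ| ≤ K * D k := mul_le_mul_of_nonneg_left habs hK0
        rw [hlog] at hKK
        have h6 := (abs_le.mp hKK).2
        unfold dd
        linarith
      have hsum := Finset.sum_le_sum hterm
      refine le_trans hsum ?_
      rw [Finset.sum_add_distrib, Finset.sum_add_distrib, Finset.sum_sub_distrib]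
      have hcop : Nat.Coprime N 2 := by
        rw [hN]; exact Nat.Coprime.pow_left b (by norm_num)
      have hlper : ∀ k, Real.log (D (k + N)) = Real.log (D k) := fun k => by rw [hDper]
      have p0 := perm_sum (ψ := fun k => Real.log (D k)) hcop hN0 hlper 0
      have hDsum : ∑ k ∈ Finset.range N, D k ≤ 1 := by
        set Q : ℕ → ℝ := fun k => p (((k : ℝ) - 1) / N) with hQ
        have hQmem : ∀ k : ℕ, ((k : ℝ) - 1) / N ∈ A6 := by
          intro k
          rw [sub_div]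
          have := hmem 1
          push_cast at this
          exact A6.sub_mem (hmem k) this
        have h1 : ∀ k ∈ Finset.range N, D k ≤ Q (k + 1) - Q k := by
          intro k _
          simp only [hDdef, hd, hQ]
          have e1 : (((k + 1 : ℕ) : ℝ) - 1) / N = (k : ℝ) / N := by push_cast; ring
          rw [e1]
          have h2 : p (((k : ℝ) - 1) / N) ≤ pm p ((k : ℝ) / N) :=
            le_pm hs (hmem k) (hQmem k) (by gcongr; linarith)
          linarith
        refine (Finset.sum_le_sum h1).trans ?_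
        rw [Finset.sum_range_sub]
        simp only [hQ]
        have e1 : ((N : ℝ) - 1) / N = (((0 : ℕ) : ℝ) - 1) / N + 1 := by
          push_cast; field_simp; ring
        rw [e1, hs.per _ (hQmem 0)]
        linarith
      rw [← Finset.mul_sum]
      simp only [Finset.sum_const, Finset.card_range, nsmul_eq_mul]
      have h7 := mul_le_mul_of_nonneg_left hDsum hK0
      linarith
    by_contra hcon
    push Not at hcon
    set c := ff Γ p 2 0 - ε / 2 with hcdef
    have hcpos : 0 < c := by rw [hcdef]; linarith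
    obtain ⟨n, hn⟩ := pow_unbounded_of_one_lt (K / c) (show (1 : ℝ) < 3 by norm_num)
    have h1 := main n
    rw [div_lt_iff₀ hcpos] at hn
    have h2 : ((3 ^ n : ℕ) : ℝ) = 3 ^ n := by push_cast; rfl
    rw [h2] at h1
    have h3 : (3 : ℝ) ^ n * c ≤ K := by
      rw [hcdef]; linarith
    linarith

theorem no_semi (hΓ : Core Γ) (hc : CC Γ) (hs : Semi Γ p) : False := by
  have h1 := exp_ge hΓ hc hs
  have h2 := exp_le hΓ hc hs
  have h3 := Real.log_pos (show (1 : ℝ) < 2 by norm_num)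
  linarith

end
end Pool.Agent.Y329.T23
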