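import Mathlib

/-!
Definitions for the Thompson-Stein group `T(2,3)` and `C^1` diffeomorphisms of the circle `ℝ/ℤ`.
-/

namespace Pool.Agent.Y329.ThompsonStein

/-- The set `A = ℤ[1/6]` of real numbers. -/
def A : Set ℝ := {x | ∃ (m : ℤ) (n : ℕ), x * 6 ^ n = m}

/-- The set of slopes `Λ = ⟨2,3⟩ = {2^a 3^b : a, b ∈ ℤ}`. -/
def Lambda : Set ℝ := {l | ∃ a b : ℤ, l = 2 ^ a * 3 ^ b}

/-- The increasing homeomorphism `F` of the line is a lift of an element of `T(2,3)`: it commutes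
with the translation by `1`; for some finite set `S ⊆ A`, it is affine with slope in `Λ` on every
interval `[a,b]` whose interior contains no point of `S + ℤ` (so that, modulo `ℤ`, all its
breakpoints are in the finite set `S`); and it maps `A` onto itself. -/
structure IsLiftT (F : ℝ ≃o ℝ) : Prop where
  periodic : ∀ x : ℝ, F (x + 1) = F x + 1
  pl : ∃ S : Finset ℝ, (∀ s ∈ S, s ∈ A) ∧ ∀ a b : ℝ, a < b →
    (∀ s ∈ S, ∀ m : ℤ, s + m ∉ Set.Ioo a b) →
      ∃ l ∈ Lambda, ∀ x ∈ Set.Icc a b, F x = F a + l * (x - a)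
  image : F '' A = A

/-- The homeomorphism `f` of the circle `ℝ/ℤ` is a `C^1` diffeomorphism (possibly reversing the
orientation): it has a lift `F : ℝ → ℝ` of class `C^1` whose derivative does not vanish. -/
def IsC1Diffeo (f : UnitAddCircle ≃ₜ UnitAddCircle) : Prop :=
  ∃ F : ℝ → ℝ, ContDiff ℝ 1 F ∧ (∀ x, deriv F x ≠ 0) ∧
    ∀ x : ℝ, f (x : UnitAddCircle) = ((F x : ℝ) : UnitAddCircle)

end Pool.Agent.Y329.ThompsonStein
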