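import Pool.Agent.Y329.T23.Perfect2

/-!
# Existence of elements
-/

open Set Filter Topology
open scoped commutatorElement

namespace Pool.Agent.Y329.T23

lemma Dpow_lo (k : ℕ) {x : ℝ} (h : x ≤ 0) : (Dm 1 ^ k) x = x := by
  induction k with
  | zero => rfl
  | succ k ih => rw [pow_succ', RelIso.mul_apply, ih, Dm_neg h]
lemma Dpow_hi (k : ℕ) {x : ℝ} (h : 1 ≤ x) : (Dm 1 ^ k) x = x + k := by
  induction k with
  | zero => simp
  | succ k ih =>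
    rw [pow_succ', RelIso.mul_apply, ih, Dm_hi (by linarith [(Nat.cast_nonneg k : (0:ℝ) ≤ k)])]
    push_cast; ring

/-- identity on `(-∞,0]`, translation by `β - α` on `[α,∞)` -/
lemma exK {α β : ℝ} (hα : α ∈ A6) (hβ : β ∈ A6) (h1 : 0 < α) (h2 : 0 < β) :
    ∃ F ∈ PLg, (∀ x ≤ 0, F x = x) ∧ (∀ x, α ≤ x → F x = x + (β - α)) := by
  obtain ⟨a, n, ha⟩ := hα
  obtain ⟨b, m, hb⟩ := hβ
  set P : ℝ := 6 ^ (n + m) with hP
  have hP0 : 0 < P := by positivity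
  have ha' : α * P = ((a * 6 ^ m : ℤ) : ℝ) := by
    rw [hP, pow_add, ← mul_assoc, ha]; push_cast; ring
  have hb' : β * P = ((b * 6 ^ n : ℤ) : ℝ) := by
    rw [hP, pow_add, mul_comm ((6 : ℝ) ^ n), ← mul_assoc, hb]; push_cast; ring
  have ha0 : 0 < a * 6 ^ m := by
    have : (0 : ℝ) < ((a * 6 ^ m : ℤ) : ℝ) := by rw [← ha']; positivity
    exact_mod_cast this
  have hb0 : 0 < b * 6 ^ n := by
    have : (0 : ℝ) < ((b * 6 ^ n : ℤ) : ℝ) := by rw [← hb']; positivity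
    exact_mod_cast this
  obtain ⟨a', haa⟩ := Int.eq_ofNat_of_zero_le (show 0 ≤ a * 6 ^ m - 1 by omega)
  obtain ⟨b', hbb⟩ := Int.eq_ofNat_of_zero_le (show 0 ≤ b * 6 ^ n - 1 by omega)
  have haa' : α * P = a' + 1 := by
    rw [ha', show a * 6 ^ m = (a' : ℤ) + 1 by omega]; push_cast; ring
  have hbb' : β * P = b' + 1 := by
    rw [hb', show b * 6 ^ n = (b' : ℤ) + 1 by omega]; push_cast; ring
  have hL : IsLam P := lam6 _
  refine ⟨(Sc P hL.pos)⁻¹ * (Dm 1 ^ b' * ((Dm 1 ^ a')⁻¹ * Sc P hL.pos)), ?_, ?_, ?_⟩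
  · have hD : Dm 1 ∈ PLg := Dm_mem lam2
    exact PLg.mul_mem (PLg.inv_mem (Sc_mem hL)) (PLg.mul_mem (PLg.pow_mem hD _)
      (PLg.mul_mem (PLg.inv_mem (PLg.pow_mem hD _)) (Sc_mem hL)))
  · intro x hx
    simp only [RelIso.mul_apply, Sc_apply]
    have h1 : P * x ≤ 0 := by nlinarith
    have e1 : (Dm 1 ^ a')⁻¹ (P * x) = P * x := inv_eq_of (Dpow_lo _ h1)
    rw [e1, Dpow_lo _ h1, Sc_inv_apply, inv_mul_cancel_left₀ hP0.ne']
  · intro x hx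
    simp only [RelIso.mul_apply, Sc_apply]
    have h1 : (a' : ℝ) + 1 ≤ P * x := by rw [← haa']; nlinarith
    have e1 : (Dm 1 ^ a')⁻¹ (P * x) = P * x - a' :=
      inv_eq_of (by rw [Dpow_hi _ (by linarith)]; ring)
    rw [e1, Dpow_hi _ (by linarith), Sc_inv_apply]
    have : P * x - a' + b' = P * (x + (β - α)) := by linarith [haa', hbb']
    rw [this, inv_mul_cancel_left₀ hP0.ne']

lemma exKR {c d d' : ℝ} (hc : c ∈ A6) (hd : d ∈ A6) (hd' : d' ∈ A6) (h1 : c < d) (h2 : c < d') :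
    ∃ F ∈ PLg, (∀ x ≤ c, F x = x) ∧ (∀ x, d ≤ x → F x = x + (d' - d)) := by
  obtain ⟨F, hF, h3, h4⟩ := exK (A6.sub_mem hd hc) (A6.sub_mem hd' hc) (sub_pos.mpr h1)
    (sub_pos.mpr h2)
  refine ⟨T c * (F * T (-c)), PLg.mul_mem (T_mem hc) (PLg.mul_mem hF (T_mem (A6.neg_mem hc))),
    fun x hx => ?_, fun x hx => ?_⟩
  · simp only [RelIso.mul_apply, T_apply]
    rw [h3 _ (by linarith)]; ring
  · simp only [RelIso.mul_apply, T_apply]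
    rw [h4 _ (by linarith)]; ring

lemma exKL {c c' d : ℝ} (hc : c ∈ A6) (hc' : c' ∈ A6) (hd : d ∈ A6) (h1 : c < d) (h2 : c' < d) :
    ∃ F ∈ PLg, (∀ x, d ≤ x → F x = x) ∧ (∀ x ≤ c, F x = x + (c' - c)) := by
  obtain ⟨F, hF, h3, h4⟩ := exKR hc hd (A6.sub_mem (A6.add_mem hd hc) hc') h1
    (show c < d + c - c' by linarith)
  refine ⟨T (c' - c) * F, PLg.mul_mem (T_mem (A6.sub_mem hc' hc)) hF,
    fun x hx => ?_, fun x hx => ?_⟩
  · simp only [RelIso.mul_apply, T_apply]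
    rw [h4 _ hx]; ring
  · simp only [RelIso.mul_apply, T_apply]
    rw [h3 _ hx]

lemma cutR {F : ℝ ≃o ℝ} (hF : F ∈ PLg) {c d : ℝ} (hc : c ∈ A6) (hd : d ∈ A6) (h : c < d)
    (h' : F c < d) : ∃ G ∈ PLg, (∀ x ≤ c, G x = F x) ∧ (∀ x, d ≤ x → G x = x) := by
  obtain ⟨K, hK, h1, h2⟩ := exKR ((hF.1 c).mpr hc) ((hF.1 d).mpr hd) hd (F.strictMono h) h'
  have hd2 : (K * F) d = (1 : ℝ ≃o ℝ) d := by
    rw [RelIso.mul_apply, h2 _ le_rfl]
    change _ = d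
    ring
  refine ⟨glue (K * F) 1 d hd2, glue_mem (PLg.mul_mem hK hF) PLg.one_mem hd, fun x hx => ?_,
    fun x hx => ?_⟩
  · rw [glue_left (by linarith), RelIso.mul_apply, h1 _ (F.monotone hx)]
  · rw [glue_right hx]; rfl

lemma cutL {F : ℝ ≃o ℝ} (hF : F ∈ PLg) {c d : ℝ} (hc : c ∈ A6) (hd : d ∈ A6) (h : c < d)
    (h' : c < F d) : ∃ G ∈ PLg, (∀ x, d ≤ x → G x = F x) ∧ (∀ x ≤ c, G x = x) := by
  obtain ⟨K, hK, h1, h2⟩ := exKL ((hF.1 c).mpr hc) hc ((hF.1 d).mpr hd) (F.strictMono h) h'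
  have hd2 : (1 : ℝ ≃o ℝ) c = (K * F) c := by
    rw [RelIso.mul_apply, h2 _ le_rfl]
    change c = _
    ring
  refine ⟨glue 1 (K * F) c hd2, glue_mem PLg.one_mem (PLg.mul_mem hK hF) hc, fun x hx => ?_,
    fun x hx => ?_⟩
  · rw [glue_right (by linarith), RelIso.mul_apply, h1 _ (F.monotone hx)]
  · rw [glue_left hx]; rfl

/-- Local extension: an element of `Gt` equal to `g` on `[d,e]` and to the identity on
`[f-1,c]`. -/
lemma locExt {g : ℝ ≃o ℝ} (hg : g ∈ PLg) {c d e f : ℝ} (hc : c ∈ A6) (hd : d ∈ A6) (he : e ∈ A6)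
    (hf : f ∈ A6) (h1 : c < d) (h2 : d ≤ e) (h3 : e < f) (h4 : f ≤ c + 1) (h5 : c < g d)
    (h6 : g e < f) : ∃ h, Per 1 1 h ∧ (∀ x, d ≤ x → x ≤ e → h x = g x) ∧
      (∀ x, f - 1 ≤ x → x ≤ c → h x = x) := by
  obtain ⟨F1, hF1, a1, a2⟩ := cutL hg hc hd h1 h5
  obtain ⟨F2, hF2, b1, b2⟩ := cutR hF1 he hf h3 (by rw [a1 e h2]; exact h6)
  have hc2 : F2 c = c := by rw [b1 c (by linarith), a2 c le_rfl]
  have hc3 : F2 (c + 1) = F2 c + 1 := by rw [hc2, b2 _ h4]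
  refine ⟨perExt F2 c 1 1 one_pos one_pos hc3, ⟨perExt_mem hF2 hc A6.one_mem A6.one_mem,
    perExt_add⟩, fun x hx1 hx2 => ?_, fun x hx1 hx2 => ?_⟩
  · rw [perExt_eq' (by linarith) (by linarith), b1 x hx2, a1 x hx1]
  · have := perExt_add (F := F2) (a := c) (n := 1) (N := 1) (hn := one_pos) (hN := one_pos)
      (h := hc3) x
    rw [perExt_eq' (x := x + 1) (by linarith) (by linarith), b2 _ (by linarith)] at this
    linarith

/-- Extension: an element of `Gt` equal to `F` on `[a,b]`. -/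
lemma perExtEx {F : ℝ ≃o ℝ} (hF : F ∈ PLg) {a b : ℝ} (ha : a ∈ A6) (hb : b ∈ A6) (h1 : a ≤ b)
    (h2 : b < a + 1) (h3 : F b < F a + 1) :
    ∃ g, Per 1 1 g ∧ ∀ x, a ≤ x → x ≤ b → g x = F x := by
  obtain ⟨K, hK, k1, k2⟩ := exKR ((hF.1 b).mpr hb) ((hF.1 (a + 1)).mpr (A6.add_mem ha A6.one_mem))
    (A6.add_mem ((hF.1 a).mpr ha) A6.one_mem) (F.strictMono h2) h3
  have e1 : (K * F) (a + 1) = (K * F) a + 1 := by
    rw [RelIso.mul_apply, RelIso.mul_apply, k2 _ le_rfl, k1 _ (F.monotone h1)]; ring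
  refine ⟨perExt (K * F) a 1 1 one_pos one_pos e1, ⟨perExt_mem (PLg.mul_mem hK hF) ha A6.one_mem
    A6.one_mem, perExt_add⟩, fun x hx1 hx2 => ?_⟩
  rw [perExt_eq' hx1 (by linarith), RelIso.mul_apply, k1 _ (F.monotone hx2)]

lemma ex_two {a b a' b' : ℝ} (ha : a ∈ A6) (hb : b ∈ A6) (ha' : a' ∈ A6) (hb' : b' ∈ A6)
    (h : a < b) (h' : a' < b') : ∃ F ∈ PLg, F a = a' ∧ F b = b' := by
  obtain ⟨K, hK, k1, k2⟩ := exK (A6.sub_mem hb ha) (A6.sub_mem hb' ha') (sub_pos.mpr h)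
    (sub_pos.mpr h')
  refine ⟨T a' * (K * T (-a)), PLg.mul_mem (T_mem ha') (PLg.mul_mem hK (T_mem (A6.neg_mem ha))),
    ?_, ?_⟩
  · simp only [RelIso.mul_apply, T_apply]
    rw [k1 _ (by linarith)]; ring
  · simp only [RelIso.mul_apply, T_apply]
    rw [k2 _ (by linarith)]; ring

/-- Contractions. -/
lemma conn2 {a b a' b' : ℝ} (ha : a ∈ A6) (hb : b ∈ A6) (ha' : a' ∈ A6) (hb' : b' ∈ A6)
    (h : a < b) (h' : a' < b') (h1 : b < a + 1) (h1' : b' < a' + 1) :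
    ∃ c, Per 1 1 c ∧ c a = a' ∧ c b = b' := by
  obtain ⟨F, hF, e1, e2⟩ := ex_two ha hb ha' hb' h h'
  obtain ⟨g, hg, hg'⟩ := perExtEx hF ha hb h.le h1 (by rw [e1, e2]; exact h1')
  exact ⟨g, hg, by rw [hg' a le_rfl h.le, e1], by rw [hg' b h.le le_rfl, e2]⟩

/-- Elements that are the identity near `z`. -/
def Hn (z : ℝ) : Subgroup (ℝ ≃o ℝ) where
  carrier := {h | Per 1 1 h ∧ ∀ᶠ x in 𝓝 z, h x = x}
  mul_mem' := by
    rintro g h ⟨hg, hg'⟩ ⟨hh, hh'⟩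
    refine ⟨hg.mul hh, ?_⟩
    filter_upwards [hg', hh'] with x h1 h2
    rw [RelIso.mul_apply, h2, h1]
  one_mem' := ⟨Per_one 1, Eventually.of_forall fun _ => rfl⟩
  inv_mem' := by
    rintro g ⟨hg, hg'⟩
    refine ⟨hg.inv, ?_⟩
    filter_upwards [hg'] with x h1
    exact inv_eq_of h1

lemma mem_Hn {z : ℝ} {h : ℝ ≃o ℝ} : h ∈ Hn z ↔ Per 1 1 h ∧ ∀ᶠ x in 𝓝 z, h x = x := Iff.rfl

lemma Hn_conj {z : ℝ} {g h : ℝ ≃o ℝ} (hg : Per 1 1 g) (hh : h ∈ Hn z) :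
    g * h * g⁻¹ ∈ Hn (g z) := by
  refine ⟨(hg.mul hh.1).mul hg.inv, ?_⟩
  have ht : Tendsto (g⁻¹ : ℝ ≃o ℝ) (𝓝 (g z)) (𝓝 z) := by
    have := (g⁻¹).continuous.tendsto (g z)
    rwa [RelIso.inv_apply_self] at this
  filter_upwards [ht.eventually hh.2] with x hx
  rw [RelIso.mul_apply, RelIso.mul_apply, hx, RelIso.apply_inv_self]

lemma Hn_int {z : ℝ} {h : ℝ ≃o ℝ} (hh : h ∈ Hn z) (i : ℤ) : h ∈ Hn (z + i) := by
  refine ⟨hh.1, ?_⟩
  have ht : Tendsto (fun x : ℝ => x - i) (𝓝 (z + i)) (𝓝 z) := by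
    have : Tendsto (fun x : ℝ => x - i) (𝓝 (z + i)) (𝓝 (z + i - i)) :=
      (continuous_sub_right _).tendsto _
    rwa [add_sub_cancel_right] at this
  filter_upwards [ht.eventually hh.2] with x hx
  have := per_int hh.1.2 (x - i) i
  rw [mul_one, sub_add_cancel, hx] at this
  rw [this]; ring

/-- Pair transitivity of `Hn w`. -/
lemma Hn_trans {w y z y' z' : ℝ} (_ : w ∈ A6) (hy : y ∈ A6) (hz : z ∈ A6) (hy' : y' ∈ A6)
    (hz' : z' ∈ A6) (h1 : w < y) (h2 : y < z) (h3 : z < w + 1) (h1' : w < y') (h2' : y' < z')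
    (h3' : z' < w + 1) : ∃ h ∈ Hn w, h y = y' ∧ h z = z' ∧ ∃ u > w, ∀ x, w ≤ x → x ≤ u → h x = x := by
  obtain ⟨F, hF, e1, e2⟩ := ex_two hy hz hy' hz' h2 h2'
  obtain ⟨c, hc, c1, c2⟩ := A6.exists_between (show w < min y y' from lt_min h1 h1')
  obtain ⟨f, hf, f1, f2⟩ := A6.exists_between (show max z z' < w + 1 from max_lt h3 h3')
  have c3 := lt_min_iff.mp c2
  have f3 := max_lt_iff.mp f1
  obtain ⟨h, hh, hh1, hh2⟩ := locExt hF hc hy hz hf c3.1 h2.le f3.1 (by linarith)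
    (by rw [e1]; exact c3.2) (by rw [e2]; exact f3.2)
  refine ⟨h, ⟨hh, ?_⟩, by rw [hh1 y le_rfl h2.le, e1], by rw [hh1 z h2.le le_rfl, e2], c, c1,
    fun x hx1 hx2 => hh2 x (by linarith) hx2⟩
  filter_upwards [Ioo_mem_nhds (show f - 1 < w by linarith) c1] with x hx
  exact hh2 x hx.1.le hx.2.le

/-- Pair transitivity of commutators of `Hn w`. -/
lemma Nn_trans {w y z y' z' : ℝ} (hw : w ∈ A6) (hy : y ∈ A6) (hz : z ∈ A6) (hy' : y' ∈ A6)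
    (hz' : z' ∈ A6) (h1 : w < y) (h2 : y < z) (h3 : z < w + 1) (h1' : w < y') (h2' : y' < z')
    (h3' : z' < w + 1) : ∃ h ∈ Hn w, ∃ k ∈ Hn w, ⁅h, k⁆ y = y' ∧ ⁅h, k⁆ z = z' := by
  obtain ⟨h, hh, e1, e2, u, hu, hid⟩ := Hn_trans hw hy hz hy' hz' h1 h2 h3 h1' h2' h3'
  obtain ⟨u1, hu1, a1, a2⟩ := A6.exists_between (show w < min u (w + 1) from
    lt_min hu (by linarith))
  obtain ⟨u2, hu2, b1, b2⟩ := A6.exists_between a2
  have a3 := lt_min_iff.mp a2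
  have b3 := lt_min_iff.mp b2
  obtain ⟨k, hk, k1, k2, -⟩ := Hn_trans hw hu1 hu2 hy hz a1 b1 b3.2 h1 h2 h3
  refine ⟨h, hh, k, hk, ?_, ?_⟩
  · rw [commutatorElement_def]
    simp only [RelIso.mul_apply]
    rw [inv_eq_of k1, inv_eq_of (hid u1 a1.le a3.1.le), k1, e1]
  · rw [commutatorElement_def]
    simp only [RelIso.mul_apply]
    rw [inv_eq_of k2, inv_eq_of (hid u2 (by linarith) b3.1.le), k2, e2]

/-- Roots of the translation. -/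
lemma ex_root (n : ℕ) : ∃ κ, Per 1 1 κ ∧ κ ^ (n + 1) = T 1 := by
  refine ⟨(bch n)⁻¹ * T 1 * bch n, Per_conj (Per_bch n) A6.one_mem, ?_⟩
  have h2 := conj_pow (i := n + 1) (a := (bch n)⁻¹) (b := T 1)
  rw [inv_inv] at h2
  rw [h2, T_pow, mul_assoc, inv_mul_eq_iff_eq_mul]
  ext x
  simp only [RelIso.mul_apply, T_apply]
  rw [(Per_bch n).2]; push_cast; ring

end Pool.Agent.Y329.T23
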