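import Pool.Agent.Y329.T23.Fix

/-!
# Enumerating interlaced families
-/

open Set Filter Topology

namespace Pool.Agent.Y329.T23

lemma exEnum {S : Set ℝ} (hne : S.Nonempty) (hfin : ∀ a b, (S ∩ Icc a b).Finite)
    (hp : ∀ v, v + 1 ∈ S ↔ v ∈ S) : ∃ e : ℤ → ℝ, StrictMono e ∧ ∀ v, v ∈ S ↔ ∃ i, e i = v := by
  classical
  let _ : LocallyFiniteOrder S := LocallyFiniteOrder.ofFiniteIcc (fun a b => by
    have h := (hfin a b).preimage (f := ((↑) : S → ℝ)) Subtype.val_injective.injOn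
    refine h.subset ?_
    intro x hx
    exact ⟨x.2, hx.1, hx.2⟩)
  let _ := LinearLocallyFiniteOrder.succOrder S
  let _ := LinearLocallyFiniteOrder.predOrder S
  have : NoMaxOrder S := ⟨fun v => ⟨⟨v + 1, (hp v).mpr v.2⟩, by
    change (v : ℝ) < v + 1; linarith⟩⟩
  have : NoMinOrder S := ⟨fun v => ⟨⟨v - 1, (hp (v - 1)).mp (by simp)⟩, by
    change (v : ℝ) - 1 < v; linarith⟩⟩
  have : Nonempty S := hne.to_subtype
  let f : S ≃o ℤ := orderIsoIntOfLinearSuccPredArch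
  refine ⟨fun j => (f.symm j : ℝ), fun i j hij => f.symm.strictMono hij, fun v => ⟨fun hv => ?_, ?_⟩⟩
  · exact ⟨f ⟨v, hv⟩, by simp⟩
  · rintro ⟨i, rfl⟩
    exact (f.symm i).2

/-- Interlaced families -/
structure Fam (P : ℝ → Set ℝ) : Prop where
  ne : ∀ x ∈ A6, (P x).Nonempty
  fin : ∀ x ∈ A6, ∀ a b, (P x ∩ Icc a b).Finite
  per : ∀ x ∈ A6, ∀ v, v + 1 ∈ P x ↔ v ∈ P x
  shift : ∀ x ∈ A6, P (x + 1) = P x
  disj : ∀ x ∈ A6, ∀ y ∈ A6, (∀ i : ℤ, y ≠ x + i) → ∀ v ∈ P x, v ∉ P y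
  inter : ∀ x ∈ A6, ∀ y ∈ A6, (∀ i : ℤ, y ≠ x + i) → ∀ u ∈ P x, ∀ v ∈ P x, u < v →
    ∃ w ∈ P y, u < w ∧ w < v
  tr : ∀ y ∈ A6, ∀ z ∈ A6, ∀ y' ∈ A6, ∀ z' ∈ A6, 0 < y → y < z → z < 1 → 0 < y' → y' < z' →
    z' < 1 → ∃ F : ℝ ≃o ℝ, (∀ v ∈ P 0, F v = v) ∧ (∀ v ∈ P y, F v ∈ P y') ∧
      (∀ v ∈ P z, F v ∈ P z')

lemma Fam.shift_int {P : ℝ → Set ℝ} (h : Fam P) {x : ℝ} (hx : x ∈ A6) (i : ℤ) :
    P (x + i) = P x := by
  induction i with
  | zero => simp
  | succ i ih =>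
    rw [← ih]
    have := h.shift (x + (i : ℤ)) (A6.add_mem hx (A6.int i))
    rw [← this]; push_cast; ring_nf
  | pred i ih =>
    rw [← ih]
    have := h.shift (x + (-(i : ℤ) - 1 : ℤ)) (A6.add_mem hx (A6.int _))
    rw [← this]; push_cast; ring_nf

lemma Fam.neg {P : ℝ → Set ℝ} (h : Fam P) : Fam (fun x => P (-x)) where
  ne := fun x hx => h.ne _ (A6.neg_mem hx)
  fin := fun x hx => h.fin _ (A6.neg_mem hx)
  per := fun x hx => h.per _ (A6.neg_mem hx)
  shift := fun x hx => by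
    have := h.shift (-(x + 1)) (A6.neg_mem (A6.add_mem hx A6.one_mem))
    rw [← this]; congr 1; ring
  disj := fun x hx y hy hxy => h.disj _ (A6.neg_mem hx) _ (A6.neg_mem hy) (fun i hi => by
    apply hxy (-i); push_cast; linarith)
  inter := fun x hx y hy hxy => h.inter _ (A6.neg_mem hx) _ (A6.neg_mem hy) (fun i hi => by
    apply hxy (-i); push_cast; linarith)
  tr := by
    intro y hy z hz y' hy' z' hz' h1 h2 h3 h1' h2' h3'
    have s : ∀ x ∈ A6, P (-x) = P (1 - x) := fun x hx => by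
      rw [← h.shift (-x) (A6.neg_mem hx)]; congr 1; ring
    obtain ⟨F, a1, a2, a3⟩ := h.tr (1 - z) (A6.sub_mem A6.one_mem hz) (1 - y)
      (A6.sub_mem A6.one_mem hy) (1 - z') (A6.sub_mem A6.one_mem hz') (1 - y')
      (A6.sub_mem A6.one_mem hy') (by linarith) (by linarith) (by linarith) (by linarith)
      (by linarith) (by linarith)
    refine ⟨F, ?_, ?_, ?_⟩
    · simpa using a1
    · simp only [s y hy, s y' hy']; exact a3
    · simp only [s z hz, s z' hz']; exact a2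

section
variable {P : ℝ → Set ℝ} (hP : Fam P) {e : ℤ → ℝ} (he : StrictMono e)
  (he' : ∀ v, v ∈ P 0 ↔ ∃ i, e i = v)
include hP he he'

lemma enum_uniq {x : ℝ} (hx : x ∈ A6) {i : ℤ} {w w' : ℝ} (hw : w ∈ P x) (hw' : w' ∈ P x)
    (h1 : e i ≤ w) (h2 : w < e (i + 1)) (h1' : e i ≤ w') (h2' : w' < e (i + 1)) : w = w' := by
  -- symmetric argument
  have key : ∀ a b : ℝ, a ∈ P x → b ∈ P x → e i ≤ a → b < e (i + 1) → a < b → False := by
    intro a b ha hb ha1 hb1 hab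
    by_cases hxi : ∃ j : ℤ, x = j
    · obtain ⟨j, rfl⟩ := hxi
      have hs := hP.shift_int A6.zero_mem j
      rw [zero_add] at hs
      rw [hs] at ha hb
      obtain ⟨k, rfl⟩ := (he' a).mp ha
      obtain ⟨l, rfl⟩ := (he' b).mp hb
      have g1 := he.lt_iff_lt.mp hab
      have g2 := he.lt_iff_lt.mp hb1
      have g3 := he.le_iff_le.mp ha1
      omega
    · push Not at hxi
      obtain ⟨c, hc, c1, c2⟩ := hP.inter x hx 0 A6.zero_mem (fun i hi => hxi (-i)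
        (by push_cast; linarith)) a ha b hb hab
      obtain ⟨k, rfl⟩ := (he' c).mp hc
      have g1 := he.lt_iff_lt.mp (lt_of_le_of_lt ha1 c1)
      have g2 := he.lt_iff_lt.mp (c2.trans hb1)
      omega
  rcases lt_trichotomy w w' with h | h | h
  · exact (key w w' hw hw' h1 h2' h).elim
  · exact h
  · exact (key w' w hw' hw h1' h2 h).elim

lemma enum_ex {x : ℝ} (hx : x ∈ A6) (i : ℤ) : ∃ w ∈ P x, e i ≤ w ∧ w < e (i + 1) := by
  by_cases hxi : ∃ j : ℤ, x = j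
  · obtain ⟨j, rfl⟩ := hxi
    have hs := hP.shift_int A6.zero_mem j
    rw [zero_add] at hs
    rw [hs]
    exact ⟨e i, (he' _).mpr ⟨i, rfl⟩, le_rfl, he (by omega)⟩
  · push Not at hxi
    obtain ⟨w, hw, h1, h2⟩ := hP.inter 0 A6.zero_mem x hx (fun i hi => hxi i (by rw [hi]; simp))
      (e i) ((he' _).mpr ⟨i, rfl⟩) (e (i + 1)) ((he' _).mpr ⟨_, rfl⟩) (he (by omega))
    exact ⟨w, hw, h1.le, h2⟩

lemma enum_loc (w : ℝ) : ∃ i, e i ≤ w ∧ w < e (i + 1) := by
  -- `P 0` is unbounded in both directions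
  obtain ⟨v, hv⟩ := hP.ne 0 A6.zero_mem
  have hint : ∀ k : ℤ, v + k ∈ P 0 := by
    intro k
    induction k with
    | zero => simpa using hv
    | succ k ih =>
      have := (hP.per 0 A6.zero_mem (v + (k : ℤ))).mpr ih
      push_cast at this ⊢
      rw [← add_assoc]; exact this
    | pred k ih =>
      have := (hP.per 0 A6.zero_mem (v + (-(k : ℤ) - 1 : ℤ))).mp (by
        have e1 : v + ((-(k : ℤ) - 1 : ℤ) : ℝ) + 1 = v + (-(k : ℤ) : ℤ) := by push_cast; ring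
        rw [e1]; exact ih)
      exact this
  obtain ⟨a, ha⟩ := (he' _).mp (hint ⌊w - v⌋)
  obtain ⟨b, hb⟩ := (he' _).mp (hint (⌊w - v⌋ + 1))
  have f1 := Int.floor_le (w - v)
  have f2 := Int.lt_floor_add_one (w - v)
  obtain ⟨i, hi, hi'⟩ := Int.exists_greatest_of_bdd (P := fun i => e i ≤ w) ⟨b, fun z hz => by
    have : e z < e b := by rw [hb]; push_cast; linarith
    exact (he.lt_iff_lt.mp this).le⟩ ⟨a, by rw [ha]; linarith⟩
  refine ⟨i, hi, ?_⟩
  by_contra hcon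
  push Not at hcon
  have := hi' (i + 1) hcon
  omega

/-- The enumeration in the positively oriented case. -/
lemma enum_pos {u v : ℝ} (hu : u ∈ P (1 / 3)) (hv : v ∈ P (1 / 2)) (h0 : e 0 < u) (huv : u < v)
    (h1 : v < e 1) : ∃ p : ℝ → ℝ, (∀ x ∈ A6, ∀ y ∈ A6, x < y → p x < p y) ∧
      ∀ x ∈ A6, ∀ w, w ∈ P x ↔ ∃ j : ℤ, w = p (x + j) := by
  have hex : ∀ x : ℝ, ∃ w, x ∈ A6 → w ∈ P x ∧ e ⌊x⌋ ≤ w ∧ w < e (⌊x⌋ + 1) := by
    intro x
    by_cases hx : x ∈ A6
    · obtain ⟨w, hw, h1, h2⟩ := enum_ex hP he he' hx ⌊x⌋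
      exact ⟨w, fun _ => ⟨hw, h1, h2⟩⟩
    · exact ⟨0, fun h => absurd h hx⟩
  choose p hp using hex
  have A3 : (1 / 3 : ℝ) ∈ A6 := by rw [one_div]; exact A6.third
  have A2 : (1 / 2 : ℝ) ∈ A6 := by rw [one_div]; exact A6.half
  -- uniqueness in terms of `p`
  have huq : ∀ x ∈ A6, ∀ i : ℤ, ∀ w ∈ P x, e (⌊x⌋ + i) ≤ w → w < e (⌊x⌋ + i + 1) →
      w = p (x + i) := by
    intro x hx i w hw w1 w2
    have hxi : x + i ∈ A6 := A6.add_mem hx (A6.int i)
    have g := hp (x + i) hxi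
    rw [Int.floor_add_intCast, hP.shift_int hx] at g
    exact enum_uniq hP he he' hx hw g.1 w1 w2 g.2.1 g.2.2
  have hmem : ∀ x ∈ A6, ∀ w, w ∈ P x ↔ ∃ j : ℤ, w = p (x + j) := by
    intro x hx w
    constructor
    · intro hw
      obtain ⟨i, i1, i2⟩ := enum_loc hP he he' w
      refine ⟨i - ⌊x⌋, huq x hx _ w hw ?_ ?_⟩
      · rw [add_sub_cancel]; exact i1
      · rw [add_sub_cancel]; exact i2
    · rintro ⟨j, rfl⟩
      have := (hp (x + j) (A6.add_mem hx (A6.int j))).1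
      rwa [hP.shift_int hx] at this
  -- floor of i + a
  have hfl : ∀ (i : ℤ) (a : ℝ), 0 < a → a < 1 → ⌊(i : ℝ) + a⌋ = i := by
    intro i a h1 h2
    rw [Int.floor_eq_iff]; constructor <;> linarith
  have hpt : ∀ (i : ℤ) (a : ℝ), a ∈ A6 → 0 < a → a < 1 → p (i + a) ∈ P a ∧ e i < p (i + a) ∧
      p (i + a) < e (i + 1) := by
    intro i a ha h1 h2
    have g := hp (i + a) (A6.add_mem (A6.int i) ha)
    rw [hfl i a h1 h2, add_comm (i : ℝ) a, hP.shift_int ha] at g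
    rw [add_comm (i : ℝ) a]
    refine ⟨g.1, lt_of_le_of_ne g.2.1 ?_, g.2.2⟩
    intro hcon
    refine hP.disj a ha 0 A6.zero_mem ?_ _ g.1 ?_
    · intro j hj
      have h3 : (-1 : ℝ) < j := by linarith
      have h4 : (j : ℝ) < 0 := by linarith
      have h5 : -1 < j := by exact_mod_cast h3
      have h6 : j < 0 := by exact_mod_cast h4
      omega
    · rw [← hcon]; exact (he' _).mpr ⟨i, rfl⟩
  have huq2 : ∀ (i : ℤ) (a : ℝ), a ∈ A6 → 0 < a → a < 1 → ∀ w ∈ P a, e i < w → w < e (i + 1) →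
      w = p (i + a) := by
    intro i a ha h1 h2 w hw w1 w2
    have g := hpt i a ha h1 h2
    exact enum_uniq hP he he' ha hw g.1 w1.le w2 g.2.1.le g.2.2
  have hne : ∀ y ∈ A6, ∀ z ∈ A6, 0 < y → y < 1 → 0 < z → z < 1 → y ≠ z → ∀ i : ℤ, z ≠ y + i := by
    intro y _ z _ y1 y2 z1 z2 hyz i hi
    have h3 : (-1 : ℝ) < i := by linarith
    have h4 : (i : ℝ) < 1 := by linarith
    have h5 : -1 < i := by exact_mod_cast h3
    have h6 : i < 1 := by exact_mod_cast h4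
    have h7 : i = 0 := by omega
    rw [h7] at hi
    apply hyz; rw [hi]; simp
  -- step
  have hsw : ∀ y ∈ A6, ∀ z ∈ A6, 0 < y → y < 1 → 0 < z → z < 1 → y ≠ z → ∀ i : ℤ,
      p (i + y) < p (i + z) → p ((i + 1 : ℤ) + y) < p ((i + 1 : ℤ) + z) := by
    intro y hy z hz y1 y2 z1 z2 hyz i hlt
    by_contra hcon
    push Not at hcon
    have gy := hpt i y hy y1 y2
    have gz := hpt i z hz z1 z2
    have gy' := hpt (i + 1) y hy y1 y2
    have gz' := hpt (i + 1) z hz z1 z2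
    obtain ⟨w, hw, w1, w2⟩ := hP.inter z hz y hy (hne z hz y hy z1 z2 y1 y2 hyz.symm) _ gz.1 _ gz'.1
      (gz.2.2.trans gz'.2.1)
    rcases lt_or_ge w (e (i + 1)) with h | h
    · have := huq2 i y hy y1 y2 w hw (gy.2.1.trans (hlt.trans w1)) h
      rw [this] at w1
      linarith
    · have hwne : e (i + 1) ≠ w := by
        intro hcon2
        refine hP.disj y hy 0 A6.zero_mem ?_ w hw ((he' _).mpr ⟨i + 1, hcon2⟩)
        intro j hj
        have h3 : (-1 : ℝ) < j := by linarith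
        have h4 : (j : ℝ) < 0 := by linarith
        have h5 : -1 < j := by exact_mod_cast h3
        have h6 : j < 0 := by exact_mod_cast h4
        omega
      have := huq2 (i + 1) y hy y1 y2 w hw (lt_of_le_of_ne h hwne)
        (w2.trans gz'.2.2)
      rw [this] at w2
      linarith
  have hpne : ∀ y ∈ A6, ∀ z ∈ A6, 0 < y → y < 1 → 0 < z → z < 1 → y ≠ z → ∀ i : ℤ,
      p (i + y) ≠ p (i + z) := by
    intro y hy z hz y1 y2 z1 z2 hyz i hcon
    have gy := hpt i y hy y1 y2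
    have gz := hpt i z hz z1 z2
    refine hP.disj y hy z hz (hne y hy z hz y1 y2 z1 z2 hyz) _ gy.1 ?_
    rw [hcon]; exact gz.1
  -- sign at level zero
  have hs0 : ∀ a ∈ A6, ∀ b ∈ A6, 0 < a → a < b → b < 1 → p ((0 : ℤ) + a) < p ((0 : ℤ) + b) := by
    intro a ha b hb a1 ab b1
    obtain ⟨F, F1, F2, F3⟩ := hP.tr (1 / 3) A3 (1 / 2) A2 a ha b hb (by norm_num) (by norm_num)
      (by norm_num) a1 ab b1
    have e0 : F (e 0) = e 0 := F1 _ ((he' _).mpr ⟨0, rfl⟩)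
    have e1 : F (e 1) = e 1 := F1 _ ((he' _).mpr ⟨1, rfl⟩)
    have g1 : F u = p ((0 : ℤ) + a) := by
      refine huq2 0 a ha a1 (by linarith) _ (F2 u hu) ?_ ?_
      · rw [← e0]; exact F.strictMono h0
      · rw [zero_add, ← e1]; exact F.strictMono (huv.trans h1)
    have g2 : F v = p ((0 : ℤ) + b) := by
      refine huq2 0 b hb (by linarith) b1 _ (F3 v hv) ?_ ?_
      · rw [← e0]; exact F.strictMono (h0.trans huv)
      · rw [zero_add, ← e1]; exact F.strictMono h1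
    rw [← g1, ← g2]; exact F.strictMono huv
  have hs : ∀ a ∈ A6, ∀ b ∈ A6, 0 < a → a < b → b < 1 → ∀ i : ℤ, p (i + a) < p (i + b) := by
    intro a ha b hb a1 ab b1 i
    induction i with
    | zero => exact hs0 a ha b hb a1 ab b1
    | succ i ih => exact hsw a ha b hb a1 (by linarith) (by linarith) b1 ab.ne _ ih
    | pred i ih =>
      by_contra hcon
      have h2 := lt_of_le_of_ne (not_lt.mp hcon)
        (hpne b hb a ha (by linarith) b1 a1 (by linarith) ab.ne' _)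
      have h3 := hsw b hb a ha (by linarith) b1 a1 (by linarith) ab.ne' _ h2
      have e1 : (-(i : ℤ) - 1 + 1 : ℤ) = -(i : ℤ) := by ring
      rw [e1] at h3
      linarith
  refine ⟨p, fun x hx y hy hxy => ?_, hmem⟩
  have hfle : ⌊x⌋ ≤ ⌊y⌋ := Int.floor_mono hxy.le
  rcases hfle.eq_or_lt with h | h
  · have fx := Int.floor_le x
    have fy := Int.lt_floor_add_one y
    rcases fx.eq_or_lt with hx0 | hx0
    · -- x integer
      have gx := hp x hx
      have gy := hpt ⌊y⌋ (y - ⌊y⌋) (A6.sub_mem hy (A6.int _)) (by rw [← h]; linarith)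
        (by linarith)
      rw [add_sub_cancel] at gy
      have hPx : P x = P 0 := by
        have := hP.shift_int A6.zero_mem ⌊x⌋
        rw [zero_add, hx0] at this
        exact this
      have : p x = e ⌊x⌋ := by
        rw [hPx] at gx
        exact enum_uniq hP he he' A6.zero_mem gx.1 ((he' _).mpr ⟨_, rfl⟩) gx.2.1 gx.2.2 le_rfl
          (he (by omega))
      rw [this, h]; exact gy.2.1
    · have := hs (x - ⌊x⌋) (A6.sub_mem hx (A6.int _)) (y - ⌊x⌋) (A6.sub_mem hy (A6.int _))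
        (by linarith) (by linarith) (by rw [h]; linarith) ⌊x⌋
      rwa [add_sub_cancel, add_sub_cancel] at this
  · have gx := (hp x hx).2.2
    have gy := (hp y hy).2.1
    have : e (⌊x⌋ + 1) ≤ e ⌊y⌋ := he.monotone h
    linarith

end

/-- Enumeration of an interlaced family, up to reflection. -/
theorem enum {P : ℝ → Set ℝ} (hP : Fam P) :
    ∃ s : ℝ, (s = 1 ∨ s = -1) ∧ ∃ p : ℝ → ℝ, (∀ x ∈ A6, ∀ y ∈ A6, x < y → p x < p y) ∧
      ∀ x ∈ A6, ∀ w, w ∈ P (s * x) ↔ ∃ j : ℤ, w = p (x + j) := by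
  obtain ⟨e, he, he'⟩ := exEnum (hP.ne 0 A6.zero_mem) (hP.fin 0 A6.zero_mem)
    (hP.per 0 A6.zero_mem)
  have A3 : (1 / 3 : ℝ) ∈ A6 := by rw [one_div]; exact A6.third
  have A2 : (1 / 2 : ℝ) ∈ A6 := by rw [one_div]; exact A6.half
  have A23 : (2 / 3 : ℝ) ∈ A6 := by
    have := A6.add_mem A3 A3; norm_num at this; exact this
  have nint : ∀ c : ℝ, 0 < c → c < 1 → ∀ i : ℤ, c ≠ 0 + i := by
    intro c h1 h2 i hi
    have h3 : (0 : ℝ) < i := by linarith
    have h4 : (i : ℝ) < 1 := by linarith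
    have h5 : 0 < i := by exact_mod_cast h3
    have h6 : i < 1 := by exact_mod_cast h4
    omega
  have h01 : e 0 < e 1 := he (by norm_num)
  obtain ⟨u, hu, u1, u2⟩ := hP.inter 0 A6.zero_mem (1 / 3) A3 (nint _ (by norm_num) (by norm_num))
    (e 0) ((he' _).mpr ⟨0, rfl⟩) (e 1) ((he' _).mpr ⟨1, rfl⟩) h01
  obtain ⟨v, hv, v1, v2⟩ := hP.inter 0 A6.zero_mem (1 / 2) A2 (nint _ (by norm_num) (by norm_num))
    (e 0) ((he' _).mpr ⟨0, rfl⟩) (e 1) ((he' _).mpr ⟨1, rfl⟩) h01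
  rcases lt_trichotomy u v with h | h | h
  · refine ⟨1, Or.inl rfl, ?_⟩
    simp only [one_mul]
    exact enum_pos hP he he' hu hv u1 h v2
  · exfalso
    refine hP.disj (1 / 3) A3 (1 / 2) A2 ?_ u hu (h ▸ hv)
    intro i hi
    have h3 : (0 : ℝ) < i := by linarith
    have h4 : (i : ℝ) < 1 := by linarith
    have h5 : 0 < i := by exact_mod_cast h3
    have h6 : i < 1 := by exact_mod_cast h4
    omega
  · refine ⟨-1, Or.inr rfl, ?_⟩
    obtain ⟨F, F1, F2, F3⟩ := hP.tr (1 / 3) A3 (1 / 2) A2 (1 / 2) A2 (2 / 3) A23 (by norm_num)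
      (by norm_num) (by norm_num) (by norm_num) (by norm_num) (by norm_num)
    have e0 : F (e 0) = e 0 := F1 _ ((he' _).mpr ⟨0, rfl⟩)
    have e1 : F (e 1) = e 1 := F1 _ ((he' _).mpr ⟨1, rfl⟩)
    have g1 : F u = v := by
      refine enum_uniq hP he he' (i := 0) A2 (F2 u hu) hv ?_ ?_ v1.le (by simpa using v2)
      · rw [← e0]; exact F.monotone u1.le
      · rw [zero_add, ← e1]; exact F.strictMono u2
    have g2 : F v < v := by
      have := F.strictMono h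
      rwa [g1] at this
    have g3 : e 0 < F v := by rw [← e0]; exact F.strictMono v1
    have hP' := hP.neg
    have := enum_pos hP' he (by simpa using he') (u := F v) (v := v) ?_ ?_ g3 g2 v2
    · simpa using this
    · have e2 := hP.shift (-(1 / 3)) (A6.neg_mem A3)
      have e3 : (-(1 / 3) + 1 : ℝ) = 2 / 3 := by norm_num
      rw [e3] at e2
      change F v ∈ P (-(1 / 3))
      rw [← e2]; exact F3 v hv
    · have e2 := hP.shift (-(1 / 2)) (A6.neg_mem A2)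
      have e3 : (-(1 / 2) + 1 : ℝ) = 1 / 2 := by norm_num
      rw [e3] at e2
      change v ∈ P (-(1 / 2))
      rw [← e2]; exact hv

end Pool.Agent.Y329.T23
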