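import Pool.Agent.Y329.T23.Cone

/-!
# Triviality of the lifted data
-/

open Set Filter Topology

namespace Pool.Agent.Y329.T23

/-- Conjugation by `x ↦ -x`. -/
def negC (g : ℝ ≃o ℝ) : ℝ ≃o ℝ where
  toFun x := -g (-x)
  invFun x := -g⁻¹ (-x)
  left_inv x := by simp [RelIso.inv_apply_self]
  right_inv x := by simp [RelIso.apply_inv_self]
  map_rel_iff' := by
    intro a b
    change -g (-a) ≤ -g (-b) ↔ a ≤ b
    rw [neg_le_neg_iff, g.le_iff_le, neg_le_neg_iff]

lemma negC_apply (g : ℝ ≃o ℝ) (x : ℝ) : negC g x = -g (-x) := rfl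
lemma negC_mul (g h : ℝ ≃o ℝ) : negC (g * h) = negC g * negC h := by
  ext x; simp only [RelIso.mul_apply, negC_apply, neg_neg]
lemma negC_one : negC 1 = 1 := by
  ext x; rw [negC_apply]; change - -x = x; ring
lemma negC_inv (g : ℝ ≃o ℝ) : negC g⁻¹ = (negC g)⁻¹ := by
  rw [eq_inv_iff_mul_eq_one, ← negC_mul, inv_mul_cancel, negC_one]
lemma negC_negC (g : ℝ ≃o ℝ) : negC (negC g) = g := by
  ext x; simp only [negC_apply, neg_neg]
lemma negC_T (a : ℝ) : negC (T a) = T (-a) := by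
  ext x; simp only [negC_apply, T_apply]; ring

lemma tendsto_neg_le (x : ℝ) : Tendsto (fun y : ℝ => -y) (𝓝[≥] x) (𝓝[≤] (-x)) :=
  continuous_neg.continuousWithinAt.tendsto_nhdsWithin fun y hy => by
    simp only [mem_Iic]; exact neg_le_neg hy
lemma tendsto_neg_ge (x : ℝ) : Tendsto (fun y : ℝ => -y) (𝓝[≤] x) (𝓝[≥] (-x)) :=
  continuous_neg.continuousWithinAt.tendsto_nhdsWithin fun y hy => by
    simp only [mem_Ici]; exact neg_le_neg hy

lemma RG_negC {g : ℝ ≃o ℝ} {x l : ℝ} (h : LG g (-x) l) : RG (negC g) x l := by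
  unfold RG LG at *
  filter_upwards [(tendsto_neg_le x).eventually h] with y hy
  rw [negC_apply, negC_apply, hy]; ring
lemma LG_negC {g : ℝ ≃o ℝ} {x l : ℝ} (h : RG g (-x) l) : LG (negC g) x l := by
  unfold RG LG at *
  filter_upwards [(tendsto_neg_ge x).eventually h] with y hy
  rw [negC_apply, negC_apply, hy]; ring

lemma neg_mem_iff_A6 {x : ℝ} : -x ∈ A6 ↔ x ∈ A6 := neg_mem_iff

lemma Per_negC {g : ℝ ≃o ℝ} (h : Per 1 1 g) : Per 1 1 (negC g) := by
  refine ⟨⟨fun x => ?_, fun x => ?_⟩, fun x => ?_⟩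
  · rw [negC_apply, neg_mem_iff_A6, h.1.1, neg_mem_iff_A6]
  · obtain ⟨l, hl, m, hm, h1, h2, h3⟩ := h.1.2 (-x)
    exact ⟨m, hm, l, hl, RG_negC h2, LG_negC h1, fun hx => (h3 (fun h' => hx
      (neg_mem_iff_A6.mp h'))).symm⟩
  · rw [negC_apply, negC_apply]
    have := h.2 (-(x + 1))
    rw [show -(x + 1) + 1 = -x by ring] at this
    linarith

/-- reflected data -/
def refl (Γ : Subgroup G2) : Subgroup G2 where
  carrier := {q | ((negC q.1, q.2) : G2) ∈ Γ}
  mul_mem' := by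
    intro q r hq hr
    have := mul_mem (show ((negC q.1, q.2) : G2) ∈ Γ from hq)
      (show ((negC r.1, r.2) : G2) ∈ Γ from hr)
    rw [Prod.mk_mul_mk, ← negC_mul] at this
    exact this
  one_mem' := by
    change ((negC 1, 1) : G2) ∈ Γ
    rw [negC_one]; exact one_mem _
  inv_mem' := by
    intro q hq
    have := inv_mem (show ((negC q.1, q.2) : G2) ∈ Γ from hq)
    rw [Prod.inv_mk, ← negC_inv] at this
    exact this

lemma mem_refl {Γ : Subgroup G2} {q : G2} : q ∈ refl Γ ↔ ((negC q.1, q.2) : G2) ∈ Γ := Iff.rfl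

lemma Core.refl {Γ : Subgroup G2} (h : Core Γ) : Core (refl Γ) where
  sub := fun q hq => by
    have := Per_negC (h.sub _ hq)
    rwa [negC_negC] at this
  surj := fun g hg => h.surj _ (Per_negC hg)
  ker := fun F hF => h.ker F (by
    have := mem_refl.mp hF
    rwa [negC_one] at this)
  T1 := by
    rw [mem_refl, negC_one]; exact h.T1
  T1' := by
    rw [mem_refl, negC_T]
    have := kerT' h (-1)
    push_cast at this; exact this
  deg := fun q hq => h.deg (negC q.1, q.2) (mem_refl.mp hq)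

lemma CC.refl {Γ : Subgroup G2} (h : CC Γ) : CC (refl Γ) :=
  fun q hq => h (negC q.1, q.2) (mem_refl.mp hq)

theorem core_trivial {Γ : Subgroup G2} (hΓ : Core Γ) (hc : CC Γ) :
    ∀ q ∈ Γ, ∃ m : ℤ, q.2 = T m := by
  by_contra hcon
  have hD : Dj Γ := fun x hx y hy hxy v hvx hvy => hcon (triv hΓ hx hy hxy hvx hvy)
  obtain ⟨s, hs, p, hp1, hp2⟩ := enum (Px_fam hΓ hD)
  rcases hs with rfl | rfl
  · have hE : En (Px Γ) p := ⟨hp1, by simpa using hp2⟩
    obtain ⟨p', hp'⟩ := exists_semi hΓ (fun q hq x hx v hv => Px_equiv hΓ hq hx hv) hE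
    exact no_semi hΓ hc hp'
  · have hE : En (fun x => Px Γ (-x)) p := ⟨hp1, by simpa using hp2⟩
    obtain ⟨p', hp'⟩ := exists_semi hΓ.refl (P := fun x => Px Γ (-x)) (fun q hq x hx v hv => by
      have := Px_equiv hΓ (mem_refl.mp hq) (A6.neg_mem hx) hv
      simp only [negC_apply, neg_neg] at this
      exact this) hE
    exact no_semi hΓ.refl hc.refl hp'

end Pool.Agent.Y329.T23
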