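import Pool.Agent.Y329.T23.Gen

/-!
# Fixed points of the commutator subgroups of the local groups
-/

open Set Filter Topology
open scoped commutatorElement

namespace Pool.Agent.Y329.T23

/-- degree one lifts -/
def Deg (F : ℝ ≃o ℝ) : Prop := ∀ x, F (x + 1) = F x + 1

lemma Deg.int {F : ℝ ≃o ℝ} (h : Deg F) (x : ℝ) (m : ℤ) : F (x + m) = F x + m := by
  have := per_int h x m
  simpa using this
lemma Deg.sub_int {F : ℝ ≃o ℝ} (h : Deg F) (x : ℝ) (m : ℤ) : F (x - m) = F x - m := by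
  have := h.int x (-m)
  push_cast at this
  rw [← sub_eq_add_neg, ← sub_eq_add_neg] at this
  exact this
lemma Deg.mul {F G : ℝ ≃o ℝ} (hF : Deg F) (hG : Deg G) : Deg (F * G) := fun x => by
  rw [RelIso.mul_apply, RelIso.mul_apply, hG, hF]
lemma Deg.inv {F : ℝ ≃o ℝ} (hF : Deg F) : Deg F⁻¹ := fun x => by
  apply F.injective
  rw [RelIso.apply_inv_self, hF, RelIso.apply_inv_self]

lemma disp {F : ℝ ≃o ℝ} (h : Deg F) (u v : ℝ) : |(F u - u) - (F v - v)| < 1 := by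
  have h1 := Int.floor_le (u - v)
  have h2 := Int.lt_floor_add_one (u - v)
  have h3 := h.int v ⌊u - v⌋
  have h4 := h.int v (⌊u - v⌋ + 1)
  have h5 : F (v + ⌊u - v⌋) ≤ F u := F.monotone (by linarith)
  have h6 : F u < F (v + (⌊u - v⌋ + 1 : ℤ)) := F.strictMono (by push_cast; linarith)
  push_cast at h4 h6
  rw [abs_lt]; constructor <;> linarith

lemma comm_disp {A B : ℝ ≃o ℝ} (hA : Deg A) (hB : Deg B) (z : ℝ) : |⁅A, B⁆ z - z| < 2 := by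
  set u := A⁻¹ (B⁻¹ z) with hu
  have h1 : z = B (A u) := by rw [hu, RelIso.apply_inv_self, RelIso.apply_inv_self]
  have h2 : ⁅A, B⁆ z = A (B u) := by
    rw [commutatorElement_def]; simp only [RelIso.mul_apply]; rw [hu]
  rw [h2]
  conv_lhs => rw [h1]
  have h3 := disp hA (B u) u
  have h4 := disp hB (A u) u
  rw [abs_lt] at *
  constructor <;> linarith

lemma comm_zero {A B : ℝ ≃o ℝ} (hA : Deg A) (hB : Deg B) {m : ℤ} (h : A * B = T m * (B * A)) :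
    m = 0 := by
  have hx : ∀ y, A (B y) = B (A y) + m := by
    intro y
    have := congrArg (fun F : ℝ ≃o ℝ => F y) h
    simpa [RelIso.mul_apply] using this
  set u := A⁻¹ 0 with hu
  have hAu : A u = 0 := RelIso.apply_inv_self _ _
  have h1 : A (B (B u)) = B (B 0) + (m + m : ℤ) := by
    rw [hx, hx, hB.int, hAu]; push_cast; ring
  have h2 := disp hA (B (B u)) u
  have h3 := disp (hB.mul hB) u 0
  rw [RelIso.mul_apply, RelIso.mul_apply] at h3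
  rw [h1, hAu] at h2
  push_cast at h2
  rw [abs_lt] at h2 h3
  have h4 : (m : ℝ) < 1 := by linarith
  have h5 : (-1 : ℝ) < m := by linarith
  have h6 : m < 1 := by exact_mod_cast h4
  have h7 : -1 < m := by exact_mod_cast h5
  omega

/-- Disjoint supports commute. -/
lemma supp_comm {a b : ℝ ≃o ℝ} (ha : Deg a) (hb : Deg b) {u v : ℝ}
    (ha' : ∀ x, v ≤ x → x ≤ u + 1 → a x = x) (hb' : ∀ x, u ≤ x → x ≤ v → b x = x)
    (huv : u ≤ v) (hvu : v ≤ u + 1) : a * b = b * a := by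
  ext y
  have e1 := Int.lt_floor_add_one (y - u)
  have e2 := Int.floor_le (y - u)
  have h1 := (ha.mul hb).int (y - ⌊y - u⌋) ⌊y - u⌋
  have h2 := (hb.mul ha).int (y - ⌊y - u⌋) ⌊y - u⌋
  rw [sub_add_cancel] at h1 h2
  rw [h1, h2]
  congr 1
  set w := y - ⌊y - u⌋ with hw
  have w1 : u ≤ w := by linarith
  have w2 : w ≤ u + 1 := by linarith
  rw [RelIso.mul_apply, RelIso.mul_apply]
  have hau : a u = u := by
    have := ha u
    rw [ha' (u + 1) hvu le_rfl] at this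
    linarith
  have hav : a v = v := ha' v le_rfl hvu
  have hbu : b u = u := hb' u le_rfl huv
  have hbv : b v = v := hb' v huv le_rfl
  have hbu1 : b (u + 1) = u + 1 := by rw [hb, hbu]
  rcases le_total w v with h | h
  · rw [hb' w w1 h]
    have g1 : u ≤ a w := by rw [← hau]; exact a.monotone w1
    have g2 : a w ≤ v := by rw [← hav]; exact a.monotone h
    rw [hb' _ g1 g2]
  · rw [ha' w h w2]
    have g1 : v ≤ b w := by rw [← hbv]; exact b.monotone h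
    have g2 : b w ≤ u + 1 := by rw [← hbu1]; exact b.monotone w2
    rw [ha' _ g1 g2]

/-- pairs of order isomorphisms -/
abbrev G2 := (ℝ ≃o ℝ) × (ℝ ≃o ℝ)

/-- The data of a lifted action: pairs (element of the lifted group, lift of its image). -/
structure Core (Γ : Subgroup G2) : Prop where
  sub : ∀ p ∈ Γ, Per 1 1 p.1
  surj : ∀ g, Per 1 1 g → ∃ F, (g, F) ∈ Γ
  ker : ∀ F, ((1, F) : G2) ∈ Γ → ∃ m : ℤ, F = T m
  T1 : ((1, T 1) : G2) ∈ Γ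
  T1' : ((T 1, 1) : G2) ∈ Γ
  deg : ∀ p ∈ Γ, Deg p.2

section
variable {Γ : Subgroup G2}

/-- elements equal to the identity on `[x-ε,x+ε]` -/
def Le (Γ : Subgroup G2) (x ε : ℝ) : Subgroup G2 where
  carrier := {p | p ∈ Γ ∧ ∀ y, |y - x| ≤ ε → p.1 y = y}
  mul_mem' := by
    rintro p q ⟨hp, hp'⟩ ⟨hq, hq'⟩
    refine ⟨Γ.mul_mem hp hq, fun y hy => ?_⟩
    rw [Prod.fst_mul, RelIso.mul_apply, hq' y hy, hp' y hy]
  one_mem' := ⟨Γ.one_mem, fun _ _ => rfl⟩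
  inv_mem' := by
    rintro p ⟨hp, hp'⟩
    exact ⟨Γ.inv_mem hp, fun y hy => inv_eq_of (hp' y hy)⟩

/-- elements equal to the identity near `x` -/
def Lx (Γ : Subgroup G2) (x : ℝ) : Subgroup G2 where
  carrier := {p | p ∈ Γ ∧ ∀ᶠ y in 𝓝 x, p.1 y = y}
  mul_mem' := by
    rintro p q ⟨hp, hp'⟩ ⟨hq, hq'⟩
    refine ⟨Γ.mul_mem hp hq, ?_⟩
    filter_upwards [hp', hq'] with y h1 h2
    rw [Prod.fst_mul, RelIso.mul_apply, h2, h1]
  one_mem' := ⟨Γ.one_mem, Eventually.of_forall fun _ => rfl⟩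
  inv_mem' := by
    rintro p ⟨hp, hp'⟩
    refine ⟨Γ.inv_mem hp, ?_⟩
    filter_upwards [hp'] with y h1
    exact inv_eq_of h1

/-- the commutator subgroup -/
def Nx (Γ : Subgroup G2) (x : ℝ) : Subgroup G2 :=
  Subgroup.closure {n | ∃ a ∈ Lx Γ x, ∃ b ∈ Lx Γ x, n = ⁅a, b⁆}

lemma Le_mono {x ε ε' : ℝ} (h : ε' ≤ ε) : Le Γ x ε ≤ Le Γ x ε' :=
  fun _ hp => ⟨hp.1, fun y hy => hp.2 y (hy.trans h)⟩

lemma Lx_ex {x : ℝ} {p : G2} (hp : p ∈ Lx Γ x) : ∃ ε > 0, p ∈ Le Γ x ε := by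
  obtain ⟨δ, hδ, h⟩ := Metric.eventually_nhds_iff.mp hp.2
  exact ⟨δ / 2, by linarith, hp.1, fun y hy => h (by rw [Real.dist_eq]; linarith)⟩

lemma Nx_le (x : ℝ) : Nx Γ x ≤ Lx Γ x := by
  rw [Nx, Subgroup.closure_le]
  rintro n ⟨a, ha, b, hb, rfl⟩
  rw [commutatorElement_def]
  exact (Lx Γ x).mul_mem ((Lx Γ x).mul_mem ((Lx Γ x).mul_mem ha hb) ((Lx Γ x).inv_mem ha))
    ((Lx Γ x).inv_mem hb)

lemma Nx_bd (hΓ : Core Γ) {x : ℝ} {p : G2} (hp : p ∈ Nx Γ x) :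
    ∃ ε > 0, p ∈ Le Γ x ε ∧ ∃ r : ℝ, ∀ Ψ : G2 → G2, (∀ a ∈ Le Γ x ε, Ψ a ∈ Γ) →
      (∀ a ∈ Le Γ x ε, ∀ b ∈ Le Γ x ε, Ψ (a * b) = Ψ a * Ψ b) → ∀ z, |(Ψ p).2 z - z| ≤ r := by
  have hΨ1 : ∀ (ε : ℝ) (Ψ : G2 → G2),
      (∀ a ∈ Le Γ x ε, ∀ b ∈ Le Γ x ε, Ψ (a * b) = Ψ a * Ψ b) → Ψ 1 = 1 := by
    intro ε Ψ h
    have := h 1 (one_mem _) 1 (one_mem _)
    rw [one_mul] at this
    exact (mul_eq_left.mp this.symm)
  have hΨi : ∀ (ε : ℝ) (Ψ : G2 → G2),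
      (∀ a ∈ Le Γ x ε, ∀ b ∈ Le Γ x ε, Ψ (a * b) = Ψ a * Ψ b) → ∀ a ∈ Le Γ x ε,
      Ψ a⁻¹ = (Ψ a)⁻¹ := by
    intro ε Ψ h a ha
    have := h a ha a⁻¹ (inv_mem ha)
    rw [mul_inv_cancel, hΨ1 ε Ψ h] at this
    exact (inv_eq_of_mul_eq_one_right this.symm).symm
  induction hp using Subgroup.closure_induction with
  | mem n hn =>
    obtain ⟨a, ha, b, hb, rfl⟩ := hn
    obtain ⟨ε1, h1, ha'⟩ := Lx_ex ha
    obtain ⟨ε2, h2, hb'⟩ := Lx_ex hb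
    have ha2 := Le_mono (min_le_left ε1 ε2) ha'
    have hb2 := Le_mono (min_le_right ε1 ε2) hb'
    refine ⟨min ε1 ε2, lt_min h1 h2, ?_, 2, fun Ψ hΨ hm z => ?_⟩
    · rw [commutatorElement_def]
      exact mul_mem (mul_mem (mul_mem ha2 hb2) (inv_mem ha2)) (inv_mem hb2)
    · have e : Ψ ⁅a, b⁆ = ⁅Ψ a, Ψ b⁆ := by
        rw [commutatorElement_def, commutatorElement_def,
          hm _ (mul_mem (mul_mem ha2 hb2) (inv_mem ha2)) _ (inv_mem hb2),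
          hm _ (mul_mem ha2 hb2) _ (inv_mem ha2), hm _ ha2 _ hb2, hΨi _ Ψ hm _ ha2,
          hΨi _ Ψ hm _ hb2]
      rw [e]
      have e2 : (⁅Ψ a, Ψ b⁆).2 = ⁅(Ψ a).2, (Ψ b).2⁆ := by
        simp only [commutatorElement_def]; rfl
      rw [e2]
      exact (comm_disp (hΓ.deg _ (hΨ a ha2)) (hΓ.deg _ (hΨ b hb2)) z).le
  | one =>
    refine ⟨1, one_pos, one_mem _, 0, fun Ψ hΨ hm z => ?_⟩
    rw [hΨ1 _ Ψ hm]
    simp
  | mul a b _ _ iha ihb =>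
    obtain ⟨ε1, h1, ha', r1, hr1⟩ := iha
    obtain ⟨ε2, h2, hb', r2, hr2⟩ := ihb
    have l1 : Le Γ x ε1 ≤ Le Γ x (min ε1 ε2) := Le_mono (min_le_left ε1 ε2)
    have l2 : Le Γ x ε2 ≤ Le Γ x (min ε1 ε2) := Le_mono (min_le_right ε1 ε2)
    refine ⟨min ε1 ε2, lt_min h1 h2, mul_mem (l1 ha') (l2 hb'), r1 + r2, fun Ψ hΨ hm z => ?_⟩
    have g1 := hr1 Ψ (fun a ha => hΨ a (l1 ha)) (fun a ha b hb => hm a (l1 ha) b (l1 hb))
    have g2 := hr2 Ψ (fun a ha => hΨ a (l2 ha)) (fun a ha b hb => hm a (l2 ha) b (l2 hb))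
    rw [hm _ (l1 ha') _ (l2 hb'), Prod.snd_mul, RelIso.mul_apply]
    have g3 := g1 ((Ψ b).2 z)
    have g4 := g2 z
    rw [abs_le] at *
    constructor <;> linarith
  | inv a _ iha =>
    obtain ⟨ε1, h1, ha', r1, hr1⟩ := iha
    refine ⟨ε1, h1, inv_mem ha', r1, fun Ψ hΨ hm z => ?_⟩
    rw [hΨi _ Ψ hm _ ha', Prod.snd_inv]
    have := hr1 Ψ hΨ hm ((Ψ a).2⁻¹ z)
    rw [RelIso.apply_inv_self] at this
    rw [abs_sub_comm]; exact this

/-- growth -/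
def Gro (m : ℤ) (F : ℝ ≃o ℝ) : Prop := ∀ y, y + m ≤ F (F y)

lemma Gro.conj {m : ℤ} {F C : ℝ ≃o ℝ} (hC : Deg C) (h : Gro m F) : Gro m (C * F * C⁻¹) := by
  intro y
  simp only [RelIso.mul_apply, RelIso.inv_apply_self]
  have := C.monotone (h (C⁻¹ y))
  rw [hC.int, RelIso.apply_inv_self] at this
  exact this

lemma comm_lift (hΓ : Core Γ) {p q : G2} (hp : p ∈ Γ) (hq : q ∈ Γ) (h : p.1 * q.1 = q.1 * p.1) :
    p * q = q * p := by
  have h1 : ⁅p, q⁆ ∈ Γ := by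
    rw [commutatorElement_def]
    exact mul_mem (mul_mem (mul_mem hp hq) (inv_mem hp)) (inv_mem hq)
  have h2 : ⁅p, q⁆ = ((1, ⁅p.2, q.2⁆) : G2) := by
    apply Prod.ext
    · change ⁅p.1, q.1⁆ = 1
      rw [commutatorElement_def, h]; group
    · rfl
  rw [h2] at h1
  obtain ⟨m, hm⟩ := hΓ.ker _ h1
  have h3 : p.2 * q.2 = T m * (q.2 * p.2) := by
    rw [← hm, commutatorElement_def]; group
  have h4 := comm_zero (hΓ.deg p hp) (hΓ.deg q hq) h3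
  subst h4
  apply Prod.ext
  · exact h
  · change p.2 * q.2 = q.2 * p.2
    rw [h3]; simp [T_zero]

/-- The doubling map. -/
lemma doubling (hΓ : Core Γ) {x : ℝ} (hx : x ∈ A6) {ε : ℝ} (hε : 0 < ε) :
    ∃ Ψ : G2 → G2, (∀ a ∈ Le Γ x ε, Ψ a ∈ Le Γ x (1 / 6)) ∧
      (∀ a ∈ Le Γ x ε, ∀ b ∈ Le Γ x ε, Ψ (a * b) = Ψ a * Ψ b) ∧
      ∀ a ∈ Le Γ x ε, ∀ m : ℤ, Gro m a.2 → Gro (2 * m) (Ψ a).2 := by
  obtain ⟨e, he, e1, e2⟩ := A6.exists_between (show 0 < min ε (1 / 2) from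
    lt_min hε (by norm_num))
  have e3 := lt_min_iff.mp e2
  have a6 : ∀ k : ℕ, (k : ℝ) / 6 ∈ A6 := fun k => by
    rw [div_eq_mul_inv]; exact A6.mul_mem (A6.nat k) A6.sixth
  have h1 : x + e ∈ A6 := A6.add_mem hx he
  have h2 : x + 1 - e ∈ A6 := A6.sub_mem (A6.add_mem hx A6.one_mem) he
  obtain ⟨c1, hc1, c11, c12⟩ := conn2 h1 h2 (A6.add_mem hx (a6 1)) (A6.add_mem hx (a6 2))
    (by linarith) (by push_cast; linarith) (by linarith) (by push_cast; linarith)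
  obtain ⟨c2, hc2, c21, c22⟩ := conn2 h1 h2 (A6.add_mem hx (a6 3)) (A6.add_mem hx (a6 4))
    (by linarith) (by push_cast; linarith) (by linarith) (by push_cast; linarith)
  push_cast at c11 c12 c21 c22
  obtain ⟨C1, hC1⟩ := hΓ.surj c1 hc1
  obtain ⟨C2, hC2⟩ := hΓ.surj c2 hc2
  -- action on supports
  have hid1 : ∀ a ∈ Le Γ x ε, ∀ y, x + 1 / 3 ≤ y → y ≤ x + 1 / 6 + 1 →
      (c1 * a.1 * c1⁻¹) y = y := by
    intro a ha y hy1 hy2
    simp only [RelIso.mul_apply]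
    have g1 : x + 1 - e ≤ c1⁻¹ y := by
      rw [← inv_eq_of c12]; exact (c1⁻¹).monotone (by linarith)
    have g2 : c1⁻¹ y ≤ x + e + 1 := by
      have : c1⁻¹ (x + 1 / 6 + 1) = x + e + 1 := inv_eq_of (by rw [hc1.2, c11])
      rw [← this]; exact (c1⁻¹).monotone hy2
    have g3 : a.1 (c1⁻¹ y) = c1⁻¹ y := by
      have := ha.2 (c1⁻¹ y - 1) (by rw [abs_le]; constructor <;> linarith)
      have h := (hΓ.sub a ha.1).2 (c1⁻¹ y - 1)
      rw [sub_add_cancel, this, sub_add_cancel] at h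
      exact h
    rw [g3, RelIso.apply_inv_self]
  have hid2 : ∀ a ∈ Le Γ x ε, ∀ y, x + 2 / 3 ≤ y → y ≤ x + 1 / 2 + 1 →
      (c2 * a.1 * c2⁻¹) y = y := by
    intro a ha y hy1 hy2
    simp only [RelIso.mul_apply]
    have g1 : x + 1 - e ≤ c2⁻¹ y := by
      rw [← inv_eq_of c22]; exact (c2⁻¹).monotone (by linarith)
    have g2 : c2⁻¹ y ≤ x + e + 1 := by
      have : c2⁻¹ (x + 1 / 2 + 1) = x + e + 1 := inv_eq_of (by rw [hc2.2, c21]; ring)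
      rw [← this]; exact (c2⁻¹).monotone hy2
    have g3 : a.1 (c2⁻¹ y) = c2⁻¹ y := by
      have := ha.2 (c2⁻¹ y - 1) (by rw [abs_le]; constructor <;> linarith)
      have h := (hΓ.sub a ha.1).2 (c2⁻¹ y - 1)
      rw [sub_add_cancel, this, sub_add_cancel] at h
      exact h
    rw [g3, RelIso.apply_inv_self]
  have hdeg : ∀ {a : G2}, a ∈ Γ → Deg a.1 := fun ha => (hΓ.sub _ ha).2
  have hid2' : ∀ a ∈ Le Γ x ε, ∀ y, x + 1 / 6 ≤ y → y ≤ x + 1 / 2 →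
      (c2 * a.1 * c2⁻¹) y = y := by
    intro a ha y hy1 hy2
    have h := hid2 a ha (y + 1) (by linarith) (by linarith)
    have hd : Deg (c2 * a.1 * c2⁻¹) := (Deg.mul (Deg.mul hc2.2 (hdeg ha.1)) (Deg.inv hc2.2))
    rw [hd] at h
    linarith
  set P1 : G2 := (c1, C1) with hP1
  set P2 : G2 := (c2, C2) with hP2
  have hcomm : ∀ a ∈ Le Γ x ε, ∀ b ∈ Le Γ x ε,
      (P1 * a * P1⁻¹) * (P2 * b * P2⁻¹) = (P2 * b * P2⁻¹) * (P1 * a * P1⁻¹) := by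
    intro a ha b hb
    refine comm_lift hΓ (mul_mem (mul_mem hC1 ha.1) (inv_mem hC1))
      (mul_mem (mul_mem hC2 hb.1) (inv_mem hC2)) ?_
    refine supp_comm (u := x + 1 / 6) (v := x + 1 / 2) ?_ ?_ ?_ ?_ (by linarith) (by linarith)
    · exact (Deg.mul (Deg.mul hc1.2 (hdeg ha.1)) (Deg.inv hc1.2))
    · exact (Deg.mul (Deg.mul hc2.2 (hdeg hb.1)) (Deg.inv hc2.2))
    · intro y hy1 hy2
      exact hid1 a ha y (by linarith) (by linarith)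
    · exact hid2' b hb
  refine ⟨fun a => (P1 * a * P1⁻¹) * (P2 * a * P2⁻¹), fun a ha => ⟨?_, fun y hy => ?_⟩,
    fun a ha b hb => ?_, fun a ha m hm => ?_⟩
  · exact mul_mem (mul_mem (mul_mem hC1 ha.1) (inv_mem hC1))
      (mul_mem (mul_mem hC2 ha.1) (inv_mem hC2))
  · rw [abs_le] at hy
    change (c1 * a.1 * c1⁻¹) ((c2 * a.1 * c2⁻¹) y) = y
    have h2 : (c2 * a.1 * c2⁻¹) y = y := by
      have h := hid2 a ha (y + 1) (by linarith) (by linarith)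
      have hd : Deg (c2 * a.1 * c2⁻¹) := (Deg.mul (Deg.mul hc2.2 (hdeg ha.1)) (Deg.inv hc2.2))
      rw [hd] at h
      linarith
    rw [h2]
    have h := hid1 a ha (y + 1) (by linarith) (by linarith)
    have hd : Deg (c1 * a.1 * c1⁻¹) := (Deg.mul (Deg.mul hc1.2 (hdeg ha.1)) (Deg.inv hc1.2))
    rw [hd] at h
    linarith
  · have h := hcomm b hb a ha
    have e1 : P1 * (a * b) * P1⁻¹ * (P2 * (a * b) * P2⁻¹) =
        (P1 * a * P1⁻¹) * ((P1 * b * P1⁻¹) * (P2 * a * P2⁻¹)) * (P2 * b * P2⁻¹) := by group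
    change P1 * (a * b) * P1⁻¹ * (P2 * (a * b) * P2⁻¹) = _
    rw [e1, h]; group
  · set F1 := C1 * a.2 * C1⁻¹ with hF1
    set F2 := C2 * a.2 * C2⁻¹ with hF2
    have k1 : Gro m F1 := hm.conj (hΓ.deg _ hC1)
    have k2 : Gro m F2 := hm.conj (hΓ.deg _ hC2)
    have k3 : F1 * F2 = F2 * F1 := congrArg Prod.snd (hcomm a ha a ha)
    have k4 : ∀ z, F1 (F2 z) = F2 (F1 z) := fun z => by
      have := congrArg (fun F : ℝ ≃o ℝ => F z) k3
      exact this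
    intro y
    change y + ((2 * m : ℤ) : ℝ) ≤ F1 (F2 (F1 (F2 y)))
    rw [← k4 (F2 y)]
    have l1 := k1 (F2 (F2 y))
    have l2 := k2 y
    push_cast
    linarith

lemma iter (hΓ : Core Γ) {x : ℝ} (hx : x ∈ A6) {ε : ℝ} (hε : 0 < ε) (k : ℕ) :
    ∃ ε' > 0, ∃ Ψ : G2 → G2, (∀ a ∈ Le Γ x ε, Ψ a ∈ Le Γ x ε') ∧
      (∀ a ∈ Le Γ x ε, ∀ b ∈ Le Γ x ε, Ψ (a * b) = Ψ a * Ψ b) ∧
      ∀ a ∈ Le Γ x ε, Gro 1 a.2 → Gro (2 ^ k) (Ψ a).2 := by
  induction k with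
  | zero => exact ⟨ε, hε, id, fun _ h => h, fun _ _ _ _ => rfl, fun a _ h => by simpa using h⟩
  | succ k ih =>
    obtain ⟨ε', hε', Ψ, h1, h2, h3⟩ := ih
    obtain ⟨Φ, g1, g2, g3⟩ := doubling hΓ hx hε'
    refine ⟨1 / 6, by norm_num, Φ ∘ Ψ, fun a ha => g1 _ (h1 a ha), fun a ha b hb => ?_,
      fun a ha hm => ?_⟩
    · simp only [Function.comp]
      rw [h2 a ha b hb, g2 _ (h1 a ha) _ (h1 b hb)]
    · have := g3 _ (h1 a ha) _ (h3 a ha hm)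
      rw [pow_succ, mul_comm]; exact this

lemma no_growth (hΓ : Core Γ) {x : ℝ} (hx : x ∈ A6) {p : G2} (hp : p ∈ Nx Γ x) (z : ℝ) :
    p.2 z < z + 1 := by
  by_contra hcon
  push Not at hcon
  obtain ⟨ε, hε, hpe, r, hr⟩ := Nx_bd hΓ hp
  have hdeg := hΓ.deg p hpe.1
  have hgro : Gro 1 p.2 := by
    intro y
    have f1 := Int.floor_le (y - z)
    have f2 := Int.lt_floor_add_one (y - z)
    have h1 : p.2 (p.2 (z + ⌊y - z⌋)) ≤ p.2 (p.2 y) :=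
      p.2.monotone (p.2.monotone (by linarith))
    rw [hdeg.int, hdeg.int] at h1
    have h2 : p.2 (z + 1) ≤ p.2 (p.2 z) := p.2.monotone hcon
    rw [hdeg] at h2
    push_cast
    linarith
  obtain ⟨k, hk⟩ := pow_unbounded_of_one_lt (2 * r) (show (1 : ℝ) < 2 by norm_num)
  obtain ⟨ε', hε', Ψ, h1, h2, h3⟩ := iter hΓ hx hε k
  have h4 := hr Ψ (fun a ha => (h1 a ha).1) h2
  have h5 := h3 p hpe hgro 0
  have h6 := h4 0
  have h7 := h4 ((Ψ p).2 0)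
  rw [abs_le] at h6 h7
  push_cast at h5
  linarith

/-- common fixed points -/
def X (Γ : Subgroup G2) (x : ℝ) : Set ℝ := {v | ∀ p ∈ Nx Γ x, p.2 v = v}

lemma X_nonempty (hΓ : Core Γ) {x : ℝ} (hx : x ∈ A6) : (X Γ x).Nonempty := by
  set O : Set ℝ := {v | ∃ p ∈ Nx Γ x, v = p.2 0} with hO
  have hne : O.Nonempty := ⟨0, 1, one_mem _, rfl⟩
  have hbd : BddAbove O := by
    refine ⟨1, ?_⟩
    rintro v ⟨p, hp, rfl⟩
    have := no_growth hΓ hx hp 0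
    linarith
  have key : ∀ p ∈ Nx Γ x, p.2 (sSup O) ≤ sSup O := by
    intro p hp
    have h1 : sSup O ≤ p.2⁻¹ (sSup O) := by
      refine csSup_le hne ?_
      rintro v ⟨q, hq, rfl⟩
      have : p.2 (q.2 0) ≤ sSup O := le_csSup hbd ⟨p * q, mul_mem hp hq, rfl⟩
      have h2 := (p.2⁻¹).monotone this
      rwa [RelIso.inv_apply_self] at h2
    have h2 := p.2.monotone h1
    rwa [RelIso.apply_inv_self] at h2
  refine ⟨sSup O, fun p hp => le_antisymm (key p hp) ?_⟩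
  have h1 := key p⁻¹ (inv_mem hp)
  have h2 := p.2.monotone h1
  rw [Prod.snd_inv, RelIso.apply_inv_self] at h2
  exact h2

lemma Nx_conj {x : ℝ} {p n : G2} (hp : p ∈ Γ) (hn : n ∈ Nx Γ x) : p * n * p⁻¹ ∈ Nx Γ (p.1 x) := by
  have hL : ∀ a ∈ Lx Γ x, p * a * p⁻¹ ∈ Lx Γ (p.1 x) := by
    rintro a ⟨ha, ha'⟩
    refine ⟨mul_mem (mul_mem hp ha) (inv_mem hp), ?_⟩
    have ht : Tendsto (p.1⁻¹ : ℝ ≃o ℝ) (𝓝 (p.1 x)) (𝓝 x) := by
      have := (p.1⁻¹).continuous.tendsto (p.1 x)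
      rwa [RelIso.inv_apply_self] at this
    filter_upwards [ht.eventually ha'] with y hy
    change p.1 (a.1 (p.1⁻¹ y)) = y
    rw [hy, RelIso.apply_inv_self]
  induction hn using Subgroup.closure_induction with
  | mem n hn =>
    obtain ⟨a, ha, b, hb, rfl⟩ := hn
    apply Subgroup.subset_closure
    refine ⟨_, hL a ha, _, hL b hb, ?_⟩
    simp only [commutatorElement_def]; group
  | one => simp
  | mul a b _ _ iha ihb =>
    have : p * (a * b) * p⁻¹ = (p * a * p⁻¹) * (p * b * p⁻¹) := by group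
    rw [this]; exact Subgroup.mul_mem _ iha ihb
  | inv a _ iha =>
    have : p * a⁻¹ * p⁻¹ = (p * a * p⁻¹)⁻¹ := by group
    rw [this]; exact Subgroup.inv_mem _ iha

lemma X_equiv {x : ℝ} {p : G2} (hp : p ∈ Γ) {v : ℝ} : p.2 v ∈ X Γ (p.1 x) ↔ v ∈ X Γ x := by
  constructor
  · intro h n hn
    have h1 := h _ (Nx_conj hp hn)
    have h2 : p.2 (n.2 (p.2⁻¹ (p.2 v))) = p.2 v := h1
    rw [RelIso.inv_apply_self] at h2
    exact p.2.injective h2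
  · intro h n hn
    have h1 := Nx_conj (inv_mem hp) hn
    have e : (p⁻¹).1 (p.1 x) = x := by
      rw [Prod.fst_inv, RelIso.inv_apply_self]
    rw [e] at h1
    have h2 := h _ h1
    have h3 : p.2⁻¹ (n.2 (p.2⁻¹⁻¹ v)) = v := h2
    rw [inv_inv] at h3
    have h4 := congrArg p.2 h3
    rwa [RelIso.apply_inv_self] at h4

lemma X_closed (x : ℝ) : IsClosed (X Γ x) := by
  have : X Γ x = ⋂ p ∈ Nx Γ x, {v | p.2 v = v} := by
    ext v; simp [X]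
  rw [this]
  refine isClosed_biInter fun p _ => isClosed_eq p.2.continuous continuous_id

lemma X_add_one (hΓ : Core Γ) {x v : ℝ} : v + 1 ∈ X Γ x ↔ v ∈ X Γ x :=
  X_equiv (x := x) hΓ.T1

lemma X_shift (hΓ : Core Γ) {x : ℝ} : X Γ (x + 1) = X Γ x := by
  ext v
  exact X_equiv (x := x) hΓ.T1'

end
end Pool.Agent.Y329.T23
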