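import Pool.Agent.Y329.T23.Elem

/-!
# Generation of the lifted group
-/

open Set Filter Topology
open scoped commutatorElement

namespace Pool.Agent.Y329.T23

/-- generators -/
def SG : Set (ℝ ≃o ℝ) := {h | h = T 1 ∨ ∃ z ∈ A6, h ∈ Hn z}

lemma frag {g : ℝ ≃o ℝ} (hg : Per 1 1 g) : g ∈ Subgroup.closure SG := by
  -- reduce to `0 ≤ g 0 < 1`
  set j : ℤ := ⌊g 0⌋ with hj
  set g1 := T (-j : ℤ) * g with hg1
  have hg1p : Per 1 1 g1 := (Per_T (A6.int _) 1).mul hg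
  have hge : g = T 1 ^ j * g1 := by
    rw [hg1, T_zpow, ← mul_assoc, ← T_add]
    push_cast
    rw [mul_one, add_neg_cancel, T_zero, one_mul]
  have hT : T 1 ∈ Subgroup.closure SG := Subgroup.subset_closure (Or.inl rfl)
  rw [hge]
  refine Subgroup.mul_mem _ (Subgroup.zpow_mem _ hT j) ?_
  have hb0 : 0 ≤ g1 0 := by
    rw [hg1, RelIso.mul_apply, T_apply]
    have := Int.floor_le (g 0)
    push_cast; linarith
  have hb1 : g1 0 < 1 := by
    rw [hg1, RelIso.mul_apply, T_apply]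
    have := Int.lt_floor_add_one (g 0)
    push_cast; linarith
  clear_value g1
  set b := g1 0 with hb
  set η := (1 - b) / 2 with hη
  have hη0 : 0 < η := by rw [hη]; linarith
  have hη1 : η ≤ 1 / 2 := by rw [hη]; linarith
  obtain ⟨δ, hδ, hcont⟩ := Metric.continuous_iff.mp g1.continuous 0 (η / 2) (by linarith)
  obtain ⟨e, he, e1, e2⟩ := A6.exists_between (show 0 < min δ (η / 2) from
    lt_min hδ (by linarith))
  have e3 := lt_min_iff.mp e2
  obtain ⟨c, hc, c1, c2⟩ := A6.exists_between (show -η < -(η / 2) by linarith)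
  obtain ⟨f, hf, f1, f2⟩ := A6.exists_between (show 1 - 3 * η / 2 < 1 - η by linarith)
  have ge : g1 e < b + η / 2 := by
    have := hcont e (by rw [Real.dist_eq, sub_zero, abs_of_pos e1]; exact e3.1)
    rw [Real.dist_eq, abs_lt] at this
    linarith
  have ge' : b - η / 2 < g1 (-e) := by
    have := hcont (-e) (by rw [Real.dist_eq, sub_zero, abs_neg, abs_of_pos e1]; exact e3.1)
    rw [Real.dist_eq, abs_lt] at this
    linarith
  obtain ⟨h, hh, h1, h2⟩ := locExt hg1p.1 hc (A6.neg_mem he) he hf (by linarith [e3.2])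
    (by linarith) (by linarith [e3.2]) (by linarith) (by linarith) (by linarith)
  obtain ⟨z, hz, z1, z2⟩ := A6.exists_between (show f - 1 < c by linarith)
  have hhS : h ∈ Hn z := by
    refine ⟨hh, ?_⟩
    filter_upwards [Ioo_mem_nhds z1 z2] with x hx
    exact h2 x hx.1.le hx.2.le
  have hS2 : h⁻¹ * g1 ∈ Hn 0 := by
    refine ⟨hh.inv.mul hg1p, ?_⟩
    filter_upwards [Ioo_mem_nhds (show -e < 0 by linarith) e1] with x hx
    rw [RelIso.mul_apply]
    exact inv_eq_of (h1 x hx.1.le hx.2.le)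
  have : g1 = h * (h⁻¹ * g1) := by group
  rw [this]
  exact Subgroup.mul_mem _ (Subgroup.subset_closure (Or.inr ⟨z, hz, hhS⟩))
    (Subgroup.subset_closure (Or.inr ⟨0, A6.zero_mem, hS2⟩))

lemma exists_conj {z z' : ℝ} (hz : z ∈ A6) (hz' : z' ∈ A6) :
    ∃ w ∈ A6, ∃ h ∈ Hn w, ∃ k ∈ Hn w, ∃ i : ℤ, ⁅h, k⁆ (z' + i) = z := by
  set j : ℤ := ⌈z - z'⌉ - 1 with hj
  have h1 := Int.le_ceil (z - z')
  have h2 := Int.ceil_lt_add_one (z - z')
  have hj' : (j : ℝ) = ⌈z - z'⌉ - 1 := by rw [hj]; push_cast; ring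
  have t1 : z' + j < z := by rw [hj']; linarith
  have t2 : z - 1 ≤ z' + j := by rw [hj']; linarith
  obtain ⟨w, hw, w1, w2⟩ := A6.exists_between t1
  -- z, z'+j+1 ∈ (w, w+1)
  have hmax : max (z' + j + 1) z < w + 1 := max_lt (by linarith) (by linarith)
  obtain ⟨u, hu, u1, u2⟩ := A6.exists_between hmax
  have u3 := max_lt_iff.mp u1
  have hzj : z' + j + 1 ∈ A6 := A6.add_mem (A6.add_mem hz' (A6.int j)) A6.one_mem
  obtain ⟨h, hh, k, hk, e1, -⟩ := Nn_trans hw hzj hu hz hu (by linarith) u3.1 u2 w2 u3.2 u2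
  refine ⟨w, hw, h, hh, k, hk, j + 1, ?_⟩
  rw [← e1]; push_cast; congr 1; ring

lemma Per.comm_T {g : ℝ ≃o ℝ} (hg : Per 1 1 g) : g * T 1 = T 1 * g := by
  ext x; simp only [RelIso.mul_apply, T_apply]; exact hg.2 x

lemma comm_mul_id {G : Type*} [Group G] (a a' b : G) : ⁅a * a', b⁆ = a * ⁅a', b⁆ * a⁻¹ * ⁅a, b⁆ := by
  simp only [commutatorElement_def]; group
lemma comm_inv_id {G : Type*} [Group G] (a b : G) : ⁅a⁻¹, b⁆ = a⁻¹ * ⁅a, b⁆⁻¹ * a⁻¹⁻¹ := by
  simp only [commutatorElement_def]; group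
lemma comm_symm_id {G : Type*} [Group G] (a b : G) : ⁅a, b⁆ = ⁅b, a⁆⁻¹ := by
  simp only [commutatorElement_def]; group

/-- A subgroup normalised by `Gt`, containing `T 1` and all the `[Hn z, Hn z]`, contains `Gt`. -/
theorem gen (M : Subgroup (ℝ ≃o ℝ)) (norm : ∀ g, Per 1 1 g → ∀ m ∈ M, g * m * g⁻¹ ∈ M)
    (hT : T 1 ∈ M) (hN : ∀ z ∈ A6, ∀ h ∈ Hn z, ∀ k ∈ Hn z, ⁅h, k⁆ ∈ M)
    {g : ℝ ≃o ℝ} (hg : Per 1 1 g) : g ∈ M := by
  have hSGt : ∀ a ∈ SG, Per 1 1 a := by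
    rintro a (rfl | ⟨z, -, h⟩)
    · exact Per_T A6.one_mem 1
    · exact h.1
  have hclGt : ∀ a ∈ Subgroup.closure SG, Per 1 1 a := by
    intro a ha
    have : Subgroup.closure SG ≤ Gt := (Subgroup.closure_le _).mpr fun x hx => hSGt x hx
    exact this ha
  -- symmetric
  have symm : ∀ a b : ℝ ≃o ℝ, ⁅a, b⁆ ∈ M → ⁅b, a⁆ ∈ M := by
    intro a b h
    rw [comm_symm_id]; exact M.inv_mem h
  -- generators commute modulo M
  have c0 : ∀ a ∈ SG, ∀ b ∈ SG, ⁅a, b⁆ ∈ M := by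
    have cT : ∀ b ∈ SG, ⁅T 1, b⁆ ∈ M := by
      intro b hb
      have : ⁅T 1, b⁆ = 1 := by
        rw [commutatorElement_def, ← (hSGt b hb).comm_T]; group
      rw [this]; exact M.one_mem
    rintro a (rfl | ⟨z, hz, ha⟩) b hb
    · exact cT b hb
    rcases hb with rfl | ⟨z', hz', hb⟩
    · exact symm _ _ (cT a (Or.inr ⟨z, hz, ha⟩))
    obtain ⟨w, hw, h, hh, k, hk, i, e⟩ := exists_conj hz hz'
    have hn : ⁅h, k⁆ ∈ M := hN w hw h hh k hk
    have hnP : Per 1 1 ⁅h, k⁆ := by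
      rw [commutatorElement_def]
      exact ((hh.1.mul hk.1).mul hh.1.inv).mul hk.1.inv
    have hb' := Hn_conj hnP (Hn_int hb i)
    rw [e] at hb'
    have h1 := hN z hz a ha _ hb'
    -- `b = n⁻¹ (n b n⁻¹) n`
    set n := ⁅h, k⁆ with hn'
    -- [a, b] = [a, n⁻¹ b' n]
    have key : ⁅a, b⁆ = (a * n⁻¹ * a⁻¹) * (⁅a, n * b * n⁻¹⁆ * ((n * b * n⁻¹) * (a * n * a⁻¹) *
        (n * b * n⁻¹)⁻¹)) * (n) * (b * n⁻¹ * b⁻¹) * (1) := by
      simp only [commutatorElement_def]; group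
    rw [key]
    refine M.mul_mem (M.mul_mem (M.mul_mem (M.mul_mem ?_ (M.mul_mem h1 ?_)) ?_) ?_) M.one_mem
    · exact norm a ha.1 _ (M.inv_mem hn)
    · exact norm _ hb'.1 _ (norm a ha.1 _ hn)
    · exact hn
    · exact norm b hb.1 _ (M.inv_mem hn)
  have c1 : ∀ a ∈ Subgroup.closure SG, ∀ b ∈ SG, ⁅a, b⁆ ∈ M := by
    intro a ha b hb
    induction ha using Subgroup.closure_induction with
    | mem x hx => exact c0 x hx b hb
    | one => rw [commutatorElement_def]; simp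
    | mul x y hx hy ihx ihy =>
      rw [comm_mul_id]
      exact M.mul_mem (norm x (hclGt x hx) _ ihy) ihx
    | inv x hx ihx =>
      rw [comm_inv_id]
      exact norm _ (hclGt x hx).inv _ (M.inv_mem ihx)
  have c2 : ∀ a ∈ Subgroup.closure SG, ∀ b ∈ Subgroup.closure SG, ⁅b, a⁆ ∈ M := by
    intro a ha b hb
    induction hb using Subgroup.closure_induction with
    | mem x hx => exact symm _ _ (c1 a ha x hx)
    | one => rw [commutatorElement_def]; simp
    | mul x y hx hy ihx ihy =>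
      rw [comm_mul_id]
      exact M.mul_mem (norm x (hclGt x hx) _ ihy) ihx
    | inv x hx ihx =>
      rw [comm_inv_id]
      exact norm _ (hclGt x hx).inv _ (M.inv_mem ihx)
  have c3 : ∀ a b, Per 1 1 a → Per 1 1 b → ⁅a, b⁆ ∈ M := fun a b ha hb =>
    c2 b (frag hb) a (frag ha)
  -- the quotient
  classical
  let M' : Subgroup Gt := M.subgroupOf Gt
  have : M'.Normal := ⟨fun n hn g => norm g g.2 n hn⟩
  have hcomm : ∀ a b : Gt ⧸ M', a * b = b * a := by
    intro a b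
    induction a using QuotientGroup.induction_on with | H a => ?_
    induction b using QuotientGroup.induction_on with | H b => ?_
    rw [← QuotientGroup.mk_mul, ← QuotientGroup.mk_mul, QuotientGroup.eq]
    have := c3 (b⁻¹ : ℝ ≃o ℝ) (a⁻¹ : ℝ ≃o ℝ) b.2.inv a.2.inv
    change (((a : ℝ ≃o ℝ) * (b : ℝ ≃o ℝ))⁻¹ * ((b : ℝ ≃o ℝ) * (a : ℝ ≃o ℝ))) ∈ M
    have e : (((a : ℝ ≃o ℝ) * (b : ℝ ≃o ℝ))⁻¹ * ((b : ℝ ≃o ℝ) * (a : ℝ ≃o ℝ))) =
        ⁅(b⁻¹ : ℝ ≃o ℝ), (a⁻¹ : ℝ ≃o ℝ)⁆ := by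
      simp only [commutatorElement_def]; group
    rw [e]; exact this
  let _ : CommGroup (Gt ⧸ M') := { (inferInstance : Group (Gt ⧸ M')) with mul_comm := hcomm }
  let q : (ℝ ≃o ℝ) → Additive (Gt ⧸ M') := fun g =>
    if h : Per 1 1 g then Additive.ofMul (QuotientGroup.mk (⟨g, h⟩ : Gt)) else 0
  have Q : QHom q := by
    constructor
    · intro g h hg hh
      simp only [q, dif_pos hg, dif_pos hh, dif_pos (hg.mul hh)]
      rfl
    · have h1 : Per 1 1 (T 1) := Per_T A6.one_mem 1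
      simp only [q, dif_pos h1]
      rw [ofMul_eq_zero, QuotientGroup.eq_one_iff]
      exact hT
  have := Q.trivial hg
  simp only [q, dif_pos hg] at this
  rw [ofMul_eq_zero, QuotientGroup.eq_one_iff] at this
  exact this

lemma Per_comm {a b : ℝ ≃o ℝ} (ha : Per 1 1 a) (hb : Per 1 1 b) : Per 1 1 ⁅a, b⁆ := by
  rw [commutatorElement_def]
  exact ((ha.mul hb).mul ha.inv).mul hb.inv

/-- Two of the `[Hn z, Hn z]` and `T 1` generate. -/
theorem gen_two (V : Subgroup (ℝ ≃o ℝ)) (hT : T 1 ∈ V) {x y : ℝ} (hx : x ∈ A6) (hy : y ∈ A6)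
    (hxy : ∀ i : ℤ, y ≠ x + i) (hVx : ∀ h ∈ Hn x, ∀ k ∈ Hn x, ⁅h, k⁆ ∈ V)
    (hVy : ∀ h ∈ Hn y, ∀ k ∈ Hn y, ⁅h, k⁆ ∈ V) {g : ℝ ≃o ℝ} (hg : Per 1 1 g) : g ∈ V := by
  set S : Set (ℝ ≃o ℝ) := {g | g = T 1 ∨ ∃ z ∈ A6, ∃ h ∈ Hn z, ∃ k ∈ Hn z, g = ⁅h, k⁆} with hS
  have hall : ∀ z ∈ A6, ∀ h ∈ Hn z, ∀ k ∈ Hn z, ⁅h, k⁆ ∈ V := by
    intro z hz h hh k hk
    -- shift z into [x, x+1)
    set i : ℤ := ⌊z - x⌋ with hi
    have i1 := Int.floor_le (z - x)
    have i2 := Int.lt_floor_add_one (z - x)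
    rw [← hi] at i1 i2
    set j : ℤ := ⌊y - x⌋ with hj
    have j1 := Int.floor_le (y - x)
    have j2 := Int.lt_floor_add_one (y - x)
    rw [← hj] at j1 j2
    have hh' := Hn_int hh (-i)
    have hk' := Hn_int hk (-i)
    push_cast at hh' hk'
    rcases (show x ≤ z + -i by linarith).eq_or_lt with h1 | h1
    · rw [← h1] at hh' hk'
      exact hVx h hh' k hk'
    · have hyj : x < y + (-j : ℤ) := by
        rcases (show x ≤ y + (-j : ℤ) by push_cast; linarith).eq_or_lt with h2 | h2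
        · exfalso; apply hxy j; rw [h2]; push_cast; ring
        · exact h2
      have hzA : z + -i ∈ A6 := by
        have := A6.add_mem hz (A6.int (-i)); push_cast at this; exact this
      have hyA : y + (-j : ℤ) ∈ A6 := A6.add_mem hy (A6.int (-j))
      have hmax : max (z + -i) (y + (-j : ℤ)) < x + 1 :=
        max_lt (by linarith) (by push_cast; linarith)
      obtain ⟨u, hu, u1, u2⟩ := A6.exists_between hmax
      have u3 := max_lt_iff.mp u1
      obtain ⟨a, ha, b, hb, e1, -⟩ := Nn_trans hx hzA hu hyA hu h1 u3.1 u2 hyj u3.2 u2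
      have hn := hVx a ha b hb
      have hnP : Per 1 1 ⁅a, b⁆ := Per_comm ha.1 hb.1
      have g1 := Hn_int (Hn_conj hnP hh') j
      have g2 := Hn_int (Hn_conj hnP hk') j
      rw [e1] at g1 g2
      have e3 : y + (-j : ℤ) + j = y := by push_cast; ring
      rw [e3] at g1 g2
      have g3 := hVy _ g1 _ g2
      have e4 : ⁅h, k⁆ = ⁅a, b⁆⁻¹ * ⁅⁅a, b⁆ * h * ⁅a, b⁆⁻¹, ⁅a, b⁆ * k * ⁅a, b⁆⁻¹⁆ * ⁅a, b⁆ := by
        generalize ⁅a, b⁆ = n
        simp only [commutatorElement_def]; group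
      rw [e4]
      exact V.mul_mem (V.mul_mem (V.inv_mem hn) g3) hn
  have hle : Subgroup.closure S ≤ V := by
    rw [Subgroup.closure_le]
    rintro g (rfl | ⟨z, hz, h, hh, k, hk, rfl⟩)
    · exact hT
    · exact hall z hz h hh k hk
  apply hle
  refine gen (Subgroup.closure S) ?_ (Subgroup.subset_closure (Or.inl rfl)) ?_ hg
  · intro g hg m hm
    induction hm using Subgroup.closure_induction with
    | mem m hm =>
      apply Subgroup.subset_closure
      rcases hm with rfl | ⟨z, hz, h, hh, k, hk, rfl⟩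
      · left
        rw [hg.comm_T]; group
      · right
        refine ⟨g z, (hg.1.1 z).mpr hz, _, Hn_conj hg hh, _, Hn_conj hg hk, ?_⟩
        simp only [commutatorElement_def]; group
    | one => simp
    | mul a b _ _ iha ihb =>
      have : g * (a * b) * g⁻¹ = (g * a * g⁻¹) * (g * b * g⁻¹) := by group
      rw [this]; exact Subgroup.mul_mem _ iha ihb
    | inv a _ iha =>
      have : g * a⁻¹ * g⁻¹ = (g * a * g⁻¹)⁻¹ := by group
      rw [this]; exact Subgroup.inv_mem _ iha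
  · intro z hz h hh k hk
    exact Subgroup.subset_closure (Or.inr ⟨z, hz, h, hh, k, hk, rfl⟩)

end Pool.Agent.Y329.T23
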