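import Pool.Agent.Y329.T23.Basic

open Set Filter Topology

namespace Pool.Agent.Y329.T23

/-- `F` is affine with slope in `⟨2,3⟩` on `[j/6^k,(j+1)/6^k]`. -/
def AffOn (F : ℝ → ℝ) (k : ℕ) (j : ℤ) : Prop :=
  ∃ l, IsLam l ∧ ∀ x : ℝ, (j : ℝ) / 6 ^ k ≤ x → x ≤ ((j : ℝ) + 1) / 6 ^ k →
    F x = F ((j : ℝ) / 6 ^ k) + l * (x - (j : ℝ) / 6 ^ k)

lemma exists_delta {F : ℝ → ℝ} {x l m : ℝ} (h1 : RG F x l) (h2 : LG F x m) :
    ∃ δ > 0, (∀ y, x ≤ y → y < x + δ → F y = F x + l * (y - x)) ∧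
      (∀ y, y ≤ x → x - δ < y → F y = F x + m * (y - x)) := by
  unfold RG at h1
  unfold LG at h2
  rw [eventually_nhdsWithin_iff] at h1 h2
  obtain ⟨δ, hδ, h⟩ := Metric.eventually_nhds_iff.mp (h1.and h2)
  refine ⟨δ, hδ, fun y hy1 hy2 => ?_, fun y hy1 hy2 => ?_⟩
  · exact (h (show dist y x < δ by rw [Real.dist_eq, abs_lt]; constructor <;> linarith)).1 hy1
  · exact (h (show dist y x < δ by rw [Real.dist_eq, abs_lt]; constructor <;> linarith)).2 hy1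

lemma grid_aux {F : ℝ ≃o ℝ} (hF : F ∈ PLg) (a b : ℝ) :
    ∃ K : ℕ, ∀ k ≥ K, ∀ j : ℤ, (∃ z ∈ Icc a b, (j : ℝ) / 6 ^ k ≤ z ∧ z ≤ ((j : ℝ) + 1) / 6 ^ k) →
      AffOn F k j := by
  refine IsCompact.induction_on (p := fun s => ∃ K : ℕ, ∀ k ≥ K, ∀ j : ℤ,
    (∃ z ∈ s, (j : ℝ) / 6 ^ k ≤ z ∧ z ≤ ((j : ℝ) + 1) / 6 ^ k) → AffOn F k j)
    (isCompact_Icc (a := a) (b := b)) ?_ ?_ ?_ ?_
  · exact ⟨0, fun k _ j ⟨z, hz, _⟩ => absurd hz (Set.notMem_empty z)⟩
  · rintro s t hst ⟨K, hK⟩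
    exact ⟨K, fun k hk j ⟨z, hz, hz'⟩ => hK k hk j ⟨z, hst hz, hz'⟩⟩
  · rintro s t ⟨K, hK⟩ ⟨K', hK'⟩
    refine ⟨max K K', fun k hk j ⟨z, hz, hz'⟩ => ?_⟩
    rcases hz with hz | hz
    · exact hK k (le_trans (le_max_left _ _) hk) j ⟨z, hz, hz'⟩
    · exact hK' k (le_trans (le_max_right _ _) hk) j ⟨z, hz, hz'⟩
  · intro x _
    obtain ⟨l, hl, m, hm, h1, h2, h3⟩ := hF.2 x
    obtain ⟨δ, hδ, g1, g2⟩ := exists_delta h1 h2
    obtain ⟨K0, hK0⟩ := pow_unbounded_of_one_lt (2 / δ) (show (1 : ℝ) < 6 by norm_num)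
    have hsmall : ∀ k ≥ K0, 1 / (6 : ℝ) ^ k < δ / 2 := by
      intro k hk
      have h6 : (6 : ℝ) ^ K0 ≤ 6 ^ k := pow_le_pow_right₀ (by norm_num) hk
      have : 2 / δ < 6 ^ k := lt_of_lt_of_le hK0 h6
      rw [div_lt_iff₀ hδ] at this
      rw [div_lt_iff₀ (by positivity)]
      linarith
    have hnb : Ioo (x - δ / 2) (x + δ / 2) ∈ 𝓝[Icc a b] x :=
      mem_nhdsWithin_of_mem_nhds (Ioo_mem_nhds (by linarith) (by linarith))
    by_cases hx : x ∈ A6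
    · obtain ⟨i, n0, hi⟩ := hx
      refine ⟨_, hnb, max K0 n0, fun k hk j ⟨z, hz, hz1, hz2⟩ => ?_⟩
      have hs := hsmall k (le_trans (le_max_left _ _) hk)
      have hi' : x = ((i * 6 ^ (k - n0) : ℤ) : ℝ) / 6 ^ k := by
        rw [eq_div_iff (by positivity)]
        push_cast
        rw [← hi, mul_assoc, ← pow_add, Nat.add_sub_cancel' (le_trans (le_max_right _ _) hk)]
      have hadd : ((j : ℝ) + 1) / 6 ^ k = (j : ℝ) / 6 ^ k + 1 / 6 ^ k := by ring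
      rw [hadd] at hz2
      obtain ⟨hz3, hz4⟩ := hz
      rcases le_or_gt (i * 6 ^ (k - n0)) j with hij | hij
      · have hxj : x ≤ (j : ℝ) / 6 ^ k := by
          rw [hi']
          have : ((i * 6 ^ (k - n0) : ℤ) : ℝ) ≤ j := by exact_mod_cast hij
          gcongr
        refine ⟨l, hl, fun y hy1 hy2 => ?_⟩
        rw [hadd] at hy2
        rw [g1 y (by linarith) (by linarith), g1 _ hxj (by linarith)]
        ring
      · have hxj : (j : ℝ) / 6 ^ k + 1 / 6 ^ k ≤ x := by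
          rw [hi', ← add_div]
          have : (j : ℝ) + 1 ≤ ((i * 6 ^ (k - n0) : ℤ) : ℝ) := by exact_mod_cast hij
          gcongr
        have hp : 0 < 1 / (6 : ℝ) ^ k := by positivity
        refine ⟨m, hm, fun y hy1 hy2 => ?_⟩
        rw [hadd] at hy2
        rw [g2 y (by linarith) (by linarith), g2 ((j : ℝ) / 6 ^ k) (by linarith) (by linarith)]
        ring
    · refine ⟨_, hnb, K0, fun k hk j ⟨z, hz, hz1, hz2⟩ => ?_⟩
      have hs := hsmall k hk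
      have hadd : ((j : ℝ) + 1) / 6 ^ k = (j : ℝ) / 6 ^ k + 1 / 6 ^ k := by ring
      rw [hadd] at hz2
      obtain ⟨hz3, hz4⟩ := hz
      have hlm := h3 hx
      subst hlm
      have g : ∀ y, x - δ < y → y < x + δ → F y = F x + l * (y - x) := by
        intro y hy1 hy2
        rcases le_total x y with h | h
        · exact g1 y h hy2
        · exact g2 y h hy1
      refine ⟨l, hl, fun y hy1 hy2 => ?_⟩
      rw [hadd] at hy2
      rw [g y (by linarith) (by linarith), g ((j : ℝ) / 6 ^ k) (by linarith) (by linarith)]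
      ring

lemma per_int {F : ℝ → ℝ} {n N : ℝ} (h : ∀ x, F (x + n) = F x + N) (x : ℝ) (m : ℤ) :
    F (x + m * n) = F x + m * N := by
  induction m with
  | zero => simp
  | succ m ih =>
    have : x + ((m : ℤ) + 1 : ℤ) * n = x + (m : ℤ) * n + n := by push_cast; ring
    rw [this, h, ih]; push_cast; ring
  | pred m ih =>
    have h' := h (x + (-(m : ℤ) - 1 : ℤ) * n)
    have : x + (-(m : ℤ) - 1 : ℤ) * n + n = x + (-(m : ℤ) : ℤ) * n := by push_cast; ring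
    rw [this, ih] at h'
    push_cast at h' ⊢
    linarith

/-- A periodic element is affine on a uniform grid. -/
lemma grid {F : ℝ ≃o ℝ} (hF : F ∈ PLg) (hper : ∀ x, F (x + 1) = F x + 1) :
    ∃ K : ℕ, ∀ j : ℤ, AffOn F K j := by
  obtain ⟨K, hK⟩ := grid_aux hF 0 1
  refine ⟨K, fun j => ?_⟩
  -- shift to `[0,1]`
  set q : ℤ := ⌊(j : ℝ) / 6 ^ K⌋ with hq
  have hper' : ∀ (x : ℝ) (m : ℤ), F (x + m) = F x + m := by
    intro x m
    have := per_int hper x m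
    simpa using this
  obtain ⟨l, hl, h⟩ := hK K le_rfl (j - q * 6 ^ K)
    ⟨(j : ℝ) / 6 ^ K - q, ⟨sub_nonneg.mpr (Int.floor_le _),
      by have := Int.lt_floor_add_one ((j : ℝ) / 6 ^ K); linarith⟩, by
        push_cast; rw [sub_div, mul_div_cancel_right₀ _ (by positivity)], by
        push_cast
        rw [show (j : ℝ) - q * 6 ^ K + 1 = j + 1 - q * 6 ^ K by ring, sub_div,
          mul_div_cancel_right₀ _ (by positivity)]
        gcongr; linarith⟩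
  refine ⟨l, hl, fun x hx1 hx2 => ?_⟩
  have e1 : (((j - q * 6 ^ K : ℤ) : ℝ)) / 6 ^ K = (j : ℝ) / 6 ^ K - q := by
    push_cast; rw [sub_div, mul_div_cancel_right₀ _ (by positivity)]
  have e2 : (((j - q * 6 ^ K : ℤ) : ℝ) + 1) / 6 ^ K = ((j : ℝ) + 1) / 6 ^ K - q := by
    push_cast
    rw [show (j : ℝ) - q * 6 ^ K + 1 = j + 1 - q * 6 ^ K by ring, sub_div,
      mul_div_cancel_right₀ _ (by positivity)]
  rw [e1, e2] at h
  have := h (x - q) (by linarith) (by linarith)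
  have e3 := hper' (x - q) q
  have e4 := hper' ((j : ℝ) / 6 ^ K - q) q
  rw [sub_add_cancel] at e3 e4
  rw [e3, e4, this]; ring

end Pool.Agent.Y329.T23
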