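import Pool.Agent.Y329.T23.Sub

/-!
# Every homomorphism from the lifted group to an abelian group killing the translation is trivial
-/

open Set Filter Topology

namespace Pool.Agent.Y329.T23

/-- `C ∈ PLg` with `C (x + n) = C x + N`. -/
def Per (n N : ℝ) (C : ℝ ≃o ℝ) : Prop := C ∈ PLg ∧ ∀ x, C (x + n) = C x + N

lemma Per.mul {n N P : ℝ} {C D : ℝ ≃o ℝ} (hD : Per N P D) (hC : Per n N C) : Per n P (D * C) :=
  ⟨PLg.mul_mem hD.1 hC.1, fun x => by rw [RelIso.mul_apply, RelIso.mul_apply, hC.2, hD.2]⟩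

lemma Per.inv {n N : ℝ} {C : ℝ ≃o ℝ} (hC : Per n N C) : Per N n C⁻¹ := by
  refine ⟨PLg.inv_mem hC.1, fun x => ?_⟩
  apply C.injective
  rw [RelIso.apply_inv_self, hC.2, RelIso.apply_inv_self]

lemma Per_T {a : ℝ} (ha : a ∈ A6) (n : ℝ) : Per n n (T a) := ⟨T_mem ha, fun x => by simp; ring⟩
lemma Per_one (n : ℝ) : Per n n 1 := ⟨PLg.one_mem, fun _ => rfl⟩
lemma Per_Sd {n i m : ℕ} (hm : IsLam (m + 1)) : Per (n + 1) (n + m + 1) (Sd n i m) :=
  ⟨Sd_mem hm, Sd_per n i m⟩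
lemma Per_Sc {l : ℝ} (hl : IsLam l) (n : ℝ) : Per n (l * n) (Sc l hl.pos) :=
  ⟨Sc_mem hl, fun x => by simp; ring⟩

/-- The group of lifts of the elements of `T(2,3)`. -/
def Gt : Subgroup (ℝ ≃o ℝ) where
  carrier := {g | Per 1 1 g}
  mul_mem' := fun hg hh => Per.mul hg hh
  one_mem' := Per_one 1
  inv_mem' := fun hg => Per.inv hg

/-- An additive function on `Gt` killing `T 1`. -/
structure QHom {B : Type*} [AddCommGroup B] (q : (ℝ ≃o ℝ) → B) : Prop where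
  mul : ∀ g h, Per 1 1 g → Per 1 1 h → q (g * h) = q g + q h
  T1 : q (T 1) = 0

section
variable {B : Type*} [AddCommGroup B] {q : (ℝ ≃o ℝ) → B} (Q : QHom q)

include Q
lemma QHom.one : q 1 = 0 := by
  have := Q.mul 1 1 (Per_one 1) (Per_one 1)
  rw [one_mul] at this
  exact left_eq_add.mp this

lemma QHom.inv {g : ℝ ≃o ℝ} (hg : Per 1 1 g) : q g⁻¹ = - q g := by
  have := Q.mul g g⁻¹ hg hg.inv
  rw [mul_inv_cancel, Q.one] at this
  exact (neg_eq_of_add_eq_zero_right this.symm).symm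

lemma QHom.zpow {g : ℝ ≃o ℝ} (hg : Per 1 1 g) (j : ℤ) : q (g ^ j) = j • q g := by
  have hp : ∀ j : ℤ, Per 1 1 (g ^ j) := fun j => Gt.zpow_mem hg j
  induction j with
  | zero => simp [Q.one]
  | succ j ih => rw [zpow_add_one, Q.mul _ _ (hp _) hg, ih]; module
  | pred j ih => rw [zpow_sub_one, Q.mul _ _ (hp _) hg.inv, ih, Q.inv hg]; module
omit Q

lemma lam2 : IsLam ((1 : ℕ) + 1) := by
  have := IsLam.two; norm_num; exact this
lemma lam3 : IsLam ((2 : ℕ) + 1) := by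
  have := IsLam.three; norm_num; exact this

/-- base charts -/
noncomputable def bch : ℕ → (ℝ ≃o ℝ)
  | 0 => 1
  | n + 1 => Sd n 0 1 * bch n

lemma Per_bch (n : ℕ) : Per 1 (n + 1) (bch n) := by
  induction n with
  | zero =>
    have : Per 1 (((0 : ℕ) : ℝ) + 1) (1 : ℝ ≃o ℝ) := by simpa using Per_one 1
    exact this
  | succ n ih =>
    have := (Per_Sd (n := n) (i := 0) lam2).mul ih
    push_cast at this ⊢
    exact this

/-- `q` of the rotation of order `n+1`. -/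
noncomputable def kk (q : (ℝ ≃o ℝ) → B) (n : ℕ) : B := q ((bch n)⁻¹ * T 1 * bch n)

lemma Per_conj {n : ℝ} {C : ℝ ≃o ℝ} (hC : Per 1 n C) {a : ℝ} (ha : a ∈ A6) :
    Per 1 1 (C⁻¹ * T a * C) := (hC.inv.mul (Per_T ha n)).mul hC

include Q
lemma QHom.kk_eq {n : ℕ} {C : ℝ ≃o ℝ} (hC : Per 1 (n + 1) C) :
    q (C⁻¹ * T 1 * C) = kk q n := by
  have hg : Per 1 1 ((bch n)⁻¹ * C) := (Per_bch n).inv.mul hC
  have e : C⁻¹ * T 1 * C =
      ((bch n)⁻¹ * C)⁻¹ * ((bch n)⁻¹ * T 1 * bch n) * ((bch n)⁻¹ * C) := by group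
  have hk := Per_conj (Per_bch n) A6.one_mem
  rw [e, Q.mul _ _ (hg.inv.mul hk) hg, Q.mul _ _ hg.inv hk, Q.inv hg, kk]
  abel

lemma QHom.kk_zpow {n : ℕ} {C : ℝ ≃o ℝ} (hC : Per 1 (n + 1) C) (j : ℤ) :
    q (C⁻¹ * T j * C) = j • kk q n := by
  have e : C⁻¹ * T j * C = (C⁻¹ * T 1 * C) ^ j := by
    have h1 : T (j : ℝ) = T 1 ^ j := by rw [T_zpow, mul_one]
    have h2 := conj_zpow (i := j) (a := C⁻¹) (b := T 1)
    rw [inv_inv] at h2
    rw [h2, h1]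
  rw [e, Q.zpow (Per_conj hC A6.one_mem), Q.kk_eq hC]

lemma QHom.elem {n m : ℕ} (hm : IsLam (m + 1)) {C : ℝ ≃o ℝ} (hC : Per 1 (n + 1) C) (i j : ℕ) :
    q ((Sd n j m * C)⁻¹ * (Sd n i m * C)) = ((j : ℤ) - i) • (kk q n - kk q (n + m)) := by
  have h0 : Per 1 (((n + m : ℕ) : ℝ) + 1) (Sd n 0 m * C) := by
    have := (Per_Sd (n := n) (i := 0) hm).mul hC
    push_cast at this ⊢; exact this
  have hSd : ∀ i : ℕ, Sd n i m = T (i : ℤ) * Sd n 0 m * T (-(i : ℤ) : ℤ) := by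
    intro i
    unfold Sd
    push_cast
    simp [T_zero]
  have e : (Sd n j m * C)⁻¹ * (Sd n i m * C) =
      (C⁻¹ * T (j : ℤ) * C) * (((Sd n 0 m * C)⁻¹ * T ((i : ℤ) - j : ℤ) * (Sd n 0 m * C)) *
        (C⁻¹ * T (-(i : ℤ) : ℤ) * C)) := by
    rw [hSd i, hSd j]
    have e1 : T (((i : ℤ) - j : ℤ) : ℝ) = T (-(j : ℤ) : ℤ) * T (i : ℤ) := by
      rw [← T_add]; push_cast; ring_nf
    have e2 : T ((-(j : ℤ) : ℤ) : ℝ) = (T ((j : ℤ) : ℝ))⁻¹ := by rw [← T_neg]; push_cast; rfl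
    have e3 : T ((-(i : ℤ) : ℤ) : ℝ) = (T ((i : ℤ) : ℝ))⁻¹ := by rw [← T_neg]; push_cast; rfl
    rw [e1, e2, e3]
    group
  have p1 := Per_conj hC (A6.int (j : ℤ))
  have p2 := Per_conj h0 (A6.int ((i : ℤ) - j : ℤ))
  have p3 := Per_conj hC (A6.int (-(i : ℤ) : ℤ))
  rw [e, Q.mul _ _ p1 (p2.mul p3), Q.mul _ _ p2 p3, Q.kk_zpow hC, Q.kk_zpow h0, Q.kk_zpow hC]
  module

/-- arithmetic progression -/
lemma QHom.arith {n : ℕ} (hn : 2 ≤ n) : kk q (n + 2) = (2 : ℤ) • kk q (n + 1) - kk q n := by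
  have hC := Per_bch n
  have hC' : Per 1 (((n + 1 : ℕ) : ℝ) + 1) (Sd n 2 1 * bch n) := by
    have := (Per_Sd (n := n) (i := 2) lam2).mul hC
    push_cast at this ⊢; exact this
  have h1 := Q.elem lam2 hC 0 1
  have h2 := Q.elem lam2 hC' 0 1
  have c0 := Sd_comm (n := n) (i := 0) (j := 2) 1 1 (by norm_num) hn
  have c1 := Sd_comm (n := n) (i := 1) (j := 2) 1 1 (by norm_num) hn
  have e : (Sd (n + 1) 1 1 * (Sd n 2 1 * bch n))⁻¹ * (Sd (n + 1) 0 1 * (Sd n 2 1 * bch n)) =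
      (Sd n 1 1 * bch n)⁻¹ * (Sd n 0 1 * bch n) := by
    have e0 : Sd (n + 1) 0 1 * (Sd n 2 1 * bch n) =
        Sd (n + 1) (2 + 1) 1 * (Sd n 0 1 * bch n) := by rw [← mul_assoc, ← c0, mul_assoc]
    have e1 : Sd (n + 1) 1 1 * (Sd n 2 1 * bch n) =
        Sd (n + 1) (2 + 1) 1 * (Sd n 1 1 * bch n) := by rw [← mul_assoc, ← c1, mul_assoc]
    rw [e0, e1]; group
  rw [e, h1] at h2
  have h3 : kk q n - kk q (n + 1) = kk q (n + 1) - kk q (n + 1 + 1) := by simpa using h2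
  have h4 : kk q (n + 2) = kk q (n + 1 + 1) := rfl
  rw [h4]
  linear_combination (norm := module) h3

lemma QHom.tors (n : ℕ) : ((n : ℤ) + 1) • kk q n = 0 := by
  have h1 := Q.kk_zpow (Per_bch n) ((n : ℤ) + 1)
  rw [← h1]
  have : (bch n)⁻¹ * T (((n : ℤ) + 1 : ℤ) : ℝ) * bch n = T 1 := by
    rw [mul_assoc, inv_mul_eq_iff_eq_mul]
    ext x
    simp only [RelIso.mul_apply, T_apply]
    rw [(Per_bch n).2]; push_cast; rfl
  rw [this, Q.T1]

lemma QHom.dbl (n : ℕ) : kk q n = (2 : ℤ) • kk q (2 * n + 1) := by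
  have hC := Per_bch n
  have h2 : Per 1 (((2 * n + 1 : ℕ) : ℝ) + 1) (Sc 2 IsLam.two.pos * bch n) := by
    have := (Per_Sc IsLam.two ((n : ℝ) + 1)).mul hC
    push_cast
    have e : (2 : ℝ) * n + 1 + 1 = 2 * (n + 1) := by ring
    rw [e]; exact this
  have h := Q.kk_zpow h2 2
  rw [← h]
  unfold kk
  congr 1
  rw [mul_inv_rev]
  have : (Sc 2 IsLam.two.pos)⁻¹ * T ((2 : ℤ) : ℝ) * Sc 2 IsLam.two.pos = T 1 := by
    rw [mul_assoc, inv_mul_eq_iff_eq_mul]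
    ext x
    simp only [RelIso.mul_apply, T_apply, Sc_apply]
    push_cast; ring
  rw [← this]; group

lemma QHom.kk_zero (n : ℕ) : kk q n = 0 := by
  -- values at n = 2 (three arcs), 3 (four arcs), ...
  have a4 := Q.arith (n := 2) le_rfl
  have a5 := Q.arith (n := 3) (by norm_num)
  have a6 := Q.arith (n := 4) (by norm_num)
  have a7 := Q.arith (n := 5) (by norm_num)
  have t2 := Q.tors 2
  have t3 := Q.tors 3
  have t4 := Q.tors 4
  have d3 := Q.dbl 3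
  norm_num at a4 a5 a6 a7 t2 t3 t4 d3
  have h2 : kk q 2 = 0 := by
    rw [a7, a6, a5, a4] at d3
    rw [a4] at t4
    linear_combination (norm := module) (4 : ℤ) • t2 - (2 : ℤ) • t3 - t4 - (2 : ℤ) • d3
  have h3 : kk q 3 = 0 := by
    rw [a7, a6, a5, a4] at d3
    rw [a4] at t4
    linear_combination (norm := module) (6 : ℤ) • t2 - (7 : ℤ) • t3 + (2 : ℤ) • t4 - d3
  have hge : ∀ n, kk q (n + 2) = 0 ∧ kk q (n + 3) = 0 := by
    intro n
    induction n with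
    | zero => exact ⟨h2, h3⟩
    | succ n ih =>
      refine ⟨ih.2, ?_⟩
      have := Q.arith (n := n + 2) (by omega)
      rw [show n + 1 + 3 = n + 2 + 2 by ring, this]
      rw [show n + 2 + 1 = n + 3 by ring, ih.1, ih.2]; simp
  rcases n with _ | _ | n
  · have := Q.tors 0
    simpa using this
  · have := Q.dbl 1
    rw [show 2 * 1 + 1 = 1 + 2 by norm_num, (hge 1).1] at this
    simpa using this
  · exact (hge n).1

end
end Pool.Agent.Y329.T23
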