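import Pool.Agent.Y329.T23.Grid
import Pool.Agent.Y329.T23.Perfect
import Pool.Agent.Y329.T23.Defs

/-!
# The two descriptions of the lifts of the elements of `T(2,3)`
-/

open Set Filter Topology

namespace Pool.Agent.Y329.T23

open Pool.Agent.Y329.ThompsonStein

/-! ### the two descriptions of lifts agree -/

lemma locfin {S : Finset ℝ} (x : ℝ) : ∃ b > x, ∀ s ∈ S, ∀ m : ℤ, s + m ∉ Ioo x b := by
  have h : ∀ s ∈ S, ∀ᶠ b in 𝓝[>] x, ∀ m : ℤ, s + m ∉ Ioo x b := by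
    intro s _
    have hlt : x < s + (⌊x - s⌋ + 1) := by
      have := Int.lt_floor_add_one (x - s); linarith
    have h1 : ∀ᶠ b in 𝓝[>] x, b < s + (⌊x - s⌋ + 1) :=
      (eventually_lt_nhds hlt).filter_mono nhdsWithin_le_nhds
    filter_upwards [h1] with b hb m hm
    have h2 : ⌊x - s⌋ < m := by
      rw [Int.floor_lt]; linarith [hm.1]
    have h3 : (⌊x - s⌋ : ℝ) + 1 ≤ m := by exact_mod_cast h2
    linarith [hm.2]
  rw [← Filter.eventually_all_finset] at h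
  obtain ⟨b, hb, hb'⟩ := (h.and eventually_mem_nhdsWithin).exists
  exact ⟨b, hb', hb⟩

lemma locfin' {S : Finset ℝ} (x : ℝ) : ∃ b < x, ∀ s ∈ S, ∀ m : ℤ, s + m ∉ Ioo b x := by
  have h : ∀ s ∈ S, ∀ᶠ b in 𝓝[<] x, ∀ m : ℤ, s + m ∉ Ioo b x := by
    intro s _
    have hlt : s + (⌈x - s⌉ - 1) < x := by
      have := Int.ceil_lt_add_one (x - s); linarith
    have h1 : ∀ᶠ b in 𝓝[<] x, s + (⌈x - s⌉ - 1) < b :=
      (eventually_gt_nhds hlt).filter_mono nhdsWithin_le_nhds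
    filter_upwards [h1] with b hb m hm
    have h2 : m < ⌈x - s⌉ := by
      rw [Int.lt_ceil]; linarith [hm.2]
    have h3 : (m : ℝ) + 1 ≤ ⌈x - s⌉ := by exact_mod_cast h2
    linarith [hm.1]
  rw [← Filter.eventually_all_finset] at h
  obtain ⟨b, hb, hb'⟩ := (h.and eventually_mem_nhdsWithin).exists
  exact ⟨b, hb', hb⟩

lemma affine_change {F : ℝ → ℝ} {a b l : ℝ} (h : ∀ x ∈ Icc a b, F x = F a + l * (x - a)) {c : ℝ}
    (hc : c ∈ Icc a b) : ∀ x ∈ Icc a b, F x = F c + l * (x - c) := by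
  intro x hx
  rw [h x hx, h c hc]; ring

lemma Per_of_isLiftT {F : ℝ ≃o ℝ} (h : IsLiftT F) : Per 1 1 F := by
  obtain ⟨hper, ⟨S, hS, hF⟩, himg⟩ := h
  refine ⟨⟨fun x => ?_, fun x => ?_⟩, hper⟩
  · have h1 : ∀ y, y ∈ A ↔ y ∈ A6 := fun y => Iff.rfl
    rw [← h1, ← h1]
    constructor
    · intro hx
      rw [← himg] at hx
      obtain ⟨y, hy, hyx⟩ := hx
      rwa [← F.injective hyx]
    · intro hx
      rw [← himg]; exact ⟨x, hx, rfl⟩
  · obtain ⟨b, hb, hb'⟩ := locfin (S := S) x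
    obtain ⟨a, ha, ha'⟩ := locfin' (S := S) x
    by_cases hx : x ∈ A6
    · obtain ⟨l, hl, hl'⟩ := hF x b hb hb'
      obtain ⟨m, hm, hm'⟩ := hF a x ha ha'
      have hm'' := affine_change hm' (show x ∈ Icc a x from ⟨ha.le, le_rfl⟩)
      refine ⟨l, hl, m, hm, ?_, ?_, fun h' => absurd hx h'⟩
      · unfold RG
        filter_upwards [nhdsGE_ge_of_le le_rfl, nhdsGE_le_of_lt hb] with y h1 h2
        exact hl' y ⟨h1, h2⟩
      · unfold LG
        filter_upwards [nhdsLE_le_of_le le_rfl, nhdsLE_ge_of_lt ha] with y h1 h2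
        exact hm'' y ⟨h2, h1⟩
    · obtain ⟨l, hl, hl'⟩ := hF a b (ha.trans hb) (by
        intro s hs m hm
        rcases lt_trichotomy (s + m) x with h1 | h1 | h1
        · exact ha' s hs m ⟨hm.1, h1⟩
        · apply hx
          rw [← h1]
          exact A6.add_mem (hS s hs) (A6.int m)
        · exact hb' s hs m ⟨h1, hm.2⟩)
      have hl'' := affine_change hl' (show x ∈ Icc a b from ⟨ha.le, hb.le⟩)
      refine ⟨l, hl, l, hl, ?_, ?_, fun _ => rfl⟩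
      · unfold RG
        filter_upwards [nhdsGE_ge_of_le le_rfl, nhdsGE_le_of_lt hb] with y h1 h2
        exact hl'' y ⟨by linarith, h2⟩
      · unfold LG
        filter_upwards [nhdsLE_le_of_le le_rfl, nhdsLE_ge_of_lt ha] with y h1 h2
        exact hl'' y ⟨h2, by linarith⟩

lemma isLiftT_of_Per {F : ℝ ≃o ℝ} (h : Per 1 1 F) : IsLiftT F := by
  refine ⟨h.2, ?_, ?_⟩
  · obtain ⟨K, hK⟩ := grid h.1 h.2
    have h6 : (0 : ℝ) < 6 ^ K := by positivity
    refine ⟨(Finset.range (6 ^ K)).image fun j : ℕ => (j : ℝ) / 6 ^ K, ?_, ?_⟩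
    · intro s hs
      obtain ⟨j, -, rfl⟩ := Finset.mem_image.mp hs
      exact ⟨j, K, by field_simp; push_cast; rfl⟩
    · intro a b hab hfree
      have hfree' : ∀ i : ℤ, (i : ℝ) / 6 ^ K ∉ Ioo a b := by
        intro i hi
        refine hfree (((i % (6 ^ K : ℤ)).toNat : ℝ) / 6 ^ K) ?_ (i / (6 ^ K : ℤ)) ?_
        · refine Finset.mem_image.mpr ⟨(i % (6 ^ K : ℤ)).toNat, ?_, rfl⟩
          rw [Finset.mem_range]
          have h1 := Int.emod_lt_of_pos i (show (0 : ℤ) < 6 ^ K by positivity)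
          have h2 := Int.emod_nonneg i (show (6 ^ K : ℤ) ≠ 0 by positivity)
          zify
          rw [Int.toNat_of_nonneg h2]
          exact h1
        · have h2 := Int.emod_nonneg i (show (6 ^ K : ℤ) ≠ 0 by positivity)
          have h3 : (((i % (6 ^ K : ℤ)).toNat : ℕ) : ℝ) = ((i % (6 ^ K : ℤ) : ℤ) : ℝ) := by
            have := Int.toNat_of_nonneg h2
            exact_mod_cast congrArg (fun z : ℤ => (z : ℝ)) this
          have h4 : ((i % (6 ^ K : ℤ) : ℤ) : ℝ) / 6 ^ K + ((i / (6 ^ K : ℤ) : ℤ) : ℝ) =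
              (i : ℝ) / 6 ^ K := by
            have h5 := Int.emod_add_mul_ediv i (6 ^ K : ℤ)
            have h6' : ((i % (6 ^ K : ℤ) : ℤ) : ℝ) + 6 ^ K * ((i / (6 ^ K : ℤ) : ℤ) : ℝ) = i := by
              exact_mod_cast congrArg (fun z : ℤ => (z : ℝ)) h5
            rw [← h6']; field_simp
          rw [h3, h4]; exact hi
      set i : ℤ := ⌊a * 6 ^ K⌋ with hi
      have f1 := Int.floor_le (a * 6 ^ K)
      have f2 := Int.lt_floor_add_one (a * 6 ^ K)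
      rw [← hi] at f1 f2
      have g1 : (i : ℝ) / 6 ^ K ≤ a := by rw [div_le_iff₀ h6]; exact f1
      have g2 : a < ((i : ℝ) + 1) / 6 ^ K := by rw [lt_div_iff₀ h6]; exact f2
      have g3 : b ≤ ((i : ℝ) + 1) / 6 ^ K := by
        by_contra hcon
        apply hfree' (i + 1)
        push_cast
        exact ⟨g2, not_le.mp hcon⟩
      obtain ⟨l, hl, hl'⟩ := hK i
      refine ⟨l, hl, fun x hx => ?_⟩
      rw [hl' x (by linarith [hx.1]) (by linarith [hx.2]), hl' a g1 g2.le]; ring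
  · ext y
    constructor
    · rintro ⟨x, hx, rfl⟩
      exact (h.1.1 x).mpr hx
    · intro hy
      refine ⟨F⁻¹ y, ?_, RelIso.apply_inv_self _ _⟩
      change F⁻¹ y ∈ A6
      rw [← h.1.1, RelIso.apply_inv_self]; exact hy

/-! ### the group `T(2,3)` -/

lemma T23_mul {f g : UnitAddCircle ≃ₜ UnitAddCircle}
    (hf : ∃ F : ℝ ≃o ℝ, IsLiftT F ∧ ∀ x : ℝ, f (x : UnitAddCircle) = ((F x : ℝ) : UnitAddCircle))
    (hg : ∃ F : ℝ ≃o ℝ, IsLiftT F ∧ ∀ x : ℝ, g (x : UnitAddCircle) = ((F x : ℝ) : UnitAddCircle)) :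
    ∃ F : ℝ ≃o ℝ, IsLiftT F ∧
      ∀ x : ℝ, (f * g) (x : UnitAddCircle) = ((F x : ℝ) : UnitAddCircle) := by
  obtain ⟨F, hF, hF'⟩ := hf
  obtain ⟨G, hG, hG'⟩ := hg
  refine ⟨F * G, isLiftT_of_Per ((Per_of_isLiftT hF).mul (Per_of_isLiftT hG)), fun x => ?_⟩
  rw [Homeomorph.mul_apply, hG', hF']; rfl

lemma T23_inv {f : UnitAddCircle ≃ₜ UnitAddCircle}
    (hf : ∃ F : ℝ ≃o ℝ, IsLiftT F ∧ ∀ x : ℝ, f (x : UnitAddCircle) = ((F x : ℝ) : UnitAddCircle)) :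
    ∃ F : ℝ ≃o ℝ, IsLiftT F ∧
      ∀ x : ℝ, (f⁻¹) (x : UnitAddCircle) = ((F x : ℝ) : UnitAddCircle) := by
  obtain ⟨F, hF, hF'⟩ := hf
  refine ⟨F⁻¹, isLiftT_of_Per (Per_of_isLiftT hF).inv, fun x => ?_⟩
  apply f.injective
  rw [hF', RelIso.apply_inv_self]
  exact f.apply_symm_apply _

lemma T23_one : ∃ F : ℝ ≃o ℝ, IsLiftT F ∧
      ∀ x : ℝ, (1 : UnitAddCircle ≃ₜ UnitAddCircle) (x : UnitAddCircle) =
        ((F x : ℝ) : UnitAddCircle) :=
  ⟨1, isLiftT_of_Per (Per_one 1), fun _ => rfl⟩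

end Pool.Agent.Y329.T23
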