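import Pool.Agent.Y329.T23.Perfect

open Set Filter Topology

namespace Pool.Agent.Y329.T23

lemma inv_eq_of {F : ℝ ≃o ℝ} {x y : ℝ} (h : F y = x) : F⁻¹ x = y := by
  rw [← h, RelIso.inv_apply_self]

section
variable {B : Type*} [AddCommGroup B] {q : (ℝ ≃o ℝ) → B} (Q : QHom q)

/-- The class of a chart. -/
noncomputable def ph (q : (ℝ ≃o ℝ) → B) (n : ℕ) (C : ℝ ≃o ℝ) : B := q ((bch n)⁻¹ * C)

/-- defect of tripling -/
noncomputable def th (q : (ℝ ≃o ℝ) → B) (n : ℕ) : B := q ((bch (n + 2))⁻¹ * (Sd n 0 2 * bch n))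

lemma Per_Sd1 {n i : ℕ} {C : ℝ ≃o ℝ} (hC : Per 1 (n + 1) C) :
    Per 1 (((n + 1 : ℕ) : ℝ) + 1) (Sd n i 1 * C) := by
  have := (Per_Sd (n := n) (i := i) lam2).mul hC
  push_cast at this ⊢; exact this
lemma Per_Sd2 {n i : ℕ} {C : ℝ ≃o ℝ} (hC : Per 1 (n + 1) C) :
    Per 1 (((n + 2 : ℕ) : ℝ) + 1) (Sd n i 2 * C) := by
  have := (Per_Sd (n := n) (i := i) lam3).mul hC
  push_cast at this ⊢; exact this

include Q

lemma QHom.ph_S1 {n i : ℕ} {C : ℝ ≃o ℝ} (hC : Per 1 (n + 1) C) :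
    ph q (n + 1) (Sd n i 1 * C) = ph q n C := by
  have h := Q.elem lam2 hC i 0
  rw [Q.kk_zero, Q.kk_zero, sub_zero, smul_zero] at h
  have h0 : Per 1 (((n + 1 : ℕ) : ℝ) + 1) (Sd n 0 1 * C) := Per_Sd1 hC
  have hi : Per 1 (((n + 1 : ℕ) : ℝ) + 1) (Sd n i 1 * C) := Per_Sd1 hC
  have e : (bch (n + 1))⁻¹ * (Sd n i 1 * C) =
      ((bch n)⁻¹ * C) * ((Sd n 0 1 * C)⁻¹ * (Sd n i 1 * C)) := by
    have : bch (n + 1) = Sd n 0 1 * bch n := rfl
    rw [this]; group
  unfold ph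
  rw [e, Q.mul _ _ ((Per_bch n).inv.mul hC) (h0.inv.mul hi), h, add_zero]

lemma QHom.ph_S2 {n i : ℕ} {C : ℝ ≃o ℝ} (hC : Per 1 (n + 1) C) :
    ph q (n + 2) (Sd n i 2 * C) = ph q n C + th q n := by
  have h := Q.elem lam3 hC i 0
  rw [Q.kk_zero, Q.kk_zero, sub_zero, smul_zero] at h
  have h0 : Per 1 (((n + 2 : ℕ) : ℝ) + 1) (Sd n 0 2 * C) := Per_Sd2 hC
  have hi : Per 1 (((n + 2 : ℕ) : ℝ) + 1) (Sd n i 2 * C) := Per_Sd2 hC
  have hb : Per 1 (((n + 2 : ℕ) : ℝ) + 1) (Sd n 0 2 * bch n) := Per_Sd2 (Per_bch n)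
  have e : (bch (n + 2))⁻¹ * (Sd n i 2 * C) =
      ((bch (n + 2))⁻¹ * (Sd n 0 2 * bch n)) * (((bch n)⁻¹ * C) *
        ((Sd n 0 2 * C)⁻¹ * (Sd n i 2 * C))) := by group
  have p1 := (Per_bch n).inv.mul hC
  unfold ph th
  rw [e, Q.mul _ _ ((Per_bch (n + 2)).inv.mul hb) (p1.mul (h0.inv.mul hi)),
    Q.mul _ _ p1 (h0.inv.mul hi), h, add_zero, add_comm]

lemma QHom.th_succ (n : ℕ) : th q (n + 2) = th q (n + 1) := by
  have hC := Per_bch (n + 1)
  have c := Sd_comm (n := n + 1) (i := 0) (j := 1) 2 1 (by norm_num) (by omega)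
  have c' : Sd (n + 1 + 2) (1 + 2) 1 * (Sd (n + 1) 0 2 * bch (n + 1)) =
      Sd (n + 1 + 1) 0 2 * (Sd (n + 1) 1 1 * bch (n + 1)) := by
    rw [← mul_assoc, c, mul_assoc]
  have h1 := Q.ph_S1 (i := 1 + 2) (Per_Sd2 (i := 0) hC)
  have h2 := Q.ph_S2 (i := 0) (Per_Sd1 (i := 1) hC)
  rw [Q.ph_S2 hC] at h1
  rw [Q.ph_S1 hC] at h2
  rw [c'] at h1
  have h3 : ph q (n + 1) (bch (n + 1)) + th q (n + 1) =
    ph q (n + 1) (bch (n + 1)) + th q (n + 2) := by
    rw [← h1]; exact h2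
  exact (add_left_cancel h3).symm

lemma QHom.th_six (n : ℕ) : th q (n + 1) + th q (n + 3) = th q n := by
  have hC := Per_bch n
  have c := Sd_six n
  have c' : Sd (n + 3) 0 2 * (Sd (n + 1) 1 2 * (Sd n 0 1 * bch n)) =
      Sd (n + 4) 0 1 * (Sd (n + 3) 1 1 * (Sd (n + 2) 2 1 * (Sd n 0 2 * bch n))) := by
    simp only [← mul_assoc] at c ⊢
    rw [c]
  have l1 := Per_Sd1 (i := 0) hC
  have l2 := Per_Sd2 (i := 1) l1
  have r1 := Per_Sd2 (i := 0) hC
  have r2 := Per_Sd1 (i := 2) r1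
  have r3 := Per_Sd1 (i := 1) r2
  have h1 : ph q (n + 1 + 2 + 2) (Sd (n + 1 + 2) 0 2 * (Sd (n + 1) 1 2 * (Sd n 0 1 * bch n))) =
      ph q n (bch n) + th q (n + 1) + th q (n + 1 + 2) := by
    rw [Q.ph_S2 l2, Q.ph_S2 l1, Q.ph_S1 hC]
  have h2 : ph q (n + 2 + 1 + 1 + 1) (Sd (n + 2 + 1 + 1) 0 1 *
      (Sd (n + 2 + 1) 1 1 * (Sd (n + 2) 2 1 * (Sd n 0 2 * bch n)))) =
      ph q n (bch n) + th q n := by
    rw [Q.ph_S1 r3, Q.ph_S1 r2, Q.ph_S1 r1, Q.ph_S2 hC]
  have e1 : ph q (n + 1 + 2 + 2) (Sd (n + 1 + 2) 0 2 * (Sd (n + 1) 1 2 * (Sd n 0 1 * bch n))) =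
      ph q (n + 2 + 1 + 1 + 1) (Sd (n + 2 + 1 + 1) 0 1 *
      (Sd (n + 2 + 1) 1 1 * (Sd (n + 2) 2 1 * (Sd n 0 2 * bch n)))) := by
    have e2 : n + 1 + 2 + 2 = n + 5 := by ring
    have e3 : n + 2 + 1 + 1 + 1 = n + 5 := by ring
    have e4 : n + 2 + 1 + 1 = n + 4 := by ring
    rw [e2, e3, e4]
    exact congrArg _ c'
  rw [h1, h2] at e1
  have e3 : n + 1 + 2 = n + 3 := by ring
  rw [e3, add_assoc] at e1
  exact add_left_cancel e1

lemma QHom.th_zero (n : ℕ) : th q n = 0 := by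
  have h : ∀ n, th q (n + 1) = th q 1 := by
    intro n
    induction n with
    | zero => rfl
    | succ n ih => rw [← ih]; exact Q.th_succ n
  have h1 : th q 1 = 0 := by
    have := Q.th_six 1
    rw [h 1, h 3] at this
    simpa using this
  rcases n with _ | n
  · have := Q.th_six 0
    rw [← this, h 0, h 2, h1, add_zero]
  · rw [h n, h1]

lemma QHom.ph_S {n i m : ℕ} (hm : m = 1 ∨ m = 2) {C : ℝ ≃o ℝ} (hC : Per 1 (n + 1) C) :
    ph q (n + m) (Sd n i m * C) = ph q n C := by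
  rcases hm with rfl | rfl
  · exact Q.ph_S1 hC
  · rw [Q.ph_S2 hC, Q.th_zero, add_zero]

omit Q

lemma slopes {n N : ℕ} {h : ℝ ≃o ℝ} (hp : Per (n + 1) (N + 1) h) (h0 : h 0 = 0)
    (hs : ∀ j : ℕ, j ≤ n → h j + 1 ≤ h (j + 1)) : n ≤ N := by
  have key : ∀ j : ℕ, j ≤ n + 1 → (j : ℝ) ≤ h j := by
    intro j
    induction j with
    | zero => intro _; simp [h0]
    | succ j ih =>
      intro hj
      have := hs j (by omega)
      have := ih (by omega)
      push_cast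
      linarith
  have h1 := key (n + 1) le_rfl
  have h2 := hp.2 0
  rw [zero_add, h0] at h2
  push_cast at h1
  rw [h2] at h1
  have : (n : ℝ) ≤ N := by linarith
  exact_mod_cast this

/-- `h` has slope `2^a 3^b` on `[j,j+1]`. -/
def Sl (h : ℝ ≃o ℝ) (j : ℕ) : Prop :=
  ∃ a b : ℕ, ∀ x : ℝ, j ≤ x → x ≤ j + 1 → h x = h j + 2 ^ a * 3 ^ b * (x - j)

lemma one_le_23 (a b : ℕ) : (1 : ℝ) ≤ 2 ^ a * 3 ^ b := by
  have h1 : (1 : ℝ) ≤ 2 ^ a := one_le_pow₀ (by norm_num)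
  have h2 : (1 : ℝ) ≤ 3 ^ b := one_le_pow₀ (by norm_num)
  nlinarith

lemma Sl.step {h : ℝ ≃o ℝ} {j : ℕ} (hs : Sl h j) : h j + 1 ≤ h (j + 1) := by
  obtain ⟨a, b, h1⟩ := hs
  rw [h1 (j + 1) (by linarith) le_rfl]
  have := one_le_23 a b
  nlinarith

lemma Sl_div {n m j : ℕ} {h : ℝ ≃o ℝ} (hj : j ≤ n) (hs : ∀ i ≤ n, Sl h i) {a' b' : ℕ}
    (hjs : ∀ x : ℝ, j ≤ x → x ≤ j + 1 → h x = h j + (m + 1) * (2 ^ a' * 3 ^ b') * (x - j)) :
    ∀ i ≤ n + m, Sl (h * (Sd n j m)⁻¹) i := by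
  intro i hi
  have hj' : (j : ℝ) ≤ n := by exact_mod_cast hj
  have hi' : (i : ℝ) ≤ n + m := by exact_mod_cast hi
  have hm0 : (0 : ℝ) < m + 1 := by positivity
  have lo : ∀ x : ℝ, 0 ≤ x → x ≤ j → (Sd n j m)⁻¹ x = x := fun x h1 h2 =>
    inv_eq_of (Sd_lo hj h1 h2)
  have mid : ∀ x : ℝ, j ≤ x → x ≤ j + m + 1 → (Sd n j m)⁻¹ x = j + (x - j) / (m + 1) := by
    intro x h1 h2
    apply inv_eq_of
    rw [Sd_mid]
    · field_simp; ring
    · have : 0 ≤ (x - j) / (m + 1) := div_nonneg (by linarith) hm0.le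
      linarith
    · have : (x - j) / (m + 1) ≤ 1 := by rw [div_le_one hm0]; linarith
      linarith
  have hiR : ∀ x : ℝ, j + m + 1 ≤ x → x ≤ n + m + 1 → (Sd n j m)⁻¹ x = x - m := by
    intro x h1 h2
    apply inv_eq_of
    rw [Sd_hi (by linarith) (by linarith)]; ring
  rcases lt_or_ge i j with h1 | h1
  · have h1' : (i : ℝ) + 1 ≤ j := by exact_mod_cast h1
    obtain ⟨a, b, hab⟩ := hs i (by omega)
    refine ⟨a, b, fun x hx1 hx2 => ?_⟩
    have hi0 : (0 : ℝ) ≤ i := Nat.cast_nonneg i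
    rw [RelIso.mul_apply, RelIso.mul_apply, lo x (by linarith) (by linarith),
      lo i hi0 (by linarith), hab x hx1 hx2]
  have h1' : (j : ℝ) ≤ i := by exact_mod_cast h1
  rcases le_or_gt i (j + m) with h2 | h2
  · have h2' : (i : ℝ) ≤ j + m := by exact_mod_cast h2
    refine ⟨a', b', fun x hx1 hx2 => ?_⟩
    have q1 : 0 ≤ (x - j) / (m + 1) := div_nonneg (by linarith) hm0.le
    have q2 : (x - j) / (m + 1) ≤ 1 := by rw [div_le_one hm0]; linarith
    have q3 : 0 ≤ ((i : ℝ) - j) / (m + 1) := div_nonneg (by linarith) hm0.le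
    have q4 : ((i : ℝ) - j) / (m + 1) ≤ 1 := by rw [div_le_one hm0]; linarith
    rw [RelIso.mul_apply, RelIso.mul_apply, mid x (by linarith) (by linarith),
      mid i (by linarith) (by linarith), hjs (j + (x - j) / (m + 1)) (by linarith) (by linarith),
      hjs (j + (i - j) / (m + 1)) (by linarith) (by linarith)]
    field_simp
    ring
  · obtain ⟨i', rfl⟩ : ∃ i', i = i' + m := ⟨i - m, by omega⟩
    obtain ⟨a, b, hab⟩ := hs i' (by omega)
    have h2' : (j : ℝ) + 1 ≤ i' := by exact_mod_cast (by omega : j + 1 ≤ i')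
    push_cast at hi' ⊢
    refine ⟨a, b, fun x hx1 hx2 => ?_⟩
    push_cast at hx1 hx2 ⊢
    rw [RelIso.mul_apply, RelIso.mul_apply, hiR x (by linarith) (by linarith),
      hiR _ (by linarith) (by linarith), hab _ (by linarith) (by linarith)]
    have : (i' : ℝ) + m - m = i' := by ring
    rw [this]; ring

include Q in
lemma QHom.main : ∀ d n N : ℕ, N ≤ n + d → ∀ h : ℝ ≃o ℝ, Per (n + 1) (N + 1) h → h 0 = 0 →
    (∀ j ≤ n, Sl h j) → ∀ C, Per 1 (n + 1) C → ph q N (h * C) = ph q n C := by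
  intro d
  induction d with
  | zero => ?_
  | succ d ih => ?_
  all_goals
    intro n N hN h hp h0 hs C hC
    by_cases hall : ∀ j ≤ n, ∀ x : ℝ, (j : ℝ) ≤ x → x ≤ j + 1 → h x = h j + (x - j)
    · -- all slopes are one
      have key : ∀ j : ℕ, j ≤ n + 1 → h j = j := by
        intro j
        induction j with
        | zero => intro _; simp [h0]
        | succ j ihj =>
          intro hj
          push_cast
          rw [hall j (by omega) (j + 1) (by linarith) le_rfl, ihj (by omega)]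
          ring
      have hNn : N = n := by
        have h1 := key (n + 1) le_rfl
        have h2 := hp.2 0
        rw [zero_add, h0] at h2
        push_cast at h1
        rw [h1] at h2
        have : (N : ℝ) = n := by linarith
        exact_mod_cast this
      subst hNn
      have : h = 1 := by
        refine ext_per (n := N + 1) (N := N + 1) (by positivity) hp.2 (fun _ => rfl) ?_
        intro x hx0 hxn
        rcases hxn.eq_or_lt with hx | hx
        · have := key (N + 1) le_rfl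
          push_cast at this
          rw [hx, this]; rfl
        · have hf := Nat.floor_le hx0
          have hf2 := Nat.lt_floor_add_one x
          have hf3 : ⌊x⌋₊ ≤ N := by
            have : ⌊x⌋₊ < N + 1 := by
              rw [Nat.floor_lt hx0]; push_cast; exact hx
            omega
          rw [hall ⌊x⌋₊ hf3 x hf hf2.le, key _ (by omega)]
          change _ = x
          ring
      rw [this, one_mul]
    · push Not at hall
      obtain ⟨j, hj, x, hx1, hx2, hx3⟩ := hall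
      obtain ⟨a, b, hab⟩ := hs j hj
      have hex : ∃ m : ℕ, (m = 1 ∨ m = 2) ∧ ∃ a' b' : ℕ,
          (2 : ℝ) ^ a * 3 ^ b = (m + 1) * (2 ^ a' * 3 ^ b') := by
        rcases a with _ | a
        · rcases b with _ | b
          · exfalso; apply hx3
            rw [hab x hx1 hx2]; simp
          · refine ⟨2, Or.inr rfl, 0, b, ?_⟩
            push_cast; ring
        · refine ⟨1, Or.inl rfl, a, b, ?_⟩
          push_cast; ring
      obtain ⟨m, hm, a', b', hm'⟩ := hex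
      have hlam : IsLam (m + 1) := by
        rcases hm with rfl | rfl
        · exact lam2
        · exact lam3
      have hs' := Sl_div (m := m) hj hs (a' := a') (b' := b')
        (fun x h1 h2 => by rw [hab x h1 h2, hm'])
      have hp' : Per (((n + m : ℕ) : ℝ) + 1) (N + 1) (h * (Sd n j m)⁻¹) := by
        have := hp.mul (Per_Sd (n := n) (i := j) hlam).inv
        push_cast; exact this
      have h0' : (h * (Sd n j m)⁻¹) 0 = 0 := by
        rw [RelIso.mul_apply]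
        have : (Sd n j m)⁻¹ 0 = 0 := by
          apply inv_eq_of
          rw [Sd_lo hj le_rfl (Nat.cast_nonneg j)]
        rw [this, h0]
      have hle := slopes hp' h0' (fun i hi => (hs' i hi).step)
      have hm1 : 1 ≤ m := by omega
      first
        | (exfalso; omega)
        | (have hCS : Per 1 (((n + m : ℕ) : ℝ) + 1) (Sd n j m * C) := by
             have := (Per_Sd (n := n) (i := j) hlam).mul hC
             push_cast; exact this
           have h1 := ih (n + m) N (by omega) _ hp' h0' hs' _ hCS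
           rw [← Q.ph_S (i := j) hm hC, ← h1]
           congr 1
           group)

lemma six_cast (m : ℕ) : (((6 ^ m - 1 : ℕ) : ℕ) : ℝ) + 1 = 6 ^ m := by
  have : 1 ≤ 6 ^ m := Nat.one_le_pow _ _ (by norm_num)
  rw [Nat.cast_sub this]; push_cast; ring

lemma lam6 (m : ℕ) : IsLam (6 ^ m) := IsLam.six.pow m

include Q in
lemma QHom.big {g : ℝ ≃o ℝ} (hg : Per 1 1 g) (g0 : g 0 = 0) {K : ℕ} (hK : ∀ j : ℤ, AffOn g K j) :
    ∀ᶠ m : ℕ in atTop, ph q (6 ^ m - 1) (Sc (6 ^ m) (lam6 m).pos * g) =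
      ph q (6 ^ K - 1) (Sc (6 ^ K) (lam6 K).pos) := by
  choose l hl hl' using hK
  have h1 : ∀ᶠ m : ℕ in atTop, ∀ j ∈ Finset.range (6 ^ K), ∃ a b : ℕ,
      (6 : ℝ) ^ m * l (j : ℕ) / 6 ^ K = 2 ^ a * 3 ^ b := by
    rw [Filter.eventually_all_finset]
    intro j _
    obtain ⟨a, b, hab⟩ := hl (j : ℕ)
    filter_upwards [eventually_ge_atTop (K + a.natAbs + b.natAbs)] with m hm
    refine ⟨(a + m - K).toNat, (b + m - K).toNat, ?_⟩
    rw [hab]
    have e1 : (2 : ℝ) ^ (a + m - K).toNat = 2 ^ (a + m - K) := by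
      rw [← zpow_natCast, Int.toNat_of_nonneg (by omega)]
    have e2 : (3 : ℝ) ^ (b + m - K).toNat = 3 ^ (b + m - K) := by
      rw [← zpow_natCast, Int.toNat_of_nonneg (by omega)]
    rw [e1, e2, zpow_sub₀ (by norm_num), zpow_sub₀ (by norm_num), zpow_add₀ (by norm_num),
      zpow_add₀ (by norm_num)]
    have e3 : (6 : ℝ) = 2 * 3 := by norm_num
    rw [e3, mul_pow, mul_pow]
    simp only [zpow_natCast]
    field_simp
  filter_upwards [h1] with m hm
  have hC : Per 1 (((6 ^ K - 1 : ℕ) : ℝ) + 1) (Sc (6 ^ K) (lam6 K).pos) := by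
    rw [six_cast]
    have := Per_Sc (lam6 K) 1
    rwa [mul_one] at this
  have hM : Per 1 (((6 ^ m - 1 : ℕ) : ℝ) + 1) (Sc (6 ^ m) (lam6 m).pos) := by
    rw [six_cast]
    have := Per_Sc (lam6 m) 1
    rwa [mul_one] at this
  have hh := (hM.mul hg).mul hC.inv
  have hval : ∀ x, (Sc (6 ^ m) (lam6 m).pos * g * (Sc (6 ^ K) (lam6 K).pos)⁻¹) x =
      6 ^ m * g (x / 6 ^ K) := by
    intro x
    rw [RelIso.mul_apply, RelIso.mul_apply, Sc_apply, Sc_inv_apply, inv_mul_eq_div]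
  have := Q.main (6 ^ m - 1) (6 ^ K - 1) (6 ^ m - 1) (by omega) _ hh
    (by rw [hval]; simp [g0]) ?_ _ hC
  · rw [← this]
    congr 1
    group
  · intro j hj
    have hj' : j < 6 ^ K := by
      have : 1 ≤ 6 ^ K := Nat.one_le_pow _ _ (by norm_num)
      omega
    obtain ⟨a, b, hab⟩ := hm j (Finset.mem_range.mpr hj')
    refine ⟨a, b, fun x hx1 hx2 => ?_⟩
    have h6 : (0 : ℝ) < 6 ^ K := by positivity
    rw [hval, hval, ← hab]
    have := hl' (j : ℕ) (x / 6 ^ K) (by push_cast; gcongr) (by push_cast; gcongr)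
    rw [this]
    push_cast
    field_simp

include Q in
/-- The lifted group modulo its centre is perfect. -/
theorem QHom.trivial {g : ℝ ≃o ℝ} (hg : Per 1 1 g) : q g = 0 := by
  have hT : ∀ a ∈ A6, q (T a) = 0 := by
    rintro a ⟨m, n, h⟩
    have hC : Per 1 (((6 ^ n - 1 : ℕ) : ℝ) + 1) (Sc (6 ^ n) (lam6 n).pos) := by
      rw [six_cast]
      have := Per_Sc (lam6 n) 1
      rwa [mul_one] at this
    have h1 := Q.kk_zpow hC m
    rw [Q.kk_zero, smul_zero] at h1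
    rw [← h1]
    congr 1
    rw [mul_assoc, eq_inv_mul_iff_mul_eq]
    ext x
    simp only [RelIso.mul_apply, T_apply, Sc_apply]
    rw [← h]; ring
  have ha : g 0 ∈ A6 := (hg.1.1 0).mpr A6.zero_mem
  set g' := T (- g 0) * g with hg'
  have hg'' : Per 1 1 g' := (Per_T (A6.neg_mem ha) 1).mul hg
  have h0 : g' 0 = 0 := by rw [hg', RelIso.mul_apply, T_apply]; ring
  have hq : q g = q g' := by
    have e : g = T (g 0) * g' := by
      rw [hg', ← mul_assoc, ← T_add, add_neg_cancel, T_zero, one_mul]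
    rw [e, Q.mul _ _ (Per_T ha 1) hg'', hT _ ha, zero_add]
  rw [hq]
  obtain ⟨K, hK⟩ := grid hg''.1 hg''.2
  have hK1 : ∀ j : ℤ, AffOn (1 : ℝ ≃o ℝ) K j :=
    fun j => ⟨1, IsLam.one, fun x _ _ => by simp⟩
  obtain ⟨m, h1, h2⟩ := ((Q.big hg'' h0 hK).and (Q.big (Per_one 1) rfl hK1)).exists
  rw [← h2, mul_one] at h1
  have hM : Per 1 (((6 ^ m - 1 : ℕ) : ℝ) + 1) (Sc (6 ^ m) (lam6 m).pos) := by
    rw [six_cast]
    have := Per_Sc (lam6 m) 1
    rwa [mul_one] at this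
  unfold ph at h1
  rw [← mul_assoc, Q.mul _ _ ((Per_bch _).inv.mul hM) hg''] at h1
  exact add_eq_left.mp h1

end
end Pool.Agent.Y329.T23
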