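import Pool.Agent.Y329.T23.Top

/-!
# From an enumerated equivariant family to a semiconjugacy
-/

open Set Filter Topology

namespace Pool.Agent.Y329.T23

/-- `p` is an increasing enumeration of the family `P`. -/
structure En (P : ℝ → Set ℝ) (p : ℝ → ℝ) : Prop where
  mono : ∀ x ∈ A6, ∀ y ∈ A6, x < y → p x < p y
  mem : ∀ x ∈ A6, ∀ w, w ∈ P x ↔ ∃ j : ℤ, w = p (x + j)

lemma En.lt_iff {P : ℝ → Set ℝ} {p : ℝ → ℝ} (h : En P p) {x y : ℝ} (hx : x ∈ A6) (hy : y ∈ A6) :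
    p x < p y ↔ x < y := by
  refine ⟨fun hlt => ?_, h.mono x hx y hy⟩
  rcases lt_trichotomy x y with g | g | g
  · exact g
  · rw [g] at hlt; exact absurd hlt (lt_irrefl _)
  · have := h.mono y hy x hx g; linarith

lemma En.inj {P : ℝ → Set ℝ} {p : ℝ → ℝ} (h : En P p) {x y : ℝ} (hx : x ∈ A6) (hy : y ∈ A6)
    (hxy : p x = p y) : x = y := by
  rcases lt_trichotomy x y with g | g | g
  · have := h.mono x hx y hy g; linarith
  · exact g
  · have := h.mono y hy x hx g; linarith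

/-- One step. -/
lemma En.step {P : ℝ → Set ℝ} {p p' : ℝ → ℝ} (h : En P p) (h' : En P p') {x : ℝ} (hx : x ∈ A6)
    {m : ℤ} (hm : p' x = p (x + m)) : p' (x + 1) = p (x + 1 + m) := by
  have hx1 : x + 1 ∈ A6 := A6.add_mem hx A6.one_mem
  obtain ⟨k, hk⟩ := (h.mem x hx (p' (x + 1))).mp ((h'.mem x hx _).mpr ⟨1, by simp⟩)
  obtain ⟨l, hl⟩ := (h'.mem x hx (p (x + (m + 1 : ℤ)))).mp ((h.mem x hx _).mpr ⟨m + 1, rfl⟩)
  have hA : ∀ i : ℤ, x + i ∈ A6 := fun i => A6.add_mem hx (A6.int i)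
  have g1 : p' x < p' (x + 1) := h'.mono x hx _ hx1 (by linarith)
  rw [hm, hk, h.lt_iff (hA m) (hA k)] at g1
  have g2 : (m : ℝ) < k := by linarith
  have g3 : m < k := by exact_mod_cast g2
  have g4 : p (x + m) < p (x + (m + 1 : ℤ)) := h.mono _ (hA m) _ (hA _) (by push_cast; linarith)
  rw [← hm, hl, h'.lt_iff hx (hA l)] at g4
  have g5 : (0 : ℝ) < l := by linarith
  have g6 : 0 < l := by exact_mod_cast g5
  have g7 : p' (x + 1) ≤ p' (x + l) := by
    rcases (show 1 ≤ l by omega).eq_or_lt with h1 | h1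
    · rw [← h1]; simp
    · refine (h'.mono _ hx1 _ (hA l) ?_).le
      have : (1 : ℝ) < l := by exact_mod_cast h1
      linarith
  rw [← hl, hk] at g7
  have g8 : k ≤ m + 1 := by
    by_contra hcon
    have : ((m + 1 : ℤ) : ℝ) < k := by exact_mod_cast (not_le.mp hcon)
    have := h.mono _ (hA (m + 1)) _ (hA k) (by linarith)
    linarith
  have g9 : k = m + 1 := by omega
  rw [hk, g9]; push_cast; congr 1; ring

lemma En.step_inv {P : ℝ → Set ℝ} {p p' : ℝ → ℝ} (h : En P p) (h' : En P p') {x : ℝ} (hx : x ∈ A6)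
    {m : ℤ} (hm : p' (x + 1) = p (x + 1 + m)) : p' x = p (x + m) := by
  have hx' : x ∈ A6 := hx
  obtain ⟨k, hk⟩ := (h.mem x hx (p' x)).mp ((h'.mem x hx _).mpr ⟨0, by simp⟩)
  have h1 := h.step h' hx hk
  rw [h1] at hm
  have h2 := h.inj (A6.add_mem (A6.add_mem hx A6.one_mem) (A6.int k))
    (A6.add_mem (A6.add_mem hx A6.one_mem) (A6.int m)) hm
  have h3 : (k : ℝ) = m := by linarith
  rw [hk, h3]

lemma En.steps {P : ℝ → Set ℝ} {p p' : ℝ → ℝ} (h : En P p) (h' : En P p') {x : ℝ} (hx : x ∈ A6)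
    {m : ℤ} (hm : p' x = p (x + m)) (j : ℤ) : p' (x + j) = p (x + j + m) := by
  induction j with
  | zero => simpa using hm
  | succ j ih =>
    have := h.step h' (A6.add_mem hx (A6.int j)) ih
    push_cast at this ⊢
    rw [← add_assoc]; exact this
  | pred j ih =>
    apply h.step_inv h' (A6.add_mem hx (A6.int _))
    have e1 : x + ((-(j : ℤ) - 1 : ℤ) : ℝ) + 1 = x + (-(j : ℤ) : ℤ) := by push_cast; ring
    rw [e1]; exact ih

/-- Enumerations are unique up to a shift. -/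
lemma En.unique {P : ℝ → Set ℝ} {p p' : ℝ → ℝ} (h : En P p) (h' : En P p') :
    ∃ m : ℤ, ∀ x ∈ A6, p' x = p (x + m) := by
  have hex : ∀ x ∈ A6, ∃ m : ℤ, p' x = p (x + m) := fun x hx =>
    (h.mem x hx (p' x)).mp ((h'.mem x hx _).mpr ⟨0, by simp⟩)
  obtain ⟨m, hm⟩ := hex 0 A6.zero_mem
  refine ⟨m, fun y hy => ?_⟩
  have f1 := Int.floor_le y
  have f2 := Int.lt_floor_add_one y
  have hyf : y - ⌊y⌋ ∈ A6 := A6.sub_mem hy (A6.int _)
  have key : p' (y - ⌊y⌋) = p (y - ⌊y⌋ + m) := by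
    rcases (show 0 ≤ y - ⌊y⌋ by linarith).eq_or_lt with h0 | h0
    · rw [← h0]; exact hm
    · obtain ⟨k, hk⟩ := hex _ hyf
      have g1 := h'.mono 0 A6.zero_mem _ hyf h0
      have g2 := h'.mono _ hyf 1 A6.one_mem (by linarith)
      have g3 := h.step h' A6.zero_mem hm
      rw [zero_add] at g3
      rw [hm, hk, h.lt_iff (A6.add_mem A6.zero_mem (A6.int m)) (A6.add_mem hyf (A6.int k))] at g1
      rw [g3, hk, h.lt_iff (A6.add_mem hyf (A6.int k)) (A6.add_mem A6.one_mem (A6.int m))] at g2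
      have g4 : (m : ℝ) - 1 < k := by linarith
      have g5 : (k : ℝ) < m + 1 := by linarith
      have g6 : m - 1 < k := by exact_mod_cast g4
      have g7 : k < m + 1 := by exact_mod_cast g5
      have g8 : k = m := by omega
      rw [hk, g8]
  have := h.steps h' hyf key ⌊y⌋
  rwa [sub_add_cancel] at this

/-- A semiconjugacy defined on `A6`. -/
structure Semi (Γ : Subgroup G2) (p : ℝ → ℝ) : Prop where
  mono : ∀ x ∈ A6, ∀ y ∈ A6, x < y → p x < p y
  per : ∀ x ∈ A6, p (x + 1) = p x + 1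
  lift : ∀ g, Per 1 1 g → ∃ F, ((g, F) : G2) ∈ Γ ∧ ∀ x ∈ A6, F (p x) = p (g x)
  rc : ∀ x ∈ A6, ∀ ε > 0, ∃ y ∈ A6, x < y ∧ p y < p x + ε

section
variable {Γ : Subgroup G2} (hΓ : Core Γ) {P : ℝ → Set ℝ}
  (hP : ∀ q ∈ Γ, ∀ x ∈ A6, ∀ v ∈ P x, q.2 v ∈ P (q.1 x)) {p : ℝ → ℝ} (hp : En P p)
include hΓ hP hp

lemma equiv_shift {q : G2} (hq : q ∈ Γ) : ∃ m : ℤ, ∀ x ∈ A6, q.2 (p x) = p (q.1 x + m) := by
  have hs := hΓ.sub q hq
  have hs' := hs.inv
  have hinvA : ∀ x ∈ A6, q.1⁻¹ x ∈ A6 := fun x hx => (hs'.1.1 x).mpr hx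
  have hint : ∀ (x : ℝ) (j : ℤ), q.1⁻¹ (x + j) = q.1⁻¹ x + j := fun x j => by
    have := per_int hs'.2 x j
    rwa [mul_one] at this
  have h' : En P (fun x => q.2 (p (q.1⁻¹ x))) := by
    constructor
    · intro x hx y hy hxy
      exact q.2.strictMono (hp.mono _ (hinvA x hx) _ (hinvA y hy) ((q.1⁻¹).strictMono hxy))
    · intro x hx w
      constructor
      · intro hw
        have h1 := hP q⁻¹ (inv_mem hq) x hx w hw
        obtain ⟨j, hj⟩ := (hp.mem _ (hinvA x hx) _).mp h1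
        refine ⟨j, ?_⟩
        rw [hint, ← hj]
        change w = q.2 (q.2⁻¹ w)
        rw [RelIso.apply_inv_self]
      · rintro ⟨j, rfl⟩
        have h1 : p (q.1⁻¹ (x + j)) ∈ P (q.1⁻¹ x) := by
          rw [hint]; exact (hp.mem _ (hinvA x hx) _).mpr ⟨j, rfl⟩
        have h2 := hP q hq _ (hinvA x hx) _ h1
        rwa [RelIso.apply_inv_self] at h2
  obtain ⟨m, hm⟩ := hp.unique h'
  refine ⟨m, fun x hx => ?_⟩
  have := hm (q.1 x) ((hs.1.1 x).mpr hx)
  simp only [RelIso.inv_apply_self] at this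
  exact this

lemma degree_one : ∀ x ∈ A6, p (x + 1) = p x + 1 := by
  obtain ⟨k, hk⟩ := equiv_shift hΓ hP hp hΓ.T1
  have hk' : ∀ x ∈ A6, p x + 1 = p (x + k) := hk
  have hA : ∀ x ∈ A6, ∀ i : ℤ, x + i ∈ A6 := fun x hx i => A6.add_mem hx (A6.int i)
  have hkpos : 0 < k := by
    have h1 := hk' 0 A6.zero_mem
    have h2 : p 0 < p (0 + k) := by linarith
    rw [hp.lt_iff A6.zero_mem (hA 0 A6.zero_mem k)] at h2
    have : (0 : ℝ) < k := by linarith
    exact_mod_cast this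
  obtain ⟨n, hn⟩ : ∃ n : ℕ, k = n + 1 := ⟨(k - 1).toNat, by omega⟩
  obtain ⟨κ, hκ, hκ1⟩ := ex_root n
  obtain ⟨F, hF⟩ := hΓ.surj κ hκ
  obtain ⟨m, hm⟩ := equiv_shift hΓ hP hp hF
  have hm' : ∀ x ∈ A6, F (p x) = p (κ x + m) := hm
  have hκA : ∀ (i : ℕ), ∀ x ∈ A6, (κ ^ i) x ∈ A6 := fun i x hx =>
    ((PLg.pow_mem hκ.1 i).1 x).mpr hx
  have hiter : ∀ (i : ℕ), ∀ x ∈ A6, (F ^ i) (p x) = p ((κ ^ i) x + (i * m : ℤ)) := by
    intro i
    induction i with
    | zero => intro x _; simp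
    | succ i ih =>
      intro x hx
      rw [pow_succ', RelIso.mul_apply, ih x hx, hm' _ (hA _ (hκA i x hx) _), pow_succ',
        RelIso.mul_apply]
      have := per_int hκ.2 ((κ ^ i) x) (i * m)
      rw [mul_one] at this
      rw [this]; push_cast; congr 1; ring
  have hFk : ((1, F ^ (n + 1)) : G2) ∈ Γ := by
    have h1 := mul_mem (pow_mem hF (n + 1)) (inv_mem hΓ.T1')
    rw [Prod.pow_mk, Prod.inv_mk, Prod.mk_mul_mk, hκ1, mul_inv_cancel, inv_one, mul_one] at h1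
    exact h1
  obtain ⟨j, hj⟩ := hΓ.ker _ hFk
  have h1 := hiter (n + 1) 0 A6.zero_mem
  rw [hj, hκ1, T_apply, T_apply] at h1
  -- `p x + j = p (x + k j)`
  have h2 : ∀ j : ℤ, ∀ x ∈ A6, p x + j = p (x + (k * j : ℤ)) := by
    intro j
    induction j with
    | zero => intro x _; simp
    | succ j ih =>
      intro x hx
      have g1 := ih x hx
      have g2 := hk' _ (hA x hx (k * j))
      push_cast at g1 g2 ⊢
      rw [← add_assoc, g1, g2]; congr 1; ring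
    | pred j ih =>
      intro x hx
      have g1 := ih x hx
      have g2 := hk' _ (hA x hx (k * (-(j : ℤ) - 1)))
      have e1 : x + ((k * (-(j : ℤ) - 1) : ℤ) : ℝ) + k = x + ((k * (-(j : ℤ)) : ℤ) : ℝ) := by
        push_cast; ring
      rw [e1, ← g1] at g2
      push_cast at g2 ⊢
      linarith
  rw [h2 j 0 A6.zero_mem] at h1
  have h3 := hp.inj (hA _ A6.zero_mem _) (hA _ (A6.add_mem A6.zero_mem A6.one_mem) _) h1
  have h4 : (k * j : ℤ) = 1 + ((n + 1 : ℕ) * m : ℤ) := by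
    have : ((k * j : ℤ) : ℝ) = ((1 + ((n + 1 : ℕ) * m : ℤ) : ℤ) : ℝ) := by
      push_cast at h3 ⊢; linarith
    exact_mod_cast this
  have h5 : k ∣ 1 := ⟨j - m, by rw [mul_sub, h4, hn]; push_cast; ring⟩
  have h6 : k = 1 := by
    have := Int.le_of_dvd one_pos h5
    omega
  intro x hx
  have := hk' x hx
  rw [h6] at this
  rw [this]; push_cast; rfl

theorem exists_semi : ∃ p' : ℝ → ℝ, Semi Γ p' := by
  have hd := degree_one hΓ hP hp
  have hdint : ∀ (m : ℤ), ∀ x ∈ A6, p (x + m) = p x + m := by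
    intro m
    induction m with
    | zero => intro x _; simp
    | succ m ih =>
      intro x hx
      have := hd _ (A6.add_mem hx (A6.int m))
      push_cast at this ⊢
      rw [← add_assoc, this]
      have g := ih x hx
      push_cast at g
      rw [g]; ring
    | pred m ih =>
      intro x hx
      have g1 := hd _ (A6.add_mem hx (A6.int (-(m : ℤ) - 1)))
      have e1 : x + ((-(m : ℤ) - 1 : ℤ) : ℝ) + 1 = x + (-(m : ℤ) : ℤ) := by push_cast; ring
      rw [e1, ih x hx] at g1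
      push_cast at g1 ⊢
      linarith
  have hlift : ∀ g, Per 1 1 g → ∃ F, ((g, F) : G2) ∈ Γ ∧ ∀ x ∈ A6, F (p x) = p (g x) := by
    intro g hg
    obtain ⟨F, hF⟩ := hΓ.surj g hg
    obtain ⟨m, hm⟩ := equiv_shift hΓ hP hp hF
    refine ⟨T (-m : ℤ) * F, ?_, fun x hx => ?_⟩
    · have := mul_mem (kerT hΓ (-m)) hF
      rwa [Prod.mk_mul_mk, one_mul] at this
    · have h1 : F (p x) = p (g x + m) := hm x hx
      rw [RelIso.mul_apply, h1, hdint m _ ((hg.1.1 x).mpr hx), T_apply]; push_cast; ring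
  -- right regularisation
  set S : ℝ → Set ℝ := fun x => {w | ∃ y ∈ A6, x < y ∧ w = p y} with hS
  have hSne : ∀ x ∈ A6, (S x).Nonempty := fun x hx =>
    ⟨p (x + 1), x + 1, A6.add_mem hx A6.one_mem, by linarith, rfl⟩
  have hSb : ∀ x ∈ A6, BddBelow (S x) := by
    intro x hx
    refine ⟨p x, ?_⟩
    rintro w ⟨y, hy, hxy, rfl⟩
    exact (hp.mono x hx y hy hxy).le
  have hle : ∀ x ∈ A6, p x ≤ sInf (S x) := by
    intro x hx
    refine le_csInf (hSne x hx) ?_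
    rintro w ⟨y, hy, hxy, rfl⟩
    exact (hp.mono x hx y hy hxy).le
  have hle2 : ∀ x ∈ A6, ∀ y ∈ A6, x < y → sInf (S x) ≤ p y := fun x hx y hy hxy =>
    csInf_le (hSb x hx) ⟨y, hy, hxy, rfl⟩
  have heq : ∀ g, Per 1 1 g → ∀ F : ℝ ≃o ℝ, (∀ x ∈ A6, F (p x) = p (g x)) → ∀ x ∈ A6,
      F (sInf (S x)) = sInf (S (g x)) := by
    intro g hg F hF x hx
    rw [OrderIso.map_csInf' F (hSne x hx) (hSb x hx)]
    congr 1
    ext w
    constructor
    · rintro ⟨_, ⟨y, hy, hxy, rfl⟩, rfl⟩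
      exact ⟨g y, (hg.1.1 y).mpr hy, g.strictMono hxy, hF y hy⟩
    · rintro ⟨y, hy, hxy, rfl⟩
      have hy' : g⁻¹ y ∈ A6 := (hg.inv.1.1 y).mpr hy
      refine ⟨p (g⁻¹ y), ⟨g⁻¹ y, hy', ?_, rfl⟩, ?_⟩
      · have := (g⁻¹).strictMono hxy
        rwa [RelIso.inv_apply_self] at this
      · rw [hF _ hy', RelIso.apply_inv_self]
  refine ⟨fun x => sInf (S x), ?_, ?_, ?_, ?_⟩
  · intro x hx y hy hxy
    obtain ⟨z, hz, z1, z2⟩ := A6.exists_between hxy
    have h1 := hle2 x hx z hz z1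
    have h2 := hp.mono z hz y hy z2
    have h3 := hle y hy
    change sInf (S x) < sInf (S y)
    linarith
  · intro x hx
    have := heq (T 1) (Per_T A6.one_mem 1) (T 1) (fun x hx => (hd x hx).symm) x hx
    exact this.symm
  · intro g hg
    obtain ⟨F, hF, hF'⟩ := hlift g hg
    exact ⟨F, hF, heq g hg F hF'⟩
  · intro x hx ε hε
    obtain ⟨w, ⟨z, hz, hxz, rfl⟩, hw⟩ := exists_lt_of_csInf_lt (hSne x hx)
      (show sInf (S x) < sInf (S x) + ε by linarith)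
    obtain ⟨y, hy, y1, y2⟩ := A6.exists_between hxz
    exact ⟨y, hy, y1, lt_of_le_of_lt (hle2 y hy z hz y2) hw⟩

end
end Pool.Agent.Y329.T23
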