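import Pool.Agent.Y329.T23.Grid

/-!
# Subdivision maps
-/

open Set Filter Topology

namespace Pool.Agent.Y329.T23

lemma Dm_aux1 (m : ℕ) : (1 : ℝ ≃o ℝ) 0 = Sc ((m : ℝ) + 1) (by positivity) 0 := by
  rw [Sc_apply, mul_zero]; rfl

lemma Dm_aux2 (m : ℕ) : glue 1 (Sc ((m : ℝ) + 1) (by positivity)) 0 (Dm_aux1 m) 1 = T m 1 := by
  rw [glue_right (by norm_num), Sc_apply, T_apply]; ring

/-- identity on `(-∞,0]`, slope `m+1` on `[0,1]`, translation by `m` on `[1,∞)`. -/
noncomputable def Dm (m : ℕ) : ℝ ≃o ℝ :=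
  glue (glue 1 (Sc ((m : ℝ) + 1) (by positivity)) 0 (Dm_aux1 m)) (T m) 1 (Dm_aux2 m)

lemma Dm_neg {m : ℕ} {x : ℝ} (h : x ≤ 0) : Dm m x = x := by
  unfold Dm
  rw [glue_left (by linarith), glue_left h]; rfl
lemma Dm_mid {m : ℕ} {x : ℝ} (h : 0 ≤ x) (h' : x ≤ 1) : Dm m x = (m + 1) * x := by
  unfold Dm
  rw [glue_left h', glue_right h]; rfl
lemma Dm_hi {m : ℕ} {x : ℝ} (h : 1 ≤ x) : Dm m x = x + m := by
  unfold Dm
  rw [glue_right h]; rfl

lemma Dm_mem {m : ℕ} (hm : IsLam (m + 1)) : Dm m ∈ PLg := by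
  unfold Dm
  refine glue_mem (glue_mem PLg.one_mem (Sc_mem hm) A6.zero_mem) (T_mem (A6.nat m)) A6.one_mem

/-- Subdivide arc `i` (of `n+1`) into `m+1`. -/
noncomputable def Sd (n i m : ℕ) : ℝ ≃o ℝ :=
  T i * perExt (Dm m) 0 (n + 1) (n + m + 1) (by positivity) (by positivity)
    (by rw [Dm_hi (by linarith [(Nat.cast_nonneg n : (0:ℝ) ≤ n)]), Dm_neg (by norm_num)]; ring) *
    T (-i)

lemma Sd_per (n i m : ℕ) (x : ℝ) : Sd n i m (x + (n + 1)) = Sd n i m x + (n + m + 1) := by
  unfold Sd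
  simp only [RelIso.mul_apply, T_apply]
  rw [show x + (n + 1) + -(i : ℝ) = x + -i + (n + 1) by ring, perExt_add]
  ring

lemma Sd_mid {n i m : ℕ} {x : ℝ} (h : i ≤ x) (h' : x ≤ i + 1) :
    Sd n i m x = i + (m + 1) * (x - i) := by
  unfold Sd
  simp only [RelIso.mul_apply, T_apply]
  rw [perExt_eq' (by linarith) (by linarith [(Nat.cast_nonneg n : (0:ℝ) ≤ n)]),
    Dm_mid (by linarith) (by linarith)]
  ring
lemma Sd_hi {n i m : ℕ} {x : ℝ} (h : i + 1 ≤ x) (h' : x ≤ n + 1) :
    Sd n i m x = x + m := by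
  unfold Sd
  simp only [RelIso.mul_apply, T_apply]
  rw [perExt_eq' (by linarith) (by linarith [(Nat.cast_nonneg i : (0:ℝ) ≤ i)]),
    Dm_hi (by linarith)]
  ring
lemma Sd_lo {n i m : ℕ} {x : ℝ} (hi : i ≤ n) (h : 0 ≤ x) (h' : x ≤ i) :
    Sd n i m x = x := by
  have hi' : (i : ℝ) ≤ n := by exact_mod_cast hi
  have h1 := Sd_per n i m x
  unfold Sd at h1 ⊢
  simp only [RelIso.mul_apply, T_apply] at h1 ⊢
  rw [perExt_eq' (x := x + (n + 1) + -i) (by linarith) (by linarith), Dm_hi (by linarith)] at h1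
  linarith

lemma Sd_mem {n i m : ℕ} (hm : IsLam (m + 1)) : Sd n i m ∈ PLg := by
  unfold Sd
  refine PLg.mul_mem (PLg.mul_mem (T_mem (A6.nat i)) (perExt_mem (Dm_mem hm) A6.zero_mem ?_ ?_))
    (T_mem (A6.neg_mem (A6.nat i)))
  · exact_mod_cast A6.nat (n + 1)
  · exact_mod_cast A6.nat (n + m + 1)

lemma ext_per {F G : ℝ ≃o ℝ} {n N : ℝ} (hn : 0 < n) (hF : ∀ x, F (x + n) = F x + N)
    (hG : ∀ x, G (x + n) = G x + N) (h : ∀ x, 0 ≤ x → x ≤ n → F x = G x) : F = G := by
  ext x
  have e1 := Int.lt_floor_add_one (x / n)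
  have e2 := Int.floor_le (x / n)
  rw [div_lt_iff₀ hn] at e1
  rw [le_div_iff₀ hn] at e2
  have h1 := per_int hF (x - ⌊x / n⌋ * n) ⌊x / n⌋
  have h2 := per_int hG (x - ⌊x / n⌋ * n) ⌊x / n⌋
  rw [sub_add_cancel] at h1 h2
  rw [h1, h2, h _ (by linarith) (by linarith)]

/-- Subdividing arc `i` and arc `j > i` commute. -/
lemma Sd_comm {n i j : ℕ} (m1 m2 : ℕ) (hij : i < j) (hj : j ≤ n) :
    Sd (n + m1) (j + m1) m2 * Sd n i m1 = Sd (n + m2) i m1 * Sd n j m2 := by
  have hij' : (i : ℝ) + 1 ≤ j := by exact_mod_cast hij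
  have hj' : (j : ℝ) ≤ n := by exact_mod_cast hj
  have hi0 : (0 : ℝ) ≤ i := Nat.cast_nonneg i
  have hm10 : (0 : ℝ) ≤ m1 := Nat.cast_nonneg m1
  have hm20 : (0 : ℝ) ≤ m2 := Nat.cast_nonneg m2
  refine ext_per (n := n + 1) (N := n + m1 + m2 + 1) (by positivity) ?_ ?_ ?_
  · intro x
    rw [RelIso.mul_apply, RelIso.mul_apply, Sd_per]
    have := Sd_per (n + m1) (j + m1) m2 (Sd n i m1 x)
    push_cast at this
    exact this
  · intro x
    rw [RelIso.mul_apply, RelIso.mul_apply, Sd_per]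
    have := Sd_per (n + m2) i m1 (Sd n j m2 x)
    push_cast at this
    rw [this]; ring
  · intro x hx0 hxn
    rw [RelIso.mul_apply, RelIso.mul_apply]
    rcases le_total x i with h1 | h1
    · rw [Sd_lo (by omega) hx0 h1, Sd_lo (by omega) hx0 (by push_cast; linarith),
        Sd_lo hj hx0 (by linarith), Sd_lo (by omega) hx0 h1]
    rcases le_total x (i + 1) with h2 | h2
    · have e1 : 0 ≤ (m1 + 1) * (x - i) := by apply mul_nonneg; positivity; linarith
      have e2 : (m1 + 1) * (x - i) ≤ m1 + 1 := by nlinarith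
      rw [Sd_mid h1 h2, Sd_lo (by omega) (by linarith) (by push_cast; linarith),
        Sd_lo hj hx0 (by linarith), Sd_mid h1 h2]
    rcases le_total x j with h3 | h3
    · rw [Sd_hi h2 hxn, Sd_lo (by omega) (by linarith) (by push_cast; linarith),
        Sd_lo hj hx0 h3, Sd_hi h2 (by push_cast; linarith)]
    rcases le_total x (j + 1) with h4 | h4
    · have e1 : 0 ≤ (m2 + 1) * (x - j) := by apply mul_nonneg; positivity; linarith
      have e2 : (m2 + 1) * (x - j) ≤ m2 + 1 := by nlinarith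
      rw [Sd_hi h2 hxn, Sd_mid (by push_cast; linarith) (by push_cast; linarith),
        Sd_mid h3 h4, Sd_hi (by linarith) (by push_cast; linarith)]
      push_cast; ring
    · rw [Sd_hi h2 hxn, Sd_hi (by push_cast; linarith) (by push_cast; linarith),
        Sd_hi h4 hxn, Sd_hi (by linarith) (by push_cast; linarith)]
      ring

/-- Subdividing an arc in six in two ways. -/
lemma Sd_six (n : ℕ) :
    Sd (n + 3) 0 2 * (Sd (n + 1) 1 2 * Sd n 0 1) =
      Sd (n + 4) 0 1 * (Sd (n + 3) 1 1 * (Sd (n + 2) 2 1 * Sd n 0 2)) := by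
  have hn0 : (0 : ℝ) ≤ n := Nat.cast_nonneg n
  refine ext_per (n := n + 1) (N := n + 6) (by positivity) ?_ ?_ ?_
  · intro x
    simp only [RelIso.mul_apply]
    rw [Sd_per]
    have h1 := Sd_per (n + 1) 1 2 (Sd n 0 1 x)
    have h2 := Sd_per (n + 3) 0 2 (Sd (n + 1) 1 2 (Sd n 0 1 x))
    push_cast at h1 h2 ⊢
    rw [h1, show ((n : ℝ) + 1 + 2 + 1) = n + 3 + 1 by ring, h2]; ring
  · intro x
    simp only [RelIso.mul_apply]
    rw [Sd_per]
    have h1 := Sd_per (n + 2) 2 1 (Sd n 0 2 x)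
    have h2 := Sd_per (n + 3) 1 1 (Sd (n + 2) 2 1 (Sd n 0 2 x))
    have h3 := Sd_per (n + 4) 0 1 (Sd (n + 3) 1 1 (Sd (n + 2) 2 1 (Sd n 0 2 x)))
    push_cast at h1 h2 h3 ⊢
    rw [h1, show ((n : ℝ) + 2 + 1 + 1) = n + 3 + 1 by ring, h2,
      show ((n : ℝ) + 3 + 1 + 1) = n + 4 + 1 by ring, h3]; ring
  · intro x hx0 hxn
    simp only [RelIso.mul_apply]
    rcases le_total x 1 with h1 | h1
    · have a1 : Sd n 0 1 x = 2 * x := by
        rw [Sd_mid (by simpa using hx0) (by simpa using h1)]; push_cast; ring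
      have a2 : Sd n 0 2 x = 3 * x := by
        rw [Sd_mid (by simpa using hx0) (by simpa using h1)]; push_cast; ring
      rw [a1, a2]
      have L : Sd (n + 3) 0 2 (Sd (n + 1) 1 2 (2 * x)) = 6 * x := by
        rcases le_total x (1 / 2) with h2 | h2
        · have b1 : Sd (n + 1) 1 2 (2 * x) = 2 * x :=
            Sd_lo (by omega) (by linarith) (by push_cast; linarith)
          rw [b1, Sd_mid (by push_cast; linarith) (by push_cast; linarith)]
          push_cast; ring
        · have b1 : Sd (n + 1) 1 2 (2 * x) = 6 * x - 2 := by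
            rw [Sd_mid (by push_cast; linarith) (by push_cast; linarith)]
            push_cast; ring
          rw [b1, Sd_hi (by push_cast; linarith) (by push_cast; linarith)]
          push_cast; ring
      have R : Sd (n + 4) 0 1 (Sd (n + 3) 1 1 (Sd (n + 2) 2 1 (3 * x))) = 6 * x := by
        rcases le_total x (1 / 3) with h2 | h2
        · have b1 : Sd (n + 2) 2 1 (3 * x) = 3 * x :=
            Sd_lo (by omega) (by linarith) (by push_cast; linarith)
          have b2 : Sd (n + 3) 1 1 (3 * x) = 3 * x :=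
            Sd_lo (by omega) (by linarith) (by push_cast; linarith)
          rw [b1, b2, Sd_mid (by push_cast; linarith) (by push_cast; linarith)]
          push_cast; ring
        rcases le_total x (2 / 3) with h3 | h3
        · have b1 : Sd (n + 2) 2 1 (3 * x) = 3 * x :=
            Sd_lo (by omega) (by linarith) (by push_cast; linarith)
          have b2 : Sd (n + 3) 1 1 (3 * x) = 6 * x - 1 := by
            rw [Sd_mid (by push_cast; linarith) (by push_cast; linarith)]
            push_cast; ring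
          rw [b1, b2, Sd_hi (by push_cast; linarith) (by push_cast; linarith)]
          push_cast; ring
        · have b1 : Sd (n + 2) 2 1 (3 * x) = 6 * x - 2 := by
            rw [Sd_mid (by push_cast; linarith) (by push_cast; linarith)]
            push_cast; ring
          have b2 : Sd (n + 3) 1 1 (6 * x - 2) = 6 * x - 1 := by
            rw [Sd_hi (by push_cast; linarith) (by push_cast; linarith)]
            push_cast; ring
          rw [b1, b2, Sd_hi (by push_cast; linarith) (by push_cast; linarith)]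
          push_cast; ring
      rw [L, R]
    · have b1 : Sd n 0 1 x = x + 1 := by
        rw [Sd_hi (by simpa using h1) hxn]; push_cast; ring
      have b2 : Sd n 0 2 x = x + 2 := by
        rw [Sd_hi (by simpa using h1) hxn]; push_cast; ring
      have b3 : Sd (n + 1) 1 2 (x + 1) = x + 3 := by
        rw [Sd_hi (by push_cast; linarith) (by push_cast; linarith)]; push_cast; ring
      have b4 : Sd (n + 3) 0 2 (x + 3) = x + 5 := by
        rw [Sd_hi (by push_cast; linarith) (by push_cast; linarith)]; push_cast; ring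
      have b5 : Sd (n + 2) 2 1 (x + 2) = x + 3 := by
        rw [Sd_hi (by push_cast; linarith) (by push_cast; linarith)]; push_cast; ring
      have b6 : Sd (n + 3) 1 1 (x + 3) = x + 4 := by
        rw [Sd_hi (by push_cast; linarith) (by push_cast; linarith)]; push_cast; ring
      have b7 : Sd (n + 4) 0 1 (x + 4) = x + 5 := by
        rw [Sd_hi (by push_cast; linarith) (by push_cast; linarith)]; push_cast; ring
      rw [b1, b2, b3, b4, b5, b6, b7]

end Pool.Agent.Y329.T23
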