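import Pool.Agent.Y329.T23.Enum

/-!
# The topological structure of actions
-/

open Set Filter Topology
open scoped commutatorElement

namespace Pool.Agent.Y329.T23

lemma last {S : Set ℝ} (hne : S.Nonempty) (hcl : IsClosed S) (hper : ∀ v, v + 1 ∈ S ↔ v ∈ S)
    {q : ℝ} (hq : q ∉ S) : ∃ p ∈ S, p < q ∧ ∀ r ∈ S, p < r → q < r := by
  obtain ⟨v, hv⟩ := hne
  have hint : ∀ k : ℕ, v - k ∈ S := by
    intro k
    induction k with
    | zero => simpa using hv
    | succ k ih =>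
      have := (hper (v - ((k + 1 : ℕ) : ℝ))).mp (by
        have e1 : v - ((k + 1 : ℕ) : ℝ) + 1 = v - k := by push_cast; ring
        rw [e1]; exact ih)
      exact this
  obtain ⟨k, hk⟩ := exists_nat_gt (v - q)
  set W : Set ℝ := S ∩ Iic q with hW
  have hWne : W.Nonempty := ⟨v - k, hint k, by rw [mem_Iic]; linarith⟩
  have hWb : BddAbove W := ⟨q, fun x hx => hx.2⟩
  have hWc : IsClosed W := hcl.inter isClosed_Iic
  have h1 := hWc.csSup_mem hWne hWb
  refine ⟨sSup W, h1.1, lt_of_le_of_ne h1.2 (fun h => hq (h ▸ h1.1)), fun r hr hlt => ?_⟩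
  by_contra hcon
  have := le_csSup hWb (show r ∈ W from ⟨hr, not_lt.mp hcon⟩)
  linarith

section
variable {Γ : Subgroup G2}

lemma Nx_trans (hΓ : Core Γ) {w y z y' z' : ℝ} (hw : w ∈ A6) (hy : y ∈ A6) (hz : z ∈ A6)
    (hy' : y' ∈ A6) (hz' : z' ∈ A6) (h1 : w < y) (h2 : y < z) (h3 : z < w + 1) (h1' : w < y')
    (h2' : y' < z') (h3' : z' < w + 1) : ∃ n ∈ Nx Γ w, n.1 y = y' ∧ n.1 z = z' := by
  obtain ⟨h, hh, k, hk, e1, e2⟩ := Nn_trans hw hy hz hy' hz' h1 h2 h3 h1' h2' h3'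
  obtain ⟨H, hH⟩ := hΓ.surj h hh.1
  obtain ⟨K, hK⟩ := hΓ.surj k hk.1
  exact ⟨⁅((h, H) : G2), (k, K)⁆, Subgroup.subset_closure ⟨_, ⟨hH, hh.2⟩, _, ⟨hK, hk.2⟩, rfl⟩,
    e1, e2⟩

lemma X_shift_int (hΓ : Core Γ) (x : ℝ) (i : ℤ) : X Γ (x + i) = X Γ x := by
  induction i with
  | zero => simp
  | succ i ih =>
    rw [← ih]
    have := X_shift hΓ (x := x + (i : ℤ))
    rw [← this]; push_cast; ring_nf
  | pred i ih =>
    rw [← ih]
    have := X_shift hΓ (x := x + (-(i : ℤ) - 1 : ℤ))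
    rw [← this]; push_cast; ring_nf

lemma kerT (hΓ : Core Γ) (m : ℤ) : ((1, T m) : G2) ∈ Γ := by
  have := zpow_mem hΓ.T1 m
  have e : ((1, T 1) : G2) ^ m = (1, T m) := by
    rw [Prod.pow_mk, one_zpow, T_zpow, mul_one]
  rwa [e] at this
lemma kerT' (hΓ : Core Γ) (m : ℤ) : ((T m, 1) : G2) ∈ Γ := by
  have := zpow_mem hΓ.T1' m
  have e : ((T 1, 1) : G2) ^ m = (T m, 1) := by
    rw [Prod.pow_mk, one_zpow, T_zpow, mul_one]
  rwa [e] at this

lemma Deg_comm_T {F : ℝ ≃o ℝ} (h : Deg F) (m : ℤ) : F * T m = T m * F := by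
  ext x; simp only [RelIso.mul_apply, T_apply]; exact h.int x m

/-- A common fixed point for two inequivalent points forces triviality. -/
theorem triv (hΓ : Core Γ) {x y : ℝ} (hx : x ∈ A6) (hy : y ∈ A6) (hxy : ∀ i : ℤ, y ≠ x + i)
    {v : ℝ} (hvx : v ∈ X Γ x) (hvy : v ∈ X Γ y) : ∀ p ∈ Γ, ∃ m : ℤ, p.2 = T m := by
  -- the stabiliser
  let V : Subgroup (ℝ ≃o ℝ) :=
    { carrier := {g | ∃ F, ((g, F) : G2) ∈ Γ ∧ ∃ m : ℤ, F v = v + m}
      mul_mem' := by
        rintro g g' ⟨F, hF, m, hm⟩ ⟨F', hF', m', hm'⟩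
        refine ⟨F * F', mul_mem hF hF', m + m', ?_⟩
        rw [RelIso.mul_apply, hm', (hΓ.deg _ hF).int, hm]; push_cast; ring
      one_mem' := ⟨1, one_mem _, 0, by simp⟩
      inv_mem' := by
        rintro g ⟨F, hF, m, hm⟩
        refine ⟨F⁻¹, inv_mem hF, -m, ?_⟩
        apply inv_eq_of
        rw [(hΓ.deg _ hF).int, hm]; push_cast; ring }
  have hN : ∀ z, v ∈ X Γ z → ∀ h ∈ Hn z, ∀ k ∈ Hn z, ⁅h, k⁆ ∈ V := by
    intro z hvz h hh k hk
    obtain ⟨H, hH⟩ := hΓ.surj h hh.1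
    obtain ⟨K, hK⟩ := hΓ.surj k hk.1
    have h1 : ⁅((h, H) : G2), (k, K)⁆ ∈ Nx Γ z :=
      Subgroup.subset_closure ⟨_, ⟨hH, hh.2⟩, _, ⟨hK, hk.2⟩, rfl⟩
    refine ⟨⁅H, K⁆, (Nx_le z h1).1, 0, ?_⟩
    have := hvz _ h1
    simp only [Int.cast_zero, add_zero]
    exact this
  have hV : ∀ g, Per 1 1 g → g ∈ V := fun g hg =>
    gen_two V ⟨1, hΓ.T1', 0, by simp⟩ hx hy hxy (hN x hvx) (hN y hvy) hg
  have hA2 : (1 / 2 : ℝ) ∈ A6 := by rw [one_div]; exact A6.half
  have hT2 : Per 1 1 (T (1 / 2)) := Per_T hA2 1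
  obtain ⟨F, hF, m, hm⟩ := hV _ hT2
  have hT2Γ : ((T (1 / 2), 1) : G2) ∈ Γ := by
    set F' := T (-m : ℤ) * F with hF'
    have h1 : ((T (1 / 2), F') : G2) ∈ Γ := by
      have := mul_mem (kerT hΓ (-m)) hF
      rwa [Prod.mk_mul_mk, one_mul] at this
    have h2 : F' v = v := by
      rw [hF', RelIso.mul_apply, hm, T_apply]; push_cast; ring
    have h3 : ((1, F' * F') : G2) ∈ Γ := by
      have := mul_mem (mul_mem h1 h1) (inv_mem hΓ.T1')
      rw [Prod.mk_mul_mk, Prod.inv_mk, Prod.mk_mul_mk, ← T_add, inv_one, mul_one] at this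
      norm_num at this
      exact this
    obtain ⟨j, hj⟩ := hΓ.ker _ h3
    have h4 : F' * F' = 1 := by
      have : (F' * F') v = v + j := by rw [hj]; rfl
      rw [RelIso.mul_apply, h2, h2] at this
      have hj0 : (j : ℝ) = 0 := by linarith
      rw [hj, hj0, T_zero]
    have h5 : F' = 1 := by
      ext w
      have h6 : F' (F' w) = w := by
        have := congrArg (fun G : ℝ ≃o ℝ => G w) h4
        exact this
      change F' w = w
      rcases lt_trichotomy (F' w) w with h | h | h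
      · have := F'.strictMono h
        rw [h6] at this; linarith
      · exact h
      · have := F'.strictMono h
        rw [h6] at this; linarith
    rwa [h5] at h1
  -- kernel
  let K : Subgroup (ℝ ≃o ℝ) :=
    { carrier := {g | ∃ m : ℤ, ((g, T m) : G2) ∈ Γ}
      mul_mem' := by
        rintro g g' ⟨m, hm⟩ ⟨m', hm'⟩
        refine ⟨m + m', ?_⟩
        have := mul_mem hm hm'
        rw [Prod.mk_mul_mk, ← T_add] at this
        push_cast; exact this
      one_mem' := ⟨0, by simpa [T_zero] using kerT hΓ 0⟩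
      inv_mem' := by
        rintro g ⟨m, hm⟩
        refine ⟨-m, ?_⟩
        have := inv_mem hm
        rw [Prod.inv_mk, ← T_neg] at this
        push_cast; exact this }
  have hKn : ∀ g, Per 1 1 g → ∀ n ∈ K, g * n * g⁻¹ ∈ K := by
    rintro g hg n ⟨m, hm⟩
    obtain ⟨G, hG⟩ := hΓ.surj g hg
    refine ⟨m, ?_⟩
    have := mul_mem (mul_mem hG hm) (inv_mem hG)
    rw [Prod.mk_mul_mk, Prod.inv_mk, Prod.mk_mul_mk, Deg_comm_T (hΓ.deg _ hG)] at this
    have e : T (m : ℝ) * G * G⁻¹ = T m := by group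
    rwa [e] at this
  have hKT2 : T (1 / 2) ∈ K := ⟨0, by simpa [T_zero] using hT2Γ⟩
  have hKT1 : T 1 ∈ K := ⟨0, by simpa [T_zero] using hΓ.T1'⟩
  have hKN : ∀ z ∈ A6, ∀ h ∈ Hn z, ∀ k ∈ Hn z, ⁅h, k⁆ ∈ K := by
    intro z hz h hh k hk
    obtain ⟨ε, hε, hball⟩ := Metric.eventually_nhds_iff.mp (hh.2.and hk.2)
    obtain ⟨e, he, e1, e2⟩ := A6.exists_between (show 0 < min ε (1 / 2) from
      lt_min hε (by norm_num))
    have e3 := lt_min_iff.mp e2
    have hA4 : (1 / 6 : ℝ) ∈ A6 := by rw [one_div]; exact A6.sixth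
    have hA3 : (1 / 3 : ℝ) ∈ A6 := by rw [one_div]; exact A6.third
    obtain ⟨c, hc, c1, c2⟩ := conn2 (A6.add_mem hz he)
      (A6.sub_mem (A6.add_mem hz A6.one_mem) he) (A6.add_mem hz hA4) (A6.add_mem hz hA3)
      (by linarith) (by norm_num) (by linarith) (by linarith)
    -- conjugates are supported in `[z+1/6, z+1/3]`
    have hid : ∀ a ∈ Hn z, (∀ y, dist y z < ε → a y = y) → ∀ y, z + 1 / 3 ≤ y →
        y ≤ z + 1 / 6 + 1 → (c * a * c⁻¹) y = y := by
      intro a ha ha' y hy1 hy2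
      simp only [RelIso.mul_apply]
      have g1 : z + 1 - e ≤ c⁻¹ y := by
        rw [← inv_eq_of c2]; exact (c⁻¹).monotone (by linarith)
      have g2 : c⁻¹ y ≤ z + e + 1 := by
        have : c⁻¹ (z + 1 / 6 + 1) = z + e + 1 := inv_eq_of (by rw [hc.2, c1])
        rw [← this]; exact (c⁻¹).monotone hy2
      have g3 : a (c⁻¹ y) = c⁻¹ y := by
        have := ha' (c⁻¹ y - 1) (by rw [Real.dist_eq, abs_lt]; constructor <;> linarith)
        have h := ha.1.2 (c⁻¹ y - 1)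
        rw [sub_add_cancel, this, sub_add_cancel] at h
        exact h
      rw [g3, RelIso.apply_inv_self]
    set h' := c * h * c⁻¹ with hh'
    set k' := c * k * c⁻¹ with hk'
    have hh'P : Per 1 1 h' := (hc.mul hh.1).mul hc.inv
    have hk'P : Per 1 1 k' := (hc.mul hk.1).mul hc.inv
    have i1 := hid h hh (fun y hy => (hball hy).1)
    have i2 := hid k hk (fun y hy => (hball hy).2)
    set t := T (1 / 2) with ht
    set u := t * h'⁻¹ * t⁻¹ with hu
    have huP : Per 1 1 u := (hT2.mul hh'P.inv).mul hT2.inv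
    -- `u` commutes with `k'`
    have huid : ∀ y, z + 1 / 3 ≤ y + 1 / 2 → y + 1 / 2 ≤ z + 1 / 6 + 1 → u y = y := by
      intro y hy1 hy2
      have h1 : h' (y + 1 / 2) = y + 1 / 2 := i1 _ hy1 hy2
      have h2 : h' (y - 1 / 2) = y - 1 / 2 := by
        have := hh'P.2 (y - 1 / 2)
        rw [show y - 1 / 2 + 1 = y + 1 / 2 by ring, h1] at this
        linarith
      rw [hu]
      simp only [RelIso.mul_apply]
      rw [ht, T_inv_apply, inv_eq_of h2, T_apply]; ring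
    have hcomm : k' * u = u * k' := by
      refine supp_comm (u := z + 1 / 6) (v := z + 1 / 2) hk'P.2 huP.2 ?_ ?_ (by linarith)
        (by linarith)
      · intro y hy1 hy2
        exact i2 y (by linarith) (by linarith)
      · intro y hy1 hy2
        exact huid y (by linarith) (by linarith)
    have hcomm2 : ⁅h', k'⁆ = ⁅h' * u, k'⁆ := by
      have e1 : u * k' * u⁻¹ = k' := by rw [← hcomm]; group
      simp only [commutatorElement_def]
      have e2 : h' * u * k' * (h' * u)⁻¹ * k'⁻¹ = h' * (u * k' * u⁻¹) * h'⁻¹ * k'⁻¹ := by group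
      rw [e2, e1]
    have hmem1 : h' * u ∈ K := by
      have e1 : h' * u = (h' * t * h'⁻¹) * t⁻¹ := by rw [hu]; group
      rw [e1]
      exact mul_mem (hKn _ hh'P _ hKT2) (inv_mem hKT2)
    have hmem2 : ⁅h', k'⁆ ∈ K := by
      rw [hcomm2, commutatorElement_def]
      have e1 : h' * u * k' * (h' * u)⁻¹ * k'⁻¹ = (h' * u) * (k' * (h' * u)⁻¹ * k'⁻¹) := by group
      rw [e1]
      exact mul_mem hmem1 (hKn _ hk'P _ (inv_mem hmem1))
    have e5 : ⁅h, k⁆ = c⁻¹ * ⁅h', k'⁆ * c⁻¹⁻¹ := by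
      rw [hh', hk']
      simp only [commutatorElement_def]; group
    rw [e5]
    exact hKn _ hc.inv _ hmem2
  intro p hp
  obtain ⟨m', hm'⟩ := gen K hKn hKT1 hKN (hΓ.sub p hp)
  have h1 := mul_mem (inv_mem hm') hp
  have h2 : ((p.1, T m') : G2)⁻¹ * p = (1, (T (m' : ℝ))⁻¹ * p.2) := by
    apply Prod.ext
    · change p.1⁻¹ * p.1 = 1
      group
    · rfl
  rw [h2] at h1
  obtain ⟨j, hj⟩ := hΓ.ker _ h1
  refine ⟨m' + j, ?_⟩
  rw [inv_mul_eq_iff_eq_mul] at hj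
  rw [hj, ← T_add]; push_cast; rfl

/-- The X-sets are disjoint. -/
def Dj (Γ : Subgroup G2) : Prop :=
  ∀ x ∈ A6, ∀ y ∈ A6, (∀ i : ℤ, y ≠ x + i) → ∀ v ∈ X Γ x, v ∉ X Γ y

/-- Last points of `X x` before points of `X y`. -/
def Rx (Γ : Subgroup G2) (x y : ℝ) : Set ℝ :=
  {v | v ∈ X Γ x ∧ ∃ q ∈ X Γ y, v < q ∧ ∀ r ∈ X Γ x, v < r → q < r}

lemma Rx_equiv {x y : ℝ} {p : G2} (hp : p ∈ Γ) {v : ℝ} (hv : v ∈ Rx Γ x y) :
    p.2 v ∈ Rx Γ (p.1 x) (p.1 y) := by
  obtain ⟨h1, q, hq, h2, h3⟩ := hv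
  refine ⟨(X_equiv hp).mpr h1, p.2 q, (X_equiv hp).mpr hq, p.2.strictMono h2, fun r hr hlt => ?_⟩
  have hr' : p.2⁻¹ r ∈ X Γ x := by
    rw [← X_equiv hp, RelIso.apply_inv_self]; exact hr
  have h4 : v < p.2⁻¹ r := by
    have := (p.2⁻¹).strictMono hlt
    rwa [RelIso.inv_apply_self] at this
  have := p.2.strictMono (h3 _ hr' h4)
  rwa [RelIso.apply_inv_self] at this

lemma into_unit {x y : ℝ} (hxy : ∀ i : ℤ, y ≠ x + i) : ∃ i : ℤ, x < y + i ∧ y + i < x + 1 := by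
  have f1 := Int.floor_le (y - x)
  have f2 := Int.lt_floor_add_one (y - x)
  refine ⟨-⌊y - x⌋, ?_, by push_cast; linarith⟩
  rcases (show x ≤ y + (-⌊y - x⌋ : ℤ) by push_cast; linarith).eq_or_lt with h | h
  · exfalso
    refine hxy ⌊y - x⌋ ?_
    push_cast at h
    linarith
  · exact h

lemma Rx_indep (hΓ : Core Γ) {x y y' : ℝ} (hx : x ∈ A6) (hy : y ∈ A6) (hy' : y' ∈ A6)
    (h : ∀ i : ℤ, y ≠ x + i) (h' : ∀ i : ℤ, y' ≠ x + i) : Rx Γ x y ⊆ Rx Γ x y' := by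
  rintro v ⟨h1, q, hq, h2, h3⟩
  obtain ⟨i, i1, i2⟩ := into_unit h
  obtain ⟨j, j1, j2⟩ := into_unit h'
  obtain ⟨u, hu, u1, u2⟩ := A6.exists_between (max_lt i2 j2)
  have u3 := max_lt_iff.mp u1
  have hyi : y + i ∈ A6 := A6.add_mem hy (A6.int i)
  have hyj : y' + j ∈ A6 := A6.add_mem hy' (A6.int j)
  obtain ⟨n, hn, n1, -⟩ := Nx_trans hΓ hx hyi hu hyj hu i1 u3.1 u2 j1 u3.2 u2
  have hnΓ : n ∈ Γ := (Nx_le x hn).1
  refine ⟨h1, n.2 q, ?_, ?_, fun r hr hlt => ?_⟩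
  · rw [← X_shift_int hΓ y' j, ← n1, X_equiv hnΓ, X_shift_int hΓ]; exact hq
  · have := n.2.strictMono h2
    rwa [h1 n hn] at this
  · have := n.2.strictMono (h3 r hr hlt)
    rwa [hr n hn] at this

/-- the equivariant discrete family -/
def Px (Γ : Subgroup G2) (x : ℝ) : Set ℝ := Rx Γ x (x + 1 / 2)

lemma half_ne (x : ℝ) (i : ℤ) : x + 1 / 2 ≠ x + i := by
  intro h
  have h1 : (1 / 2 : ℝ) = i := by linarith
  have h2 : (0 : ℝ) < i := by linarith
  have h3 : (i : ℝ) < 1 := by linarith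
  have h4 : 0 < i := by exact_mod_cast h2
  have h5 : i < 1 := by exact_mod_cast h3
  omega

lemma half_mem {x : ℝ} (hx : x ∈ A6) : x + 1 / 2 ∈ A6 :=
  A6.add_mem hx (by rw [one_div]; exact A6.half)

lemma Px_eq (hΓ : Core Γ) {x y : ℝ} (hx : x ∈ A6) (hy : y ∈ A6) (h : ∀ i : ℤ, y ≠ x + i) :
    Px Γ x = Rx Γ x y :=
  Subset.antisymm (Rx_indep hΓ hx (half_mem hx) hy (half_ne x) h)
    (Rx_indep hΓ hx hy (half_mem hx) h (half_ne x))

lemma Px_equiv (hΓ : Core Γ) {p : G2} (hp : p ∈ Γ) {x : ℝ} (hx : x ∈ A6) {v : ℝ}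
    (hv : v ∈ Px Γ x) : p.2 v ∈ Px Γ (p.1 x) := by
  have hs := hΓ.sub p hp
  rw [Px_eq hΓ ((hs.1.1 _).mpr hx) (y := p.1 (x + 1 / 2)) ((hs.1.1 _).mpr (half_mem hx)) ?_]
  · exact Rx_equiv hp hv
  · intro i hi
    have h1 := per_int hs.2 x i
    rw [mul_one] at h1
    rw [← h1] at hi
    exact half_ne x i (p.1.injective hi)

lemma Px_fam (hΓ : Core Γ) (hD : Dj Γ) : Fam (Px Γ) where
  ne := by
    intro x hx
    obtain ⟨q, hq⟩ := X_nonempty hΓ (half_mem hx)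
    have hqx : q ∉ X Γ x := fun h => hD x hx _ (half_mem hx) (half_ne x) q h hq
    obtain ⟨p, hp, p1, p2⟩ := last (X_nonempty hΓ hx) (X_closed x) (fun v => X_add_one hΓ) hqx
    exact ⟨p, hp, q, hq, p1, p2⟩
  fin := by
    intro x hx a b
    have hK : IsCompact (X Γ x ∩ Icc a b) := isCompact_Icc.inter_left (X_closed x)
    have hdis : Disjoint (X Γ x ∩ Icc a b) (X Γ (x + 1 / 2)) := by
      rw [Set.disjoint_left]
      intro v hv
      exact hD x hx _ (half_mem hx) (half_ne x) v hv.1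
    obtain ⟨δ, hδ, hsep⟩ := Metric.exists_pos_forall_lt_edist hK (X_closed _) hdis
    have hsep' : ∀ u ∈ X Γ x ∩ Icc a b, ∀ v ∈ X Γ (x + 1 / 2), (δ : ℝ) < |u - v| := by
      intro u hu v hv
      have := hsep u hu v hv
      rw [edist_dist, Real.dist_eq] at this
      rw [← ENNReal.ofReal_coe_nnreal] at this
      exact (ENNReal.ofReal_lt_ofReal_iff_of_nonneg δ.2).mp this
    have hδ' : (0 : ℝ) < δ := by exact_mod_cast hδ
    refine Set.Finite.of_injOn (f := fun u => ⌊(u - a) / δ⌋) (t := Icc 0 ⌊(b - a) / δ⌋) ?_ ?_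
      (Set.finite_Icc _ _)
    · intro u hu
      refine ⟨Int.floor_nonneg.mpr (div_nonneg (by linarith [hu.2.1]) hδ'.le), ?_⟩
      exact Int.floor_mono (by gcongr; exact hu.2.2)
    · have key : ∀ u ∈ Px Γ x ∩ Icc a b, ∀ u' ∈ Px Γ x ∩ Icc a b, u < u' → (u - a) / δ + 1 <
          (u' - a) / δ := by
        intro u hu u' hu' hlt
        obtain ⟨⟨h1, q, hq, h2, h3⟩, h4⟩ := hu
        have h5 := h3 u' hu'.1.1 hlt
        have h6 := hsep' u' ⟨hu'.1.1, hu'.2⟩ q hq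
        rw [abs_of_pos (by linarith)] at h6
        rw [div_add_one hδ'.ne']
        gcongr
        linarith
      intro u hu u' hu' heq
      simp only at heq
      rcases lt_trichotomy u u' with h | h | h
      · have h1 := key u hu u' hu' h
        have h2 := Int.lt_floor_add_one ((u - a) / δ)
        have h3 := Int.floor_le ((u' - a) / δ)
        have h4 := Int.lt_floor_add_one ((u' - a) / δ)
        have h5 := Int.floor_le ((u - a) / δ)
        rw [heq] at h5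
        linarith
      · exact h
      · have h1 := key u' hu' u hu h
        have h4 := Int.lt_floor_add_one ((u - a) / δ)
        have h5 := Int.floor_le ((u' - a) / δ)
        rw [← heq] at h5
        linarith
  per := by
    intro x hx v
    constructor
    · intro h
      have := Px_equiv hΓ (inv_mem hΓ.T1) hx h
      have e1 : (((1, T 1) : G2)⁻¹).2 (v + 1) = v := by
        change (T 1)⁻¹ (v + 1) = v
        rw [T_inv_apply]; ring
      have e2 : (((1, T 1) : G2)⁻¹).1 x = x := by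
        change (1 : ℝ ≃o ℝ)⁻¹ x = x
        rw [inv_one]; rfl
      rwa [e1, e2] at this
    · intro h
      exact Px_equiv hΓ hΓ.T1 hx h
  shift := by
    intro x hx
    unfold Px Rx
    rw [X_shift hΓ, show x + 1 + 1 / 2 = x + 1 / 2 + 1 by ring, X_shift hΓ]
  disj := by
    intro x hx y hy hxy v hv hv'
    exact hD x hx y hy hxy v hv.1 hv'.1
  inter := by
    intro x hx y hy hxy u hu v hv huv
    have hyx : ∀ i : ℤ, x ≠ y + i := fun i hi => hxy (-i) (by rw [hi]; push_cast; ring)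
    rw [Px_eq hΓ hx hy hxy] at hu
    obtain ⟨-, q, hq, h2, h3⟩ := hu
    have hqv := h3 v hv.1 huv
    have hvy : v ∉ X Γ y := hD x hx y hy hxy v hv.1
    obtain ⟨w, hw, w1, w2⟩ := last (X_nonempty hΓ hy) (X_closed y) (fun v => X_add_one hΓ) hvy
    refine ⟨w, ?_, ?_, w1⟩
    · rw [Px_eq hΓ hy hx hyx]
      exact ⟨hw, v, hv.1, w1, w2⟩
    · by_contra hcon
      have := w2 q hq (by linarith)
      linarith
  tr := by
    intro y hy z hz y' hy' z' hz' h1 h2 h3 h1' h2' h3'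
    obtain ⟨n, hn, n1, n2⟩ := Nx_trans hΓ A6.zero_mem hy hz hy' hz' h1 h2 (by linarith) h1' h2'
      (by linarith)
    have hnΓ : n ∈ Γ := (Nx_le 0 hn).1
    refine ⟨n.2, fun v hv => hv.1 n hn, fun v hv => ?_, fun v hv => ?_⟩
    · rw [← n1]; exact Px_equiv hΓ hnΓ hy hv
    · rw [← n2]; exact Px_equiv hΓ hnΓ hz hv

end
end Pool.Agent.Y329.T23
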